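import Pool.Agent.W624.StzH

/-!
Highly divisible degrees and the coefficient complexes of borderline weight.
-/

set_option autoImplicit false
set_option linter.unusedSectionVars false

namespace Pool.Agent.Q171.ND3

open Finset MvPolynomial Pool.Agent.W624.Stz

/-! ### Highly divisible integers -/

/-- the filter of highly divisible integers -/
def HD : Filter ℤ := ⨅ r : ℕ, Filter.principal {N : ℤ | (2 : ℤ) ^ r ∣ N}

theorem hd_mem (r : ℕ) : ∀ᶠ N in HD, (2 : ℤ) ^ r ∣ N :=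
  Filter.mem_iInf_of_mem r (Filter.mem_principal_self _)

theorem hd_of {P : ℤ → Prop} (r : ℕ) (h : ∀ N : ℤ, (2 : ℤ) ^ r ∣ N → P N) : ∀ᶠ N in HD, P N :=
  (hd_mem r).mono h

theorem of_hd {P : ℤ → Prop} (h : ∀ᶠ N in HD, P N) : ∃ r : ℕ, ∀ N : ℤ, (2 : ℤ) ^ r ∣ N → P N := by
  have h1 := (Filter.mem_iInf_of_directed (f := fun r : ℕ =>
    Filter.principal {N : ℤ | (2 : ℤ) ^ r ∣ N}) (by
      intro a b
      refine ⟨max a b, ?_, ?_⟩
      · exact Filter.principal_mono.mpr fun N hN =>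
          dvd_trans (pow_dvd_pow 2 (le_max_left a b)) hN
      · exact Filter.principal_mono.mpr fun N hN =>
          dvd_trans (pow_dvd_pow 2 (le_max_right a b)) hN) _).mp h
  obtain ⟨r, hr⟩ := h1
  exact ⟨r, fun N hN => hr hN⟩

/-- halving -/
theorem hd_half {P : ℤ → Prop} (h : ∀ᶠ N in HD, P N) : ∀ᶠ N in HD, ∃ M, N = 2 * M ∧ P M := by
  obtain ⟨r, hr⟩ := of_hd h
  refine hd_of (r + 1) fun N hN => ?_
  obtain ⟨c, hc⟩ := hN
  exact ⟨2 ^ r * c, by rw [hc, pow_succ]; ring, hr _ (dvd_mul_right _ _)⟩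

/-! ### The exactness results of the library in this language -/

theorem evQ (p n j : ℕ) (w : ℤ) (hw : w < 2 * ((n : ℤ) + j)) : ∀ᶠ N in HD,
    ∀ (K : Type) [Fintype K] (ν : K → ℕ), ∑ c, ν c = n → Ex (ktw : K → Kd) p (2 * N + w) ν j := by
  have h : ∃ r, QT r p n j w := by
    rcases Nat.eq_zero_or_pos j with h0 | h0
    · subst h0
      exact (main_ind p).2 n w (by simpa using hw)
    · exact stepQ p (fun p' _ => (main_ind p').2) j h0 n w hw
  obtain ⟨r, hr⟩ := h
  refine hd_of r fun N hN K _ ν hν => hr K ν hν _ ?_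
  rw [add_sub_cancel_right]
  exact hN.mul_left 2

theorem evQ1 (p n j : ℕ) (w : ℤ) (hw : w < 2 * ((n : ℤ) + j)) : ∀ᶠ N in HD,
    ∀ (K : Type) [Fintype K] (ν : K → ℕ), ∑ c, ν c = n → Ex (ktw : K → Kd) p (N + w) ν j := by
  have h : ∃ r, QT r p n j w := by
    rcases Nat.eq_zero_or_pos j with h0 | h0
    · subst h0
      exact (main_ind p).2 n w (by simpa using hw)
    · exact stepQ p (fun p' _ => (main_ind p').2) j h0 n w hw
  obtain ⟨r, hr⟩ := h
  refine hd_of r fun N hN K _ ν hν => hr K ν hν _ ?_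
  rw [add_sub_cancel_right]
  exact hN

/-- vanishing of the twisted complexes in the degrees `N + n` -/
def HA (p M : ℕ) (N : ℤ) : Prop := ∀ (K : Type) [Fintype K] (ν : K → ℕ), 1 ≤ ∑ c, ν c →
  ∑ c, ν c ≤ M → Ex (ktw : K → Kd) p (N + (∑ c, ν c : ℕ)) ν 0

theorem evHA (p M : ℕ) : ∀ᶠ N in HD, HA p M N := by
  induction M with
  | zero => exact hd_of 0 fun N _ K _ ν h1 h2 => absurd h1 (by omega)
  | succ M ih =>
    filter_upwards [ih, evQ1 p (M + 1) 0 (M + 1 : ℕ) (by push_cast; linarith)] with N h1 h2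
    intro K _ ν h3 h4
    rcases Nat.lt_or_ge (∑ c, ν c) (M + 1) with h | h
    · exact h1 K ν h3 (by omega)
    · have h5 : ∑ c, ν c = M + 1 := by omega
      rw [h5]
      exact h2 K ν h5

/-- the obstruction groups of the lifting lemma -/
def HL (p n j : ℕ) (w : ℤ) (N : ℤ) : Prop := ∀ k : ℕ, k ≤ p → ∀ (K : Type) [Fintype K]
  (ν : K → ℕ), ∑ c, ν c = n → Ex (ktw : K → Kd) (p - k) (2 * N + (w + 1 + k)) ν (j + 1 + k)

theorem evHL (p n j : ℕ) (w : ℤ) (hw : w + 1 < 2 * ((n : ℤ) + j + 1)) :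
    ∀ᶠ N in HD, HL p n j w N := by
  have key : ∀ P : ℕ, ∀ᶠ N in HD, ∀ k : ℕ, k < P → ∀ (K : Type) [Fintype K]
      (ν : K → ℕ), ∑ c, ν c = n →
      Ex (ktw : K → Kd) (p - k) (2 * N + (w + 1 + k)) ν (j + 1 + k) := by
    intro P
    induction P with
    | zero => exact hd_of 0 fun N _ k hk => absurd hk (by omega)
    | succ P ih =>
      filter_upwards [ih, evQ (p - P) n (j + 1 + P) (w + 1 + P) (by push_cast; linarith)]
        with N h1 h2
      intro k hk
      rcases Nat.lt_or_ge k P with h | h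
      · exact h1 k h
      · have : k = P := by omega
        subst this
        exact h2
  filter_upwards [key (p + 1)] with N h k hk
  exact h k (by omega)

/-! ### The general lifting lemma -/

section lift

variable {K : Type} [Fintype K]

/-- A cochain whose differential is annihilated by `D` is a coboundary away from one which is
annihilated by `D`. -/
theorem lift (p n j : ℕ) (w N : ℤ) (hL : HL p n j w N) {ν : K → ℕ} (hν : ∑ c, ν c = n) {y : RR K}
    (hy : TT ktw p (2 * N + w) ν j y) (hD : DX K (dd ktw p y) = 0) :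
    ∃ g h, TT ktw p (2 * N + w) ν j g ∧ DX K g = 0 ∧ dd ktw p g = dd ktw p y ∧
      TT ktw (p - 1) (2 * N + w) ν j h ∧ y = g + dm ktw p h := by
  have := lift_lemma (R := RR K) (fun q i f => TT ktw q (2 * N + w + i) ν (j + i) f)
    (fun q => (dd ktw q).toAddMonoidHom) (fun q => (dm ktw q).toAddMonoidHom)
    (DX K).toLinearMap.toAddMonoidHom rfl (fun q => rfl)
    (fun q i f g hf hg => hf.sub hg)
    (fun q i f hf => hf.dd naf_tw) (fun q i f hf => by
      have := hf.DX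
      have h2 : 2 * N + w + (i : ℤ) + 1 = 2 * N + w + ((i + 1 : ℕ) : ℤ) := by
        push_cast; ring
      rw [h2] at this
      exact this) (fun f => DX_DX f) (fun q f => DX_dd q f)
    (fun q i f hf => dd_dd ktw hf.cu) (fun q i f hf hD => by
      have h2 : 2 * N + w + ((i + 1 : ℕ) : ℤ) = 2 * N + w + (i : ℤ) + 1 := by
        push_cast; ring
      rw [h2] at hf
      exact DX_exact hf hD) p 0 y (by simpa using hy) hD (by
      intro k hk f hf hdf
      have h3 := hL k hk K ν hν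
      have h2 : 2 * N + w + ((0 + 1 + k : ℕ) : ℤ) = 2 * N + (w + 1 + k) := by push_cast; ring
      have h4 : j + (0 + 1 + k) = j + 1 + k := by omega
      have hf' : TT ktw (p - k) (2 * N + w + ((0 + 1 + k : ℕ) : ℤ)) ν (j + (0 + 1 + k)) f := hf
      rw [h2, h4] at hf'
      obtain ⟨h, hh1, hh2⟩ := h3 f hf' hdf
      refine ⟨h, ?_, hh2⟩
      change TT ktw (p - k - 1) (2 * N + w + ((0 + 1 + k : ℕ) : ℤ)) ν (j + (0 + 1 + k)) h
      rw [h2, h4]
      exact hh1)
  obtain ⟨g, h, hg, hDg, hdg, hh, hyg⟩ := this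
  exact ⟨g, h, by simpa using hg, hDg, hdg, by simpa using hh, hyg⟩

/-- If `D f` is a coboundary, then `f` can be changed by a coboundary so that `D f = 0`. -/
theorem lift_cob (p n j : ℕ) (w N : ℤ) (hL : HL p n (j + 1) (w + 1) N) {ν : K → ℕ}
    (hν : ∑ c, ν c = n) {f h1 : RR K} (hf : TT ktw (p + 1) (2 * N + w) ν j f)
    (hh : TT ktw p (2 * N + (w + 1)) ν (j + 1) h1) (hD : DX K f = dd ktw p h1) :
    ∃ h3, TT ktw p (2 * N + w) ν j h3 ∧ TT ktw (p + 1) (2 * N + w) ν j (f - dd ktw p h3) ∧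
      DX K (f - dd ktw p h3) = 0 := by
  obtain ⟨g, _, hg, hDg, hdg, _, _⟩ := lift p n (j + 1) (w + 1) N hL hν hh (by
    rw [← hD, DX_DX])
  have h2 : 2 * N + (w + 1) = 2 * N + w + 1 := by ring
  rw [h2] at hg
  obtain ⟨h3, hh3, hh3'⟩ := DX_exact hg hDg
  refine ⟨h3, hh3, hf.sub (hh3.dd naf_tw), ?_⟩
  have h4 : DX K (dd ktw p h3) = dd ktw p (DX K h3) := DX_dd p h3
  rw [map_sub, h4, hh3', hdg, hD, sub_self]

end lift

end Pool.Agent.Q171.ND3
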