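import Pool.Agent.Q171.ND3.A

/-!
The coefficient complexes in borderline degrees.
-/

set_option autoImplicit false
set_option linter.unusedSectionVars false

namespace Pool.Agent.Q171.ND3

open Finset MvPolynomial Pool.Agent.W624.Stz

section incl

variable {K : Type}

/-- inclusion of the cobar complex without coefficients -/
noncomputable def JJ (K : Type) : RR Empty →ₐ[ZMod 2] RR K := RN (fun e : Empty => e.elim)

theorem JJ_x (a n : ℕ) : JJ K (X (.x a n)) = X (.x a n) := RN_x _ a n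
theorem JJ_s (a n : ℕ) : JJ K (X (.s a n)) = X (.s a n) := RN_s _ a n

theorem JJ_dd (κ1 : Empty → Kd) (κ2 : K → Kd) (q : ℕ) (f : RR Empty) :
    JJ K (dd κ1 q f) = dd κ2 q (JJ K f) := RN_dd _ (fun c => c.elim) q f

theorem JJ_dm (κ1 : Empty → Kd) (κ2 : K → Kd) (q : ℕ) (f : RR Empty) :
    JJ K (dm κ1 q f) = dm κ2 q (JJ K f) := RN_dm _ (fun c => c.elim) q f

theorem JJ_cut (q : ℕ) (f : RR Empty) : JJ K (cut Empty q f) = cut K q (JJ K f) := RN_cut _ q f

/-- weights under the inclusion -/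
def jJ (K : Type) : ℤ × ((Empty → ℕ) × ℕ) →+ ℤ × ((K → ℕ) × ℕ) where
  toFun m := (m.1, (0, m.2.2))
  map_zero' := rfl
  map_add' a b := by
    refine Prod.ext rfl (Prod.ext ?_ rfl)
    simp

theorem IW_jJ {κ1 : Empty → Kd} {κ : K → Kd} {f : RR Empty} {m : ℤ × ((Empty → ℕ) × ℕ)}
    (hf : IW (wF κ1) f m) : IW (wF κ) (JJ K f) (jJ K m) := by
  refine IW.aeval' (jJ K) (JJ K) (w := wF κ1) (w' := wF κ) ?_ hf
  intro v
  cases v with
  | x a n => rw [JJ_x]; exact isWeightedHomogeneous_X _ _ _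
  | s a n => rw [JJ_s]; exact isWeightedHomogeneous_X _ _ _
  | y c n => exact c.elim

theorem TT_JJ {κ1 : Empty → Kd} {κ : K → Kd} {q : ℕ} {t : ℤ} {ν : Empty → ℕ} {j : ℕ}
    {f : RR Empty} (hf : TT κ1 q t ν j f) : TT κ q t (0 : K → ℕ) j (JJ K f) :=
  ⟨by rw [← JJ_cut, hf.cu], IW_jJ hf.iw⟩

/-- killing the coefficients -/
noncomputable def RJ (K : Type) : RR K →ₐ[ZMod 2] RR Empty :=
  aeval (fun v => match v with
    | .x a n => X (.x a n)
    | .s a n => X (.s a n)
    | .y _ _ => 0)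

theorem RJ_x (a n : ℕ) : RJ K (X (.x a n)) = X (.x a n) := aeval_X _ _
theorem RJ_s (a n : ℕ) : RJ K (X (.s a n)) = X (.s a n) := aeval_X _ _
theorem RJ_y (c : K) (n : ℕ) : RJ K (X (.y c n)) = 0 := aeval_X _ _

theorem RJ_co (z : Pt Empty (RR Empty)) (v : Vr K) :
    ev z (RJ K (X v)) = co (mp id (fun _ _ => 0) z : Pt K (RR Empty)) v := by
  cases v with
  | x a n => rw [RJ_x, ev_X]; rfl
  | s a n => rw [RJ_s, ev_X]; rfl
  | y c n => rw [RJ_y, map_zero]; rfl

theorem RJ_dd {κ : K → Kd} (hκ : Naf κ) (κ2 : Empty → Kd) (q : ℕ) (f : RR K) :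
    RJ K (dd κ q f) = dd κ2 q (RJ K f) :=
  hom_dd (RJ K) κ κ2 id (fun _ _ => 0) (fun _ _ => rfl) (by
    intro g y
    funext c
    have h : act1 (κ c) g (0 : ℕ → RR Empty) = 0 := by
      cases hk : κ c with
      | un => simp only [act1, op_zero]
      | tw => simp only [act1, op_zero]
      | af => exact absurd hk (hκ c)
    exact h.symm) RJ_co q f

theorem RJ_cut (q : ℕ) (f : RR K) : RJ K (cut K q f) = cut Empty q (RJ K f) :=
  hom_cut (RJ K) id (fun _ _ => 0) rfl RJ_co q f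

theorem RJ_JJ (f : RR Empty) : RJ K (JJ K f) = f := by
  have : (RJ K).comp (JJ K) = AlgHom.id (ZMod 2) (RR Empty) := by
    apply algHom_ext
    intro v
    rw [AlgHom.comp_apply, AlgHom.id_apply]
    cases v with
    | x a n => rw [JJ_x, RJ_x]
    | s a n => rw [JJ_s, RJ_s]
    | y c n => exact c.elim
  exact DFunLike.congr_fun this f

theorem JJ_inj {f g : RR Empty} (h : JJ K f = JJ K g) : f = g := by
  have := congrArg (RJ K) h
  rwa [RJ_JJ, RJ_JJ] at this

/-- projection of weights -/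
def jR' (K : Type) : ℤ × ((K → ℕ) × ℕ) →+ ℤ × ((Empty → ℕ) × ℕ) where
  toFun m := (m.1, (0, m.2.2))
  map_zero' := rfl
  map_add' a b := by
    refine Prod.ext rfl (Prod.ext ?_ rfl)
    simp

theorem TT_RJ {κ : K → Kd} {κ2 : Empty → Kd} {q : ℕ} {t : ℤ} {ν : K → ℕ} {ν2 : Empty → ℕ} {j : ℕ}
    {f : RR K} (hf : TT κ q t ν j f) : TT κ2 q t ν2 j (RJ K f) := by
  refine ⟨by rw [← RJ_cut, hf.cu], ?_⟩
  have h : IW (wF κ2) (RJ K f) (jR' K (t, (ν, j))) := by
    refine IW.aeval' (jR' K) (RJ K) (w := wF κ) (w' := wF κ2) ?_ hf.iw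
    intro v
    cases v with
    | x a n => rw [RJ_x]; exact isWeightedHomogeneous_X _ _ _
    | s a n => rw [RJ_s]; exact isWeightedHomogeneous_X _ _ _
    | y _ n => rw [RJ_y]; exact IW.zero' _ _
  have h2 : jR' K (t, (ν, j)) = (t, (ν2, j)) := Prod.ext rfl (Prod.ext (Subsingleton.elim _ _) rfl)
  rwa [h2] at h

/-- elements of degree zero in the coefficients come from the complex without coefficients -/
theorem JJ_RJ [Fintype K] {κ : K → Kd} {q : ℕ} {t : ℤ} {ν : K → ℕ} {j : ℕ} {f : RR K}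
    (hf : TT κ q t ν j f) (hν : ∑ c, ν c = 0) : JJ K (RJ K f) = f := by
  let pr : ℤ × ((K → ℕ) × ℕ) →+ ℕ := {
    toFun := fun m => ∑ c, m.2.1 c
    map_zero' := by simp
    map_add' := fun a b => by simp [sum_add_distrib] }
  have h1 : IW (fun v => pr (wF κ v)) f 0 := by
    have := hf.iw.coarse pr
    have h2 : pr (t, (ν, j)) = 0 := hν
    rwa [h2] at this
  have := hom_eq_of_IW ((JJ K).comp (RJ K)) (AlgHom.id _ _) (fun v => pr (wF κ v)) h1 (by
    intro v hv
    rw [AlgHom.comp_apply, AlgHom.id_apply]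
    cases v with
    | x a n => rw [RJ_x, JJ_x]
    | s a n => rw [RJ_s, JJ_s]
    | y c n =>
      have h3 : ∑ c', ee c c' = 0 := hv
      rw [sum_ee] at h3
      omega)
  exact this

theorem JJ_PHI (f : RR Empty) : JJ K (PHI Empty f) = PHI K (JJ K f) := by
  have : (JJ K).comp (PHI Empty) = (PHI K).comp (JJ K) := by
    apply algHom_ext
    intro v
    rw [AlgHom.comp_apply, AlgHom.comp_apply]
    cases v with
    | x a n => rw [PHI_x, map_pow, JJ_x, PHI_x]
    | s a n => rw [PHI_s, map_pow, JJ_s, PHI_s]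
    | y c n => exact c.elim
  exact DFunLike.congr_fun this f

end incl

section Ys

variable {K : Type} [Fintype K]

theorem ev_y0 {κ : K → Kd} (hκ : Naf κ) (q j : ℕ) (c : K) :
    ev (fc (act κ) q j (uni K)) (X (.y c 0)) = X (.y c 0) := by
  rw [ev_X]
  have := fc_pres (ac := act (A := RR K) κ) (fun _ => True)
    (fun y => y c 0 = X (.y c 0)) (fun _ _ _ _ => trivial) (by
      intro g y _ hy
      have h := hκ c
      simp only [act]
      cases hk : κ c with
      | un => simp only [act1]; rw [op_zero_coord, g.h, one_mul, hy]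
      | tw => simp only [act1]; rw [op_zero_coord, fr, g.h, one_pow, one_mul, hy]
      | af => exact absurd hk h) q j (uni K) (fun _ => trivial) rfl
  exact this.2

/-- the monomial in the bottom coordinates -/
noncomputable def YY (ν : K → ℕ) : RR K := ∏ c, X (.y c 0) ^ ν c

theorem YY_ne (ν : K → ℕ) : YY ν ≠ 0 :=
  prod_ne_zero_iff.mpr fun _ _ => pow_ne_zero _ (X_ne_zero _)

theorem ev_YY {κ : K → Kd} (hκ : Naf κ) (q j : ℕ) (ν : K → ℕ) :
    ev (fc (act κ) q j (uni K)) (YY ν) = YY ν := by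
  rw [YY, map_prod]
  exact prod_congr rfl fun c _ => by rw [map_pow, ev_y0 hκ]

theorem dd_YY {κ : K → Kd} (hκ : Naf κ) (q : ℕ) (ν : K → ℕ) (f : RR K) :
    dd κ q (YY ν * f) = YY ν * dd κ q f := by
  rw [dd_apply, dd_apply, mul_sum]
  exact sum_congr rfl fun j _ => by rw [map_mul, ev_YY hκ]

theorem dm_YY {κ : K → Kd} (hκ : Naf κ) (q : ℕ) (ν : K → ℕ) (f : RR K) :
    dm κ q (YY ν * f) = YY ν * dm κ q f := by
  cases q with
  | zero => simp only [dm, LinearMap.zero_apply, mul_zero]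
  | succ q => exact dd_YY hκ q ν f

theorem YY_succ {ν : K → ℕ} {c : K} (h : 1 ≤ ν c) : X (.y c 0) * YY (ν - ee c) = YY ν := by
  classical
  rw [YY, YY, ← mul_prod_erase univ _ (mem_univ c), ← mul_prod_erase univ
    (fun c => (X (.y c 0) : RR K) ^ ν c) (mem_univ c), ← mul_assoc]
  congr 1
  · rw [← pow_succ']
    congr 1
    simp only [Pi.sub_apply, ee_self]
    omega
  · refine prod_congr rfl fun c' hc' => ?_
    simp only [Pi.sub_apply]
    rw [ee_ne (ne_of_mem_erase hc'), Nat.sub_zero]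

theorem PHI_YY (ν : K → ℕ) : PHI K (YY ν) = YY ν := by
  rw [YY, map_prod]
  exact prod_congr rfl fun c _ => by rw [map_pow, PHI_y]

theorem YY_zero {ν : K → ℕ} (h : ∑ c, ν c = 0) : YY ν = 1 := by
  rw [YY]
  refine prod_eq_one fun c _ => ?_
  have : ν c = 0 := by
    have h1 : ν c ≤ ∑ c, ν c := single_le_sum (f := ν) (fun _ _ => Nat.zero_le _) (mem_univ c)
    omega
  rw [this, pow_zero]

end Ys

section un

variable {K : Type} [Fintype K]

/-- division by the bottom coordinate: exactness -/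
theorem stepU {κ : K → Kd} (hκ : Naf κ) {c : K} (hc : κ c = .un) {p : ℕ} {t : ℤ} {ν : K → ℕ}
    (h1 : Ex (upd κ c) p t ν 0) (h2 : 1 ≤ ν c → Ex κ p (t - 1) (ν - ee c) 0) : Ex κ p t ν 0 := by
  intro f hf hdf
  obtain ⟨h, hh, hdh⟩ := h1 (PI (sg c) f) (hf.PI (Rel_upd hc)) (by
    rw [← PI_dd (Rel_upd hc), hdf, map_zero])
  have hSI := hh.SI (Rel_upd hc)
  have hw : TT κ p t ν 0 (f - dm κ p (SI (sg c) h)) := hf.sub (hSI.dm hκ)
  have hPw : PI (sg c) (f - dm κ p (SI (sg c) h)) = 0 := by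
    rw [map_sub, PI_dm (Rel_upd hc), PI_SI, hdh, sub_self]
  have hdw : dd κ p (f - dm κ p (SI (sg c) h)) = 0 := by
    rw [map_sub, hdf, dd_dm κ hSI.cu, sub_self]
  rcases Y_div hc hw hPw with h0 | ⟨hν, f', hf', hTf'⟩
  · exact ⟨SI (sg c) h, hSI, (sub_eq_zero.mp h0).symm⟩
  · rw [hf', dd_Y hc] at hdw
    obtain ⟨h', hh', hdh'⟩ := h2 hν f' hTf'
      ((mul_eq_zero.mp hdw).resolve_left (X_ne_zero _))
    refine ⟨X (.y c 0) * h' + SI (sg c) h, (TT.mulY hc hν hh').add hSI, ?_⟩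
    rw [map_add, dm_Y hc, hdh', ← hf']
    abel

/-- mixed complexes with a twisted coordinate of positive degree are exact in the borderline
degrees -/
theorem mixEx {p M : ℕ} {N : ℤ} (hA : HA p M N) : ∀ (m : ℕ) (κ : K → Kd) (_ : Naf κ)
    (ν : K → ℕ) (_ : UU κ + ∑ c, ν c ≤ m) (_ : ∑ c, ν c ≤ M) (c0 : K) (_ : κ c0 = .tw)
    (_ : 1 ≤ ν c0), Ex κ p (N + (∑ c, ν c : ℕ)) ν 0 := by
  intro m
  induction m with
  | zero =>
    intro κ _ ν hm _ c0 _ h1
    have : ν c0 ≤ ∑ c, ν c := single_le_sum (f := ν) (fun _ _ => Nat.zero_le _) (mem_univ c0)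
    omega
  | succ m ih =>
    intro κ hκ ν hm hM c0 hc0 h1
    by_cases hall : ∀ c, κ c = .tw
    · have hk : κ = ktw := funext hall
      subst hk
      refine hA K ν ?_ hM
      have : ν c0 ≤ ∑ c, ν c := single_le_sum (f := ν) (fun _ _ => Nat.zero_le _) (mem_univ c0)
      omega
    · push Not at hall
      obtain ⟨c, hc⟩ := hall
      have hcu : κ c = .un := by
        cases hk : κ c with
        | un => rfl
        | tw => exact absurd hk hc
        | af => exact absurd hk (hκ c)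
      have hne : c0 ≠ c := fun h => by rw [h] at hc0; exact hc hc0
      have hU := UU_upd hcu
      refine stepU hκ hcu (ih (upd κ c) (naf_upd hκ c) ν (by omega) hM c0 (by
        rw [upd_ne κ hne, hc0]) h1) fun hνc => ?_
      have hs := sum_sub_ee hνc
      have hih := ih κ hκ (ν - ee c) (by omega) (by omega) c0 hc0 (by
        simp only [Pi.sub_apply]; rw [ee_ne hne]; omega)
      have : N + ((∑ c, ν c : ℕ) : ℤ) - 1 = N + ((∑ c', (ν - ee c) c' : ℕ) : ℤ) := by
        rw [hs]; push_cast; ring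
      rw [this]
      exact hih

theorem exists_pos {ν : K → ℕ} {n : ℕ} (h : ∑ c, ν c = n + 1) : ∃ c, 1 ≤ ν c := by
  by_contra hne
  push Not at hne
  have : ∑ c, ν c = 0 := sum_eq_zero fun c _ => by have := hne c; omega
  omega

/-- every cocycle of borderline degree is a multiple of the bottom class -/
theorem unSurj {p M : ℕ} {N : ℤ} (hA : HA p M N) : ∀ (n : ℕ) (_ : n ≤ M) (ν : K → ℕ)
    (_ : ∑ c, ν c = n) (f : RR K) (_ : TT kun p (N + n) ν 0 f) (_ : dd kun p f = 0),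
    ∃ f0 : RR Empty, TT kun p N 0 0 f0 ∧ dd kun p f0 = 0 ∧
      ∃ h, TT kun (p - 1) (N + n) ν 0 h ∧ f = YY ν * JJ K f0 + dm kun p h := by
  intro n
  induction n with
  | zero =>
    intro _ ν hν f hf hdf
    have hJ := JJ_RJ hf hν
    refine ⟨RJ K f, ?_, ?_, 0, TT.zero, ?_⟩
    · have := TT_RJ (κ2 := kun) (ν2 := 0) hf
      simpa using this
    · rw [← RJ_dd naf_un kun, hdf, map_zero]
    · rw [YY_zero hν, one_mul, hJ, map_zero, add_zero]
  | succ n ih =>
    intro hM ν hν f hf hdf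
    obtain ⟨c, hc⟩ := exists_pos hν
    have hcu : (kun : K → Kd) c = .un := rfl
    have hR := Rel_upd hcu
    have hEx : Ex (upd kun c) p (N + (n + 1 : ℕ)) ν 0 := by
      have := mixEx hA _ (upd kun c) (naf_upd naf_un c) ν le_rfl (by omega) c (upd_self _ _) hc
      rwa [hν] at this
    obtain ⟨h, hh, hdh⟩ := hEx (PI (sg c) f) (hf.PI hR) (by rw [← PI_dd hR, hdf, map_zero])
    have hSI := hh.SI hR
    have hw : TT kun p (N + (n + 1 : ℕ)) ν 0 (f - dm kun p (SI (sg c) h)) :=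
      hf.sub (hSI.dm naf_un)
    have hPw : PI (sg c) (f - dm kun p (SI (sg c) h)) = 0 := by
      rw [map_sub, PI_dm hR, PI_SI, hdh, sub_self]
    have hdw : dd kun p (f - dm kun p (SI (sg c) h)) = 0 := by
      rw [map_sub, hdf, dd_dm kun hSI.cu, sub_self]
    have hN : N + ((n + 1 : ℕ) : ℤ) - 1 = N + n := by push_cast; ring
    rcases Y_div hcu hw hPw with h0 | ⟨_, f', hf', hTf'⟩
    · refine ⟨0, TT.zero, map_zero _, SI (sg c) h, hSI, ?_⟩
      rw [map_zero, mul_zero, zero_add]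
      exact sub_eq_zero.mp h0
    · rw [hf', dd_Y hcu] at hdw
      rw [hN] at hTf'
      obtain ⟨f0, hf0, hdf0, h', hh', he⟩ := ih (by omega) (ν - ee c) (by
        have := sum_sub_ee hc; omega) f' hTf' ((mul_eq_zero.mp hdw).resolve_left (X_ne_zero _))
      refine ⟨f0, hf0, hdf0, X (.y c 0) * h' + SI (sg c) h, (TT.mulY hcu hc (by
        rw [hN]; exact hh')).add hSI, ?_⟩
      rw [map_add, dm_Y hcu, ← YY_succ hc]
      have h5 : f = X (.y c 0) * f' + dm kun p (SI (sg c) h) := by rw [← hf']; abel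
      rw [h5, he]
      ring

/-- the bottom class is a coboundary only trivially -/
theorem unInj {p M : ℕ} {N : ℤ} (hA : HA p M N) : ∀ (n : ℕ) (_ : n ≤ M) (ν : K → ℕ)
    (_ : ∑ c, ν c = n) (h : RR K) (_ : TT kun p (N + n) ν 0 h) (f0 : RR Empty)
    (_ : dd kun p h = YY ν * JJ K f0), ∃ h0, TT kun p N 0 0 h0 ∧ dd kun p h0 = f0 := by
  intro n
  induction n with
  | zero =>
    intro _ ν hν h hh f0 hd
    refine ⟨RJ K h, ?_, ?_⟩
    · have := TT_RJ (κ2 := kun) (ν2 := 0) hh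
      simpa using this
    · rw [← RJ_dd naf_un kun, hd, YY_zero hν, one_mul, RJ_JJ]
  | succ n ih =>
    intro hM ν hν h hh f0 hd
    obtain ⟨c, hc⟩ := exists_pos hν
    have hcu : (kun : K → Kd) c = .un := rfl
    have hR := Rel_upd hcu
    have hEx : Ex (upd kun c) p (N + (n + 1 : ℕ)) ν 0 := by
      have := mixEx hA _ (upd kun c) (naf_upd naf_un c) ν le_rfl (by omega) c (upd_self _ _) hc
      rwa [hν] at this
    have hPY : PI (sg c) (YY ν * JJ K f0) = 0 := by
      rw [← YY_succ hc, map_mul, map_mul, PI_y]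
      simp only [hS]
      rw [if_pos (sg_self _)]
      simp [sh]
    obtain ⟨e, he, hde⟩ := hEx (PI (sg c) h) (hh.PI hR) (by rw [← PI_dd hR, hd, hPY])
    have hSI := he.SI hR
    have hw : TT kun p (N + (n + 1 : ℕ)) ν 0 (h - dm kun p (SI (sg c) e)) :=
      hh.sub (hSI.dm naf_un)
    have hPw : PI (sg c) (h - dm kun p (SI (sg c) e)) = 0 := by
      rw [map_sub, PI_dm hR, PI_SI, hde, sub_self]
    have hdw : dd kun p (h - dm kun p (SI (sg c) e)) = YY ν * JJ K f0 := by
      rw [map_sub, hd, dd_dm kun hSI.cu, sub_zero]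
    have hN : N + ((n + 1 : ℕ) : ℤ) - 1 = N + n := by push_cast; ring
    rcases Y_div hcu hw hPw with h0 | ⟨_, h', hf', hTf'⟩
    · rw [h0, map_zero] at hdw
      have h1 : JJ K f0 = 0 := (mul_eq_zero.mp hdw.symm).resolve_left (YY_ne ν)
      have h2 : f0 = 0 := JJ_inj (K := K) (by rw [h1, map_zero])
      exact ⟨0, TT.zero, by rw [map_zero, h2]⟩
    · rw [hN] at hTf'
      refine ih (by omega) (ν - ee c) (by have := sum_sub_ee hc; omega) h' hTf' f0 ?_
      rw [hf', dd_Y hcu, ← YY_succ hc, mul_assoc] at hdw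
      exact mul_left_cancel₀ (X_ne_zero _) hdw

end un

end Pool.Agent.Q171.ND3
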