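import Pool.Agent.Q171.ND3.Def

/-!
The combinatorial identity behind the cup squares.
-/

set_option autoImplicit false

namespace Pool.Agent.Q171.ND3.St

open Finset

/-- the parity index -/
def par (U : Finset ℕ) (u : ℕ) : ℕ := u + (U.filter (· < u)).card

theorem mem_ev0 {U : Finset ℕ} {u : ℕ} : u ∈ ev0 U ↔ u ∈ U ∧ Even (par U u) := mem_filter
theorem mem_ev1 {U : Finset ℕ} {u : ℕ} : u ∈ ev1 U ↔ u ∈ U ∧ ¬ Even (par U u) := mem_filter

theorem ev0_disj (U : Finset ℕ) : Disjoint (ev0 U) (ev1 U) := disjoint_filter_filter_not _ _ _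

theorem ev0_union (U : Finset ℕ) : ev0 U ∪ ev1 U = U := by
  ext u
  rw [mem_union, mem_ev0, mem_ev1]
  tauto

theorem par_erase_lt {X : Finset ℕ} {w u : ℕ} (h : u < w) : par (X.erase w) u = par X u := by
  rw [par, par]
  congr 2
  ext v
  simp only [mem_filter, mem_erase]
  constructor
  · rintro ⟨⟨_, h1⟩, h2⟩; exact ⟨h1, h2⟩
  · rintro ⟨h1, h2⟩; exact ⟨⟨by omega, h1⟩, h2⟩

theorem par_erase_gt {X : Finset ℕ} {w u : ℕ} (hw : w ∈ X) (h : w < u) :
    par (X.erase w) u + 1 = par X u := by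
  rw [par, par, add_assoc]
  congr 1
  have : X.filter (· < u) = insert w ((X.erase w).filter (· < u)) := by
    ext v
    simp only [mem_filter, mem_insert, mem_erase]
    constructor
    · rintro ⟨h1, h2⟩
      by_cases hv : v = w
      · exact Or.inl hv
      · exact Or.inr ⟨⟨hv, h1⟩, h2⟩
    · rintro (rfl | ⟨⟨_, h1⟩, h2⟩)
      · exact ⟨hw, h⟩
      · exact ⟨h1, h2⟩
  rw [this, card_insert_of_notMem (by simp)]

/-- the threshold condition -/
def Gt (A X : Finset ℕ) (τ : ℕ) : Prop :=
  ∀ u ∈ X, (u < τ → (u ∈ A ↔ Even (par X u))) ∧ (τ ≤ u → (u ∈ A ↔ ¬ Even (par X u)))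

theorem Gt_succ {A X : Finset ℕ} {w : ℕ} (hw : w ∉ X) : Gt A X w ↔ Gt A X (w + 1) := by
  constructor
  · intro h u hu
    have hne : u ≠ w := fun e => hw (e ▸ hu)
    exact ⟨fun h1 => (h u hu).1 (by omega), fun h1 => (h u hu).2 (by omega)⟩
  · intro h u hu
    have hne : u ≠ w := fun e => hw (e ▸ hu)
    exact ⟨fun h1 => (h u hu).1 (by omega), fun h1 => (h u hu).2 (by omega)⟩

theorem cond_iff {A X : Finset ℕ} (hA : A ⊆ X) {w : ℕ} (hw : w ∈ X) :
    ev0 (X.erase w) = A.erase w ↔ (Gt A X w ∨ Gt A X (w + 1)) := by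
  have hF : ev0 (X.erase w) = A.erase w ↔ ∀ u ∈ X, (u < w → (u ∈ A ↔ Even (par X u))) ∧
      (w < u → (u ∈ A ↔ ¬ Even (par X u))) := by
    constructor
    · intro h u hu
      have h1 := Finset.ext_iff.mp h u
      rw [mem_ev0, mem_erase, mem_erase] at h1
      refine ⟨fun hlt => ?_, fun hlt => ?_⟩
      · rw [par_erase_lt hlt] at h1
        have hne : u ≠ w := by omega
        constructor
        · intro h2; exact (h1.mpr ⟨hne, h2⟩).2
        · intro h2; exact (h1.mp ⟨⟨hne, hu⟩, h2⟩).2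
      · have h3 := par_erase_gt hw hlt
        have hne : u ≠ w := by omega
        rw [← h3, Nat.even_add_one, not_not]
        constructor
        · intro h2; exact (h1.mpr ⟨hne, h2⟩).2
        · intro h2; exact (h1.mp ⟨⟨hne, hu⟩, h2⟩).2
    · intro h
      ext u
      rw [mem_ev0, mem_erase, mem_erase]
      constructor
      · rintro ⟨⟨hne, hu⟩, h2⟩
        refine ⟨hne, ?_⟩
        rcases Nat.lt_or_gt_of_ne hne with hlt | hlt
        · rw [par_erase_lt hlt] at h2
          exact ((h u hu).1 hlt).mpr h2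
        · have h3 := par_erase_gt hw hlt
          refine ((h u hu).2 hlt).mpr ?_
          rw [← h3, Nat.even_add_one, not_not]
          exact h2
      · rintro ⟨hne, h2⟩
        have hu := hA h2
        refine ⟨⟨hne, hu⟩, ?_⟩
        rcases Nat.lt_or_gt_of_ne hne with hlt | hlt
        · rw [par_erase_lt hlt]
          exact ((h u hu).1 hlt).mp h2
        · have h3 := par_erase_gt hw hlt
          have h4 := ((h u hu).2 hlt).mp h2
          rw [← h3, Nat.even_add_one, not_not] at h4
          exact h4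
  rw [hF]
  constructor
  · intro h
    by_cases hp : (w ∈ A ↔ Even (par X w))
    · right
      intro u hu
      refine ⟨fun h1 => ?_, fun h1 => (h u hu).2 (by omega)⟩
      rcases Nat.lt_or_ge u w with h2 | h2
      · exact (h u hu).1 h2
      · have : u = w := by omega
        rw [this]; exact hp
    · left
      intro u hu
      refine ⟨fun h1 => (h u hu).1 h1, fun h1 => ?_⟩
      rcases Nat.lt_or_ge w u with h2 | h2
      · exact (h u hu).2 h2
      · have : u = w := by omega
        rw [this]; tauto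
  · rintro (h | h) u hu
    · exact ⟨fun h1 => (h u hu).1 h1, fun h1 => (h u hu).2 (by omega)⟩
    · exact ⟨fun h1 => (h u hu).1 (by omega), fun h1 => (h u hu).2 (by omega)⟩

theorem Gt_excl {A X : Finset ℕ} {w : ℕ} (hw : w ∈ X) : ¬ (Gt A X w ∧ Gt A X (w + 1)) := by
  rintro ⟨h1, h2⟩
  have h3 := (h1 w hw).2 le_rfl
  have h4 := (h2 w hw).1 (Nat.lt_succ_self w)
  tauto

section ring

variable {R : Type*} [CommRing R]

open Classical in
/-- the indicator -/
noncomputable def ind (R : Type*) [CommRing R] (p : Prop) : R := if p then 1 else 0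

theorem sum_tel (h2 : ∀ a : R, a + a = 0) (g : ℕ → R) (N : ℕ) :
    ∑ w ∈ range N, (g w + g (w + 1)) = g 0 + g N := by
  induction N with
  | zero => rw [sum_range_zero, h2]
  | succ N ih =>
    rw [sum_range_succ, ih]
    have := h2 (g N)
    linear_combination this

open Classical in
theorem count (h2 : ∀ a : R, a + a = 0) {A X : Finset ℕ} (hA : A ⊆ X) {N : ℕ}
    (hX : X ⊆ range N) :
    ∑ w ∈ X, (if ev0 (X.erase w) = A.erase w then (1 : R) else 0)
      = (if A = ev1 X then 1 else 0) + (if A = ev0 X then 1 else 0) := by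
  have h1 : ∀ w ∈ X, (if ev0 (X.erase w) = A.erase w then (1 : R) else 0)
      = ind R (Gt A X w) + ind R (Gt A X (w + 1)) := by
    intro w hw
    have he := Gt_excl (A := A) hw
    have hc := cond_iff hA hw
    simp only [ind]
    by_cases ha : Gt A X w
    · have hb : ¬ Gt A X (w + 1) := fun hb => he ⟨ha, hb⟩
      rw [if_pos ha, if_neg hb, if_pos (hc.mpr (Or.inl ha)), add_zero]
    · by_cases hb : Gt A X (w + 1)
      · rw [if_neg ha, if_pos hb, if_pos (hc.mpr (Or.inr hb)), zero_add]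
      · rw [if_neg ha, if_neg hb, if_neg (fun h => (hc.mp h).elim ha hb), add_zero]
  rw [sum_congr rfl h1]
  have h3 : ∑ w ∈ X, (ind R (Gt A X w) + ind R (Gt A X (w + 1)))
      = ∑ w ∈ range N, (ind R (Gt A X w) + ind R (Gt A X (w + 1))) := by
    refine sum_subset hX fun w _ hw => ?_
    have := Gt_succ (A := A) hw
    rw [show ind R (Gt A X w) = ind R (Gt A X (w + 1)) by rw [ind, ind]; simp only [this], h2]
  rw [h3, sum_tel h2 (fun τ => ind R (Gt A X τ))]
  have h4 : Gt A X 0 ↔ A = ev1 X := by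
    constructor
    · intro h
      ext u
      rw [mem_ev1]
      constructor
      · intro hu; exact ⟨hA hu, ((h u (hA hu)).2 (Nat.zero_le _)).mp hu⟩
      · rintro ⟨hu, hp⟩; exact ((h u hu).2 (Nat.zero_le _)).mpr hp
    · intro h u hu
      refine ⟨fun h1 => absurd h1 (Nat.not_lt_zero _), fun _ => ?_⟩
      rw [h, mem_ev1]; tauto
  have h5 : Gt A X N ↔ A = ev0 X := by
    constructor
    · intro h
      ext u
      rw [mem_ev0]
      constructor
      · intro hu; exact ⟨hA hu, ((h u (hA hu)).1 (mem_range.mp (hX (hA hu)))).mp hu⟩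
      · rintro ⟨hu, hp⟩; exact ((h u hu).1 (mem_range.mp (hX hu))).mpr hp
    · intro h u hu
      refine ⟨fun _ => ?_, fun h1 => absurd (mem_range.mp (hX hu)) (by omega)⟩
      rw [h, mem_ev0]; tauto
  simp only [ind, h4, h5]

/-- the pairs of disjoint sets of the same size -/
noncomputable def Prs (k N : ℕ) : Finset (Finset ℕ × Finset ℕ) :=
  ((range N).powerset ×ˢ (range N).powerset).filter
    fun p => p.1.card = k + 1 ∧ p.2.card = k + 1 ∧ Disjoint p.1 p.2

theorem mem_Prs {k N : ℕ} {A B : Finset ℕ} : (A, B) ∈ Prs k N ↔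
    (A ⊆ range N ∧ B ⊆ range N) ∧ A.card = k + 1 ∧ B.card = k + 1 ∧ Disjoint A B := by
  simp only [Prs, mem_filter, mem_product, mem_powerset]

theorem union_erase_sdiff {A B : Finset ℕ} (h : Disjoint A B) {w : ℕ}
    (h0 : ev0 ((A ∪ B).erase w) = A) : ev1 ((A ∪ B).erase w) = B.erase w := by
  have hd := ev0_disj ((A ∪ B).erase w)
  have hu := ev0_union ((A ∪ B).erase w)
  rw [h0] at hd hu
  ext u
  have h1 := Finset.ext_iff.mp hu u
  rw [mem_union, mem_erase, mem_union] at h1
  rw [mem_erase]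
  have h2 := fun ha : u ∈ A => disjoint_left.mp hd ha
  have h3 := fun ha : u ∈ A => disjoint_left.mp h ha
  tauto

theorem union_erase_sdiff' {A B : Finset ℕ} (h : Disjoint A B) {w : ℕ} (hw : w ∈ A)
    (h0 : ev0 ((A ∪ B).erase w) = A.erase w) : ev1 ((A ∪ B).erase w) = B := by
  have hd := ev0_disj ((A ∪ B).erase w)
  have hu := ev0_union ((A ∪ B).erase w)
  rw [h0] at hd hu
  ext u
  have h1 := Finset.ext_iff.mp hu u
  rw [mem_union, mem_erase, mem_erase, mem_union] at h1
  have h2 := fun ha : u ∈ A.erase w => disjoint_left.mp hd ha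
  rw [mem_erase] at h2
  have h3 := fun ha : u ∈ A => disjoint_left.mp h ha
  have h4 : u = w → u ∈ A := fun e => e ▸ hw
  tauto

open Classical in
/-- the combinatorial identity -/
theorem cmb (h2 : ∀ a : R, a + a = 0) (xs : Finset ℕ → R) (k N : ℕ)
    (hP : ∀ B ⊆ range N, B.card = k → ∑ w ∈ range N \ B, xs (insert w B) = 0) :
    ∑ W ∈ (range N).powerset, ∑ w ∈ W,
      (if ((ev0 W).erase w).card = k ∧ ((ev1 W).erase w).card = k then
        xs (insert w (ev0 W)) * xs (insert w (ev1 W)) else 0) = 0 := by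
  -- splitting
  have hsplit : ∀ W ∈ (range N).powerset, ∑ w ∈ W,
      (if ((ev0 W).erase w).card = k ∧ ((ev1 W).erase w).card = k then
        xs (insert w (ev0 W)) * xs (insert w (ev1 W)) else 0)
      = ∑ w ∈ range N \ W, ((if (ev0 W).card = k + 1 ∧ (ev1 W).card = k then
          xs (ev0 W) * xs (insert w (ev1 W)) else 0)
        + (if (ev0 W).card = k ∧ (ev1 W).card = k + 1 then
          xs (insert w (ev0 W)) * xs (ev1 W) else 0)) := by
    intro W hW
    rw [mem_powerset] at hW
    have hun := ev0_union W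
    have hdj := ev0_disj W
    have e0 : ∀ w ∈ ev0 W, (if ((ev0 W).erase w).card = k ∧ ((ev1 W).erase w).card = k then
        xs (insert w (ev0 W)) * xs (insert w (ev1 W)) else 0)
        = if (ev0 W).card = k + 1 ∧ (ev1 W).card = k then
          xs (ev0 W) * xs (insert w (ev1 W)) else 0 := by
      intro w hw
      have hw1 : w ∉ ev1 W := disjoint_left.mp hdj hw
      have hpos : 0 < (ev0 W).card := card_pos.mpr ⟨w, hw⟩
      rw [insert_eq_of_mem hw, card_erase_of_mem hw, erase_eq_of_notMem hw1]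
      congr 1
      simp only [eq_iff_iff, and_congr_left_iff]
      intro _
      omega
    have e1 : ∀ w ∈ ev1 W, (if ((ev0 W).erase w).card = k ∧ ((ev1 W).erase w).card = k then
        xs (insert w (ev0 W)) * xs (insert w (ev1 W)) else 0)
        = if (ev0 W).card = k ∧ (ev1 W).card = k + 1 then
          xs (insert w (ev0 W)) * xs (ev1 W) else 0 := by
      intro w hw
      have hw1 : w ∉ ev0 W := disjoint_right.mp hdj hw
      have hpos : 0 < (ev1 W).card := card_pos.mpr ⟨w, hw⟩
      rw [insert_eq_of_mem hw, card_erase_of_mem hw, erase_eq_of_notMem hw1]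
      congr 1
      simp only [eq_iff_iff, and_congr_right_iff]
      intro _
      omega
    conv_lhs => rw [← hun]
    rw [sum_union hdj, hun, sum_congr rfl e0, sum_congr rfl e1, sum_add_distrib]
    congr 1
    · by_cases hc : (ev0 W).card = k + 1 ∧ (ev1 W).card = k
      · simp only [if_pos hc]
        rw [← mul_sum, ← mul_sum]
        congr 1
        have h3 := hP (ev1 W) (fun u hu => hW (mem_ev1.mp hu).1) hc.2
        have h4 : range N \ ev1 W = ev0 W ∪ (range N \ W) := by
          ext u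
          have h5 := Finset.ext_iff.mp hun u
          rw [mem_union] at h5
          have h6 : u ∈ W → u ∈ range N := fun h => hW h
          have h7 : u ∈ ev0 W → u ∉ ev1 W := fun h => disjoint_left.mp hdj h
          simp only [mem_sdiff, mem_union]
          tauto
        rw [h4, sum_union (disjoint_left.mpr fun u hu hu' => (mem_sdiff.mp hu').2
          (mem_ev0.mp hu).1)] at h3
        have h5 := h2 (∑ w ∈ range N \ W, xs (insert w (ev1 W)))
        linear_combination h3 - h5
      · simp only [if_neg hc, sum_const_zero]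
    · by_cases hc : (ev0 W).card = k ∧ (ev1 W).card = k + 1
      · simp only [if_pos hc]
        rw [← sum_mul, ← sum_mul]
        congr 1
        have h3 := hP (ev0 W) (fun u hu => hW (mem_ev0.mp hu).1) hc.1
        have h4 : range N \ ev0 W = ev1 W ∪ (range N \ W) := by
          ext u
          have h5 := Finset.ext_iff.mp hun u
          rw [mem_union] at h5
          have h6 : u ∈ W → u ∈ range N := fun h => hW h
          have h7 : u ∈ ev0 W → u ∉ ev1 W := fun h => disjoint_left.mp hdj h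
          simp only [mem_sdiff, mem_union]
          tauto
        rw [h4, sum_union (disjoint_left.mpr fun u hu hu' => (mem_sdiff.mp hu').2
          (mem_ev1.mp hu).1)] at h3
        have h5 := h2 (∑ w ∈ range N \ W, xs (insert w (ev0 W)))
        linear_combination h3 - h5
      · simp only [if_neg hc, sum_const_zero]
  rw [sum_congr rfl hsplit]
  simp only [sum_add_distrib]
  -- reindexing
  have r0 : ∑ W ∈ (range N).powerset, ∑ w ∈ range N \ W,
      (if (ev0 W).card = k + 1 ∧ (ev1 W).card = k then xs (ev0 W) * xs (insert w (ev1 W)) else 0)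
      = ∑ p ∈ Prs k N, ∑ w ∈ p.2, (if ev0 ((p.1 ∪ p.2).erase w) = p.1.erase w then
          xs p.1 * xs p.2 else 0) := by
    simp only [← sum_filter]
    rw [sum_sigma', sum_sigma']
    refine sum_nbij' (fun x => ⟨(ev0 x.1, insert x.2 (ev1 x.1)), x.2⟩)
      (fun x => ⟨(x.1.1 ∪ x.1.2).erase x.2, x.2⟩) ?_ ?_ ?_ ?_ ?_
    · rintro ⟨W, w⟩ h
      simp only [mem_sigma, mem_powerset, mem_filter, mem_sdiff] at h ⊢
      obtain ⟨hW, ⟨hw, hwW⟩, h0, h1⟩ := h
      have hw0 : w ∉ ev0 W := fun h => hwW (mem_ev0.mp h).1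
      have hw1 : w ∉ ev1 W := fun h => hwW (mem_ev1.mp h).1
      refine ⟨mem_Prs.mpr ⟨⟨fun u hu => hW (mem_ev0.mp hu).1, ?_⟩, h0, ?_, ?_⟩,
        mem_insert_self _ _, ?_⟩
      · intro u hu
        rcases mem_insert.mp hu with rfl | hu
        · exact hw
        · exact hW (mem_ev1.mp hu).1
      · rw [card_insert_of_notMem hw1, h1]
      · exact disjoint_insert_right.mpr ⟨hw0, ev0_disj W⟩
      · rw [union_insert, ev0_union, erase_insert hwW, erase_eq_of_notMem hw0]
    · rintro ⟨⟨A, B⟩, w⟩ h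
      simp only [mem_sigma, mem_powerset, mem_filter, mem_sdiff] at h ⊢
      obtain ⟨hp, hw, h0⟩ := h
      obtain ⟨⟨hA, hB⟩, hcA, hcB, hd⟩ := mem_Prs.mp hp
      have hwA : w ∉ A := disjoint_right.mp hd hw
      rw [erase_eq_of_notMem hwA] at h0
      refine ⟨fun u hu => union_subset hA hB (mem_of_mem_erase hu),
        ⟨hB hw, notMem_erase _ _⟩, ?_, ?_⟩
      · rw [h0, hcA]
      · rw [union_erase_sdiff hd h0, card_erase_of_mem hw, hcB, Nat.add_sub_cancel]
    · rintro ⟨W, w⟩ h
      simp only [mem_sigma, mem_powerset, mem_filter, mem_sdiff] at h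
      obtain ⟨hW, ⟨hw, hwW⟩, h0, h1⟩ := h
      simp only
      rw [union_insert, ev0_union, erase_insert hwW]
    · rintro ⟨⟨A, B⟩, w⟩ h
      simp only [mem_sigma, mem_filter] at h
      obtain ⟨hp, hw, h0⟩ := h
      obtain ⟨⟨hA, hB⟩, hcA, hcB, hd⟩ := mem_Prs.mp hp
      have hwA : w ∉ A := disjoint_right.mp hd hw
      rw [erase_eq_of_notMem hwA] at h0
      simp only
      rw [h0, union_erase_sdiff hd h0, insert_erase hw]
    · rintro ⟨W, w⟩ _
      rfl
  have r1 : ∑ W ∈ (range N).powerset, ∑ w ∈ range N \ W,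
      (if (ev0 W).card = k ∧ (ev1 W).card = k + 1 then xs (insert w (ev0 W)) * xs (ev1 W) else 0)
      = ∑ p ∈ Prs k N, ∑ w ∈ p.1, (if ev0 ((p.1 ∪ p.2).erase w) = p.1.erase w then
          xs p.1 * xs p.2 else 0) := by
    simp only [← sum_filter]
    rw [sum_sigma', sum_sigma']
    refine sum_nbij' (fun x => ⟨(insert x.2 (ev0 x.1), ev1 x.1), x.2⟩)
      (fun x => ⟨(x.1.1 ∪ x.1.2).erase x.2, x.2⟩) ?_ ?_ ?_ ?_ ?_
    · rintro ⟨W, w⟩ h
      simp only [mem_sigma, mem_powerset, mem_filter, mem_sdiff] at h ⊢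
      obtain ⟨hW, ⟨hw, hwW⟩, h0, h1⟩ := h
      have hw0 : w ∉ ev0 W := fun h => hwW (mem_ev0.mp h).1
      have hw1 : w ∉ ev1 W := fun h => hwW (mem_ev1.mp h).1
      refine ⟨mem_Prs.mpr ⟨⟨?_, fun u hu => hW (mem_ev1.mp hu).1⟩, ?_, h1, ?_⟩,
        mem_insert_self _ _, ?_⟩
      · intro u hu
        rcases mem_insert.mp hu with rfl | hu
        · exact hw
        · exact hW (mem_ev0.mp hu).1
      · rw [card_insert_of_notMem hw0, h0]
      · exact disjoint_insert_left.mpr ⟨hw1, ev0_disj W⟩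
      · rw [insert_union, ev0_union, erase_insert hwW, erase_insert hw0]
    · rintro ⟨⟨A, B⟩, w⟩ h
      simp only [mem_sigma, mem_powerset, mem_filter, mem_sdiff] at h ⊢
      obtain ⟨hp, hw, h0⟩ := h
      obtain ⟨⟨hA, hB⟩, hcA, hcB, hd⟩ := mem_Prs.mp hp
      refine ⟨fun u hu => union_subset hA hB (mem_of_mem_erase hu),
        ⟨hA hw, notMem_erase _ _⟩, ?_, ?_⟩
      · rw [h0, card_erase_of_mem hw, hcA, Nat.add_sub_cancel]
      · rw [union_erase_sdiff' hd hw h0, hcB]
    · rintro ⟨W, w⟩ h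
      simp only [mem_sigma, mem_powerset, mem_filter, mem_sdiff] at h
      obtain ⟨hW, ⟨hw, hwW⟩, h0, h1⟩ := h
      simp only
      rw [insert_union, ev0_union, erase_insert hwW]
    · rintro ⟨⟨A, B⟩, w⟩ h
      simp only [mem_sigma, mem_filter] at h
      obtain ⟨hp, hw, h0⟩ := h
      obtain ⟨⟨hA, hB⟩, hcA, hcB, hd⟩ := mem_Prs.mp hp
      simp only
      rw [union_erase_sdiff' hd hw h0, h0, insert_erase hw]
    · rintro ⟨W, w⟩ _
      rfl
  rw [r0, r1, ← sum_add_distrib]
  have r2 : ∀ p ∈ Prs k N, (∑ w ∈ p.2, (if ev0 ((p.1 ∪ p.2).erase w) = p.1.erase w then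
          xs p.1 * xs p.2 else 0)) + ∑ w ∈ p.1, (if ev0 ((p.1 ∪ p.2).erase w) = p.1.erase w then
          xs p.1 * xs p.2 else 0)
      = (if p.1 = ev1 (p.1 ∪ p.2) then xs p.1 * xs p.2 else 0)
        + (if p.1 = ev0 (p.1 ∪ p.2) then xs p.1 * xs p.2 else 0) := by
    rintro ⟨A, B⟩ hp
    obtain ⟨⟨hA, hB⟩, hcA, hcB, hd⟩ := mem_Prs.mp hp
    have hc := count (R := R) h2 (A := A) (X := A ∪ B) subset_union_left (union_subset hA hB)
    simp only
    rw [add_comm, ← sum_union hd]
    have h3 : ∀ w ∈ A ∪ B, (if ev0 ((A ∪ B).erase w) = A.erase w then xs A * xs B else 0)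
        = xs A * xs B * (if ev0 ((A ∪ B).erase w) = A.erase w then (1 : R) else 0) := by
      intro w _
      split_ifs <;> simp
    rw [sum_congr rfl h3, ← mul_sum, hc, mul_add]
    congr 1 <;> split_ifs <;> simp
  rw [sum_congr rfl r2, sum_add_distrib]
  have r3 : ∑ p ∈ Prs k N, (if p.1 = ev1 (p.1 ∪ p.2) then xs p.1 * xs p.2 else 0)
      = ∑ p ∈ Prs k N, (if p.1 = ev0 (p.1 ∪ p.2) then xs p.1 * xs p.2 else 0) := by
    refine sum_nbij' Prod.swap Prod.swap ?_ ?_ (fun _ _ => rfl) (fun _ _ => rfl) ?_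
    · rintro ⟨A, B⟩ hp
      obtain ⟨⟨hA, hB⟩, hcA, hcB, hd⟩ := mem_Prs.mp hp
      exact mem_Prs.mpr ⟨⟨hB, hA⟩, hcB, hcA, hd.symm⟩
    · rintro ⟨A, B⟩ hp
      obtain ⟨⟨hA, hB⟩, hcA, hcB, hd⟩ := mem_Prs.mp hp
      exact mem_Prs.mpr ⟨⟨hB, hA⟩, hcB, hcA, hd.symm⟩
    · rintro ⟨A, B⟩ hp
      obtain ⟨⟨hA, hB⟩, hcA, hcB, hd⟩ := mem_Prs.mp hp
      have h3 : A = ev1 (A ∪ B) ↔ B = ev0 (B ∪ A) := by
        rw [union_comm B A]
        have hun := ev0_union (A ∪ B)
        have hdj := ev0_disj (A ∪ B)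
        constructor
        · intro h
          rw [← h] at hun hdj
          ext u
          have h4 := Finset.ext_iff.mp hun u
          rw [mem_union, mem_union] at h4
          have h5 : u ∈ ev0 (A ∪ B) → u ∉ A := fun h => disjoint_left.mp hdj h
          have h6 : u ∈ A → u ∉ B := fun h => disjoint_left.mp hd h
          tauto
        · intro h
          rw [← h] at hun hdj
          ext u
          have h4 := Finset.ext_iff.mp hun u
          rw [mem_union, mem_union] at h4
          have h5 : u ∈ B → u ∉ ev1 (A ∪ B) := fun h => disjoint_left.mp hdj h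
          have h6 : u ∈ A → u ∉ B := fun h => disjoint_left.mp hd h
          tauto
      simp only [Prod.swap_prod_mk]
      by_cases h4 : A = ev1 (A ∪ B)
      · rw [if_pos h4, if_pos (h3.mp h4), mul_comm]
      · rw [if_neg h4, if_neg (fun h => h4 (h3.mpr h))]
  rw [r3, h2]

end ring

end Pool.Agent.Q171.ND3.St
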