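import Pool.Agent.Q171.ND3.H
import Pool.Agent.Q171.ND3.Cmb

/-!
Faces of the cobar complex by monotone maps.
-/

set_option autoImplicit false
set_option linter.unusedSectionVars false

namespace Pool.Agent.Q171.ND3.St

open Finset MvPolynomial Pool.Agent.W624.Stz

/-! ### Products of consecutive points -/

section prd

variable {M : Type*} [Monoid M]

/-- the product of the `k` points starting with the `i`-th -/
def pr (γ : ℕ → M) : ℕ → ℕ → M
  | _, 0 => 1
  | i, k + 1 => γ i * pr γ (i + 1) k

theorem pr_one (γ : ℕ → M) (i : ℕ) : pr γ i 1 = γ i := by simp [pr]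

theorem pr_two (γ : ℕ → M) (i : ℕ) : pr γ i 2 = γ i * γ (i + 1) := by simp [pr]

theorem pr_add (γ : ℕ → M) (k l : ℕ) : ∀ i, pr γ i (k + l) = pr γ i k * pr γ (i + k) l := by
  induction k with
  | zero => intro i; simp [pr]
  | succ k ih =>
    intro i
    rw [show k + 1 + l = (k + l) + 1 by omega, pr, ih (i + 1), pr, mul_assoc,
      show i + 1 + k = i + (k + 1) by omega]

theorem pr_tel {ψ : ℕ → ℕ} (hψ : Monotone ψ) (γ : ℕ → M) (k : ℕ) : ∀ i,
    pr (fun b => pr γ (ψ b) (ψ (b + 1) - ψ b)) i k = pr γ (ψ i) (ψ (i + k) - ψ i) := by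
  induction k with
  | zero => intro i; simp [pr]
  | succ k ih =>
    intro i
    have h1 := hψ (show i ≤ i + 1 by omega)
    have h2 := hψ (show i + 1 ≤ i + (k + 1) by omega)
    rw [pr, ih (i + 1), show i + 1 + k = i + (k + 1) by omega,
      show ψ (i + (k + 1)) - ψ i = (ψ (i + 1) - ψ i) + (ψ (i + (k + 1)) - ψ (i + 1)) by omega,
      pr_add, show ψ i + (ψ (i + 1) - ψ i) = ψ (i + 1) by omega]

end prd

/-! ### Faces by monotone maps -/

/-- the point which defines the face -/
noncomputable def zz (φ : ℕ → ℕ) : Pt Empty (RR Empty) :=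
  (fun a => pr (uni Empty).1 (φ a) (φ (a + 1) - φ a), (uni Empty).2)

/-- the face of a monotone map -/
noncomputable def FF (φ : ℕ → ℕ) : RR Empty →ₐ[ZMod 2] RR Empty := ev (zz φ)

theorem mT_pr {A B : Type*} [CommRing A] [Algebra (ZMod 2) A] [CommRing B] [Algebra (ZMod 2) B]
    (θ : A →ₐ[ZMod 2] B) (γ : ℕ → Tg A) (k : ℕ) : ∀ i,
    mT θ (pr γ i k) = pr (fun a => mT θ (γ a)) i k := by
  induction k with
  | zero => intro i; exact mT_one θ
  | succ k ih => intro i; rw [pr, mT_mul, ih (i + 1), pr]

theorem FF_FF {φ ψ : ℕ → ℕ} (hφ : Monotone φ) (hψ : Monotone ψ) (f : RR Empty) :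
    FF ψ (FF φ f) = FF (ψ ∘ φ) f := by
  rw [FF, FF, FF, ev_map]
  congr 2
  refine Prod.ext ?_ (funext fun c => c.elim)
  funext a
  change mT (ev (zz ψ)) (pr (uni Empty).1 (φ a) (φ (a + 1) - φ a))
    = pr (uni Empty).1 (ψ (φ a)) (ψ (φ (a + 1)) - ψ (φ a))
  rw [mT_pr]
  have h : (fun b => mT (ev (zz ψ)) ((uni Empty).1 b)) = (zz ψ).1 := by
    have := mP_uni (zz ψ)
    exact congrArg Prod.fst this
  rw [h]
  have h1 := hφ (show a ≤ a + 1 by omega)
  have h2 := pr_tel hψ (uni Empty).1 (φ (a + 1) - φ a) (φ a)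
  rw [show φ a + (φ (a + 1) - φ a) = φ (a + 1) by omega] at h2
  exact h2

theorem FF_id (f : RR Empty) : FF id f = f := by
  have : FF id = AlgHom.id (ZMod 2) (RR Empty) := by
    rw [FF]
    have h : zz id = uni Empty := by
      refine Prod.ext ?_ rfl
      funext a
      simp only [zz, id, Nat.add_sub_cancel_left, pr_one]
    rw [h]
    apply algHom_ext
    intro v
    rw [ev_X, co_uni, AlgHom.id_apply]
  rw [this, AlgHom.id_apply]

/-! ### The two polynomial rings -/

/-- into the ring of the library -/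
noncomputable def jo : P →ₐ[ZMod 2] RR Empty := aeval (fun p => X (.x p.1 p.2))

/-- out of the ring of the library -/
noncomputable def po : RR Empty →ₐ[ZMod 2] P :=
  aeval (fun v => match v with
    | .x a n => X (a, n)
    | .s _ _ => 0
    | .y _ _ => 0)

theorem jo_X (a n : ℕ) : jo (X (a, n)) = X (.x a n) := aeval_X _ _
theorem po_x (a n : ℕ) : po (X (.x a n)) = X (a, n) := aeval_X _ _

theorem po_jo (f : P) : po (jo f) = f := by
  have : po.comp jo = AlgHom.id (ZMod 2) P := by
    apply algHom_ext
    rintro ⟨a, n⟩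
    rw [AlgHom.comp_apply, jo_X, po_x]
    rfl
  exact DFunLike.congr_fun this f

theorem jo_inj {f g : P} (h : jo f = jo g) : f = g := by
  have := congrArg po h
  rwa [po_jo, po_jo] at this

theorem jo_po {q : ℕ} {t : ℤ} {f : RR Empty} (hf : CC q t 0 f) : jo (po f) = f := by
  have := hom_congr hf (jo.comp po) (AlgHom.id _ _) (by
    intro a n _
    rw [AlgHom.comp_apply, po_x, jo_X]
    rfl) (fun c => c.elim)
  exact this

/-- the map which omits the vertex `j` -/
def om (j a : ℕ) : ℕ := if a < j then a else a + 1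

theorem om_mono (j : ℕ) : StrictMono (om j) := by
  intro a b h
  simp only [om]
  split_ifs <;> omega

theorem jo_ξ (a n : ℕ) : jo (ξ a n) = ((uni Empty).1 a).g n := by
  cases n with
  | zero => exact map_one jo
  | succ n => exact jo_X a n

theorem jo_face (j : ℕ) (f : P) : jo (face j f) = FF (om j) (jo f) := by
  have : jo.comp (face j) = (FF (om j)).comp jo := by
    apply algHom_ext
    rintro ⟨a, n⟩
    rw [AlgHom.comp_apply, AlgHom.comp_apply, face, aeval_X, jo_X, FF, ev_X]
    simp only [co, zz, om]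
    by_cases h1 : a + 1 < j
    · rw [if_pos h1, if_pos (show a < j by omega), if_pos h1, Nat.add_sub_cancel_left, pr_one,
        jo_ξ]
    · rw [if_neg h1, if_neg h1]
      by_cases h2 : j ≤ a
      · rw [if_pos h2, if_neg (show ¬ a < j by omega), Nat.add_sub_cancel_left, pr_one, jo_ξ]
      · rw [if_neg h2, if_pos (show a < j by omega), show a + 1 + 1 - a = 2 by omega, pr_two,
          mul_g, op_range, map_sum]
        refine sum_congr rfl fun i _ => ?_
        rw [map_mul, map_pow, jo_ξ, jo_ξ]
  exact DFunLike.congr_fun this f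

/-! ### Sets of faces -/

theorem inf_compl (A : Finset ℕ) : (Set.ofPred (· ∉ A)).Infinite := by
  have h : (↑A : Set ℕ)ᶜ.Infinite := A.finite_toSet.infinite_compl
  exact h

/-- the enumeration of the complement -/
noncomputable def en (A : Finset ℕ) : ℕ → ℕ := Nat.nth (· ∉ A)

theorem en_mono (A : Finset ℕ) : StrictMono (en A) := Nat.nth_strictMono (inf_compl A)

theorem en_range (A : Finset ℕ) : Set.range (en A) = {a | a ∉ A} :=
  Nat.range_nth_of_infinite (inf_compl A)

theorem en_eq {A : Finset ℕ} {φ : ℕ → ℕ} (hφ : StrictMono φ) (h : ∀ b, b ∉ A ↔ ∃ a, φ a = b) :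
    φ = en A := by
  refine (StrictMono.range_inj hφ (en_mono A)).mp ?_
  rw [en_range]
  ext b
  exact (h b).symm

/-- the shift of a set which makes room for `w` -/
def sh (w : ℕ) (A : Finset ℕ) : Finset ℕ := A.image (om w)

theorem om_ne (w a : ℕ) : om w a ≠ w := by
  simp only [om]; split_ifs <;> omega

theorem om_surj {w b : ℕ} (h : b ≠ w) : ∃ a, om w a = b := by
  rcases Nat.lt_or_gt_of_ne h with h1 | h1
  · exact ⟨b, by simp only [om]; rw [if_pos h1]⟩
  · exact ⟨b - 1, by simp only [om]; rw [if_neg (by omega)]; omega⟩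

theorem notMem_sh (w : ℕ) (A : Finset ℕ) : w ∉ sh w A := by
  intro h
  obtain ⟨a, _, ha⟩ := mem_image.mp h
  exact om_ne w a ha

theorem om_mem_sh {w : ℕ} {A : Finset ℕ} {a : ℕ} : om w a ∈ sh w A ↔ a ∈ A := by
  constructor
  · intro h
    obtain ⟨b, hb, he⟩ := mem_image.mp h
    rwa [← (om_mono w).injective he]
  · intro h; exact mem_image_of_mem _ h

theorem om_en (w : ℕ) (A : Finset ℕ) : om w ∘ en A = en (insert w (sh w A)) := by
  refine en_eq ((om_mono w).comp (en_mono A)) fun b => ?_
  constructor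
  · intro hb
    rw [mem_insert, not_or] at hb
    obtain ⟨a, rfl⟩ := om_surj hb.1
    rw [om_mem_sh] at hb
    have : a ∈ Set.range (en A) := by rw [en_range]; exact hb.2
    obtain ⟨c, rfl⟩ := this
    exact ⟨c, rfl⟩
  · rintro ⟨a, rfl⟩
    rw [mem_insert, not_or, Function.comp, om_mem_sh]
    refine ⟨om_ne _ _, ?_⟩
    have : en A a ∈ Set.range (en A) := ⟨a, rfl⟩
    rw [en_range] at this
    exact this

theorem faces_insert {m : ℕ} {A : Finset ℕ} (h : ∀ a ∈ A, a < m) (x : P) :
    faces (insert m A) x = face m (faces A x) := by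
  rw [faces, faces, sort_insert (· ≥ ·) (fun b hb => (h b hb).le)
    (fun hm => lt_irrefl _ (h m hm)), List.foldr_cons]

theorem jo_faces (A : Finset ℕ) (x : P) : jo (faces A x) = FF (en A) (jo x) := by
  induction A using Finset.induction_on_max with
  | empty =>
    have h1 : faces ∅ x = x := by simp [faces]
    have h2 : id = en ∅ := en_eq strictMono_id fun b => by simp
    rw [h1, ← h2, FF_id]
  | insert m A hm ih =>
    rw [faces_insert hm, jo_face, ih, FF_FF (en_mono A).monotone (om_mono m).monotone, om_en]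
    have h3 : sh m A = A := by
      ext a
      rw [sh, mem_image]
      constructor
      · rintro ⟨b, hb, rfl⟩
        simp only [om]
        rw [if_pos (hm b hb)]
        exact hb
      · intro ha
        refine ⟨a, ha, ?_⟩
        simp only [om]
        rw [if_pos (hm a ha)]
    rw [h3]

/-- the first identity of the faces -/
theorem face_faces (w : ℕ) (A : Finset ℕ) (x : P) :
    face w (faces A x) = faces (insert w (sh w A)) x := by
  apply jo_inj
  rw [jo_face, jo_faces, jo_faces, FF_FF (en_mono A).monotone (om_mono w).monotone, om_en]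

theorem count_notMem {B : Finset ℕ} {N : ℕ} (hB : B ⊆ range N) :
    Nat.count (· ∉ B) N = N - B.card := by
  rw [Nat.count_eq_card_filter_range]
  have : (range N).filter (· ∉ B) = range N \ B := by
    ext a; simp
  rw [this, card_sdiff_of_subset hB, card_range]

/-- the second identity of the faces -/
theorem sum_faces {s k : ℕ} {x : P} (hdx : d s x = 0) {B : Finset ℕ}
    (hB : B ⊆ range (s + k + 2)) (hk : B.card = k) :
    ∑ w ∈ range (s + k + 2) \ B, faces (insert w B) x = 0 := by
  have hc : Nat.count (· ∉ B) (s + k + 2) = s + 2 := by rw [count_notMem hB, hk]; omega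
  apply jo_inj
  rw [map_sum, map_zero]
  have h1 : ∑ w ∈ range (s + k + 2) \ B, jo (faces (insert w B) x)
      = ∑ i ∈ range (s + 2), FF (en B) (FF (om i) (jo x)) := by
    symm
    refine sum_bij (fun i _ => en B i) ?_ ?_ ?_ ?_
    · intro i hi
      rw [mem_range] at hi
      rw [mem_sdiff, mem_range]
      refine ⟨Nat.nth_lt_of_lt_count (by rw [hc]; exact hi), ?_⟩
      exact Nat.nth_mem_of_infinite (inf_compl B) i
    · intro i _ j _ h
      exact (en_mono B).injective h
    · intro w hw
      rw [mem_sdiff, mem_range] at hw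
      refine ⟨Nat.count (· ∉ B) w, ?_, ?_⟩
      · rw [mem_range, ← hc]
        exact Nat.count_strict_mono hw.2 hw.1
      · exact Nat.nth_count hw.2
    · intro i _
      rw [jo_faces, FF_FF (om_mono i).monotone (en_mono B).monotone]
      congr 2
      refine en_eq ((en_mono B).comp (om_mono i)) fun b => ?_
      rw [mem_insert, not_or]
      constructor
      · rintro ⟨h1, h2⟩
        have : b ∈ Set.range (en B) := by rw [en_range]; exact h2
        obtain ⟨a, rfl⟩ := this
        obtain ⟨c, rfl⟩ := om_surj (w := i) (b := a) (fun e => h1 (by rw [e]))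
        exact ⟨c, rfl⟩
      · rintro ⟨a, rfl⟩
        refine ⟨fun e => om_ne i a ((en_mono B).injective e), ?_⟩
        exact Nat.nth_mem_of_infinite (inf_compl B) _
  rw [h1, ← map_sum]
  have h2 : ∑ i ∈ range (s + 2), FF (om i) (jo x) = 0 := by
    have h3 := congrArg jo hdx
    rw [d, LinearMap.sum_apply, map_sum, map_zero] at h3
    rw [← h3]
    exact sum_congr rfl fun i _ => (jo_face i x).symm
  rw [h2, map_zero]

end Pool.Agent.Q171.ND3.St
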