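import Pool.Agent.Q171.ND3.B

/-!
Twisted coefficient complexes in borderline degrees, and the complex with an affine coordinate.
-/

set_option autoImplicit false
set_option linter.unusedSectionVars false

namespace Pool.Agent.Q171.ND3

open Finset MvPolynomial Pool.Agent.W624.Stz

section tw

variable {K : Type} [Fintype K]

theorem twSurj {p n : ℕ} {N : ℤ} (hA : HA p n N) (hL : HL p n 0 (2 * n) N) {ν : K → ℕ}
    (hν : ∑ c, ν c = n) {f : RR K} (hf : TT ktw p (2 * N + 2 * n) ν 0 f) (hdf : dd ktw p f = 0) :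
    ∃ f0 : RR Empty, TT kun p N 0 0 f0 ∧ dd kun p f0 = 0 ∧
      ∃ h, TT ktw (p - 1) (2 * N + 2 * n) ν 0 h ∧
        f = YY ν * JJ K (PHI Empty f0) + dm ktw p h := by
  obtain ⟨g, h, hg, hDg, hdg, hh, hfe⟩ := lift p n 0 (2 * n) N hL hν hf (by rw [hdf, map_zero])
  rcases PHI_root hg hDg with h0 | ⟨t', ht', z, hz, hzg⟩
  · refine ⟨0, TT.zero, map_zero _, h, hh, ?_⟩
    rw [hfe, h0, map_zero, map_zero, mul_zero]
  · have ht2 : t' = N + n := by linarith
    rw [ht2] at hz
    have hdz : dd kun p z = 0 := by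
      apply PHI_inj
      rw [PHI_dd, hzg, hdg, hdf]
    obtain ⟨f0, hf0, hdf0, h2, hh2, he⟩ := unSurj hA n le_rfl ν hν z hz hdz
    refine ⟨f0, hf0, hdf0, PHI K h2 + h, TT.add ⟨by rw [← PHI_cut, hh2.cu], ?_⟩ hh, ?_⟩
    · have h5 := IW_PHI hh2.iw
      have h6 : dbl (K → ℕ) (N + n, (ν, 0)) = (2 * N + 2 * n, (ν, 0)) := by
        refine Prod.ext ?_ rfl
        simp only [dbl, AddMonoidHom.coe_mk, ZeroHom.coe_mk]
        ring
      rwa [h6] at h5
    · rw [hfe, ← hzg, he, map_add, map_add, map_mul, PHI_YY, ← JJ_PHI, PHI_dm, add_assoc]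

theorem twInj {p n : ℕ} {N : ℤ} (hA : HA p n N) (hL : HL p n 0 (2 * n) N) {ν : K → ℕ}
    (hν : ∑ c, ν c = n) {y : RR K} (hy : TT ktw p (2 * N + 2 * n) ν 0 y) {f0 : RR Empty}
    (hdy : dd ktw p y = YY ν * JJ K (PHI Empty f0)) :
    ∃ h0, TT kun p N 0 0 h0 ∧ dd kun p h0 = f0 := by
  have hPZ : YY ν * JJ K (PHI Empty f0) = PHI K (YY ν * JJ K f0) := by
    rw [map_mul, PHI_YY, JJ_PHI]
  obtain ⟨g, h, hg, hDg, hdg, hh, hfe⟩ := lift p n 0 (2 * n) N hL hν hy (by
    rw [hdy, hPZ, DX_PHI])
  rcases PHI_root hg hDg with h0 | ⟨t', ht', z, hz, hzg⟩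
  · rw [h0, map_zero, hdy] at hdg
    have h1 : JJ K (PHI Empty f0) = 0 := (mul_eq_zero.mp hdg.symm).resolve_left (YY_ne ν)
    have h2 : PHI Empty f0 = 0 := JJ_inj (K := K) (by rw [h1, map_zero])
    exact ⟨0, TT.zero, by rw [map_zero, PHI_inj h2]⟩
  · have ht2 : t' = N + n := by linarith
    rw [ht2] at hz
    refine unInj hA n le_rfl ν hν z hz f0 ?_
    have h1 : PHI _ (dd kun p z + YY ν * JJ K f0) = 0 := by
      rw [map_add, PHI_dd, hzg, hdg, hdy, hPZ, p2_add_self]
    exact p2_eq_of_add (PHI_inj h1)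

end tw

section E

variable {K : Type}

/-- members of the complex with an affine coordinate -/
structure EE (K : Type) (q : ℕ) (t : ℤ) (ν : K → ℕ) (j : ℕ) (F : RR (Option K)) : Prop where
  cu : cut _ q F = F
  iw : IW (wE K) F (t, (ν, j))

variable {q : ℕ} {t : ℤ} {ν : K → ℕ} {j : ℕ} {F G : RR (Option K)}

theorem EE.add (hF : EE K q t ν j F) (hG : EE K q t ν j G) : EE K q t ν j (F + G) :=
  ⟨by rw [map_add, hF.cu, hG.cu], hF.iw.add hG.iw⟩

theorem kE_some : ∀ c : K, (kE : Option K → Kd) (some c) = ktw c := fun _ => rfl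

theorem hafE : ∀ c : Option K, kE c = .af → oE K c = (0, 1) := by
  intro c hc
  cases c with
  | none => rfl
  | some c => exact absurd hc (by simp [kE])

theorem EE.dm (hF : EE K (q - 1) t ν j F) : EE K q t ν j (dm kE q F) :=
  ⟨cut_dm _ hF.cu, IW_dm hafE hF.iw⟩

theorem EE_IN {f : RR K} (hf : TT ktw q t ν j f) : EE K q t ν j (IN K f) :=
  ⟨by rw [← IN_cut, hf.cu], IW_IN hf.iw⟩

/-- the complex with an affine coordinate is exact in positive degree -/
theorem E_exact (hF : EE K q t ν j F) (hj : 1 ≤ j) (hd : dd kE q F = 0) :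
    ∃ H, EE K (q - 1) t ν j H ∧ dm kE q H = F := by
  refine ⟨hm K q F, ⟨cut_hm hF.cu, IW_hm rfl hF.iw⟩, ?_⟩
  have h1 := prism_poly q F hF.cu
  rw [hd, map_zero, zero_add] at h1
  have h2 : LL K F = 0 := by
    have h3 : IW (fun v => (wE K v).2.2) F j :=
      hF.iw.coarse ((AddMonoidHom.snd (K → ℕ) ℕ).comp (AddMonoidHom.snd ℤ _))
    have h4 : IW (fun v => (wE K v).2.2) (LL K F) 0 := by
      refine IW.aeval' (0 : ℕ →+ ℕ) (LL K) (w := fun v => (wE K v).2.2)
        (w' := fun v => (wE K v).2.2) ?_ h3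
      intro v
      rw [LL, ev_X, AddMonoidHom.zero_apply]
      cases v with
      | x a n => exact isWeightedHomogeneous_X _ (fun v => (wE K v).2.2) (Vr.x a n)
      | s a n => exact IW.zero' _ _
      | y o n =>
        cases o with
        | none => exact IW.zero' _ _
        | some c =>
          exact isWeightedHomogeneous_X _ (fun v => (wE K v).2.2) (Vr.y (some c) n)
    have h5 : IW (fun v => (wE K v).2.2) (LL K F) j := by
      refine IW.aeval' (AddMonoidHom.id ℕ) (LL K) (w := fun v => (wE K v).2.2)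
        (w' := fun v => (wE K v).2.2) ?_ h3
      intro v
      rw [LL, ev_X, AddMonoidHom.id_apply]
      cases v with
      | x a n => exact isWeightedHomogeneous_X _ (fun v => (wE K v).2.2) (Vr.x a n)
      | s a n => exact IW.zero' _ _
      | y o n =>
        cases o with
        | none => exact IW.zero' _ _
        | some c =>
          exact isWeightedHomogeneous_X _ (fun v => (wE K v).2.2) (Vr.y (some c) n)
    exact IW.uniq h4 h5 (by omega)
  rw [h2, zero_add] at h1
  exact h1

/-- the weights of the monomials of a member of the complex -/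
theorem EE.mon (hF : EE K q t ν j F) {e : Vr (Option K) →₀ ℕ} (he : coeff e F ≠ 0) :
    Finsupp.weight (wn K) e ≤ j ∧ Finsupp.weight (wF (ktw : Option K → Kd)) e
      = (t, (nx ν (Finsupp.weight (wn K) e), j - Finsupp.weight (wn K) e)) := by
  have a1 := hF.iw he
  rw [wE_eq, wmap] at a1
  have a2 : pn K (Finsupp.weight (wF (ktw : Option K → Kd)) e) = Finsupp.weight (wn K) e := by
    rw [wn_eq', wmap]
  have b1 := congrArg Prod.fst a1
  have b2 := congrArg (fun m => m.2.1) a1
  have b3 := congrArg (fun m => m.2.2) a1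
  simp only [pE, AddMonoidHom.coe_mk, ZeroHom.coe_mk] at b1 b2 b3
  simp only [pn, AddMonoidHom.coe_mk, ZeroHom.coe_mk] at a2
  refine ⟨by omega, Prod.ext b1 (Prod.ext ?_ ?_)⟩
  · funext o
    cases o with
    | none => exact a2
    | some c => exact congrFun b2 c
  · simp only
    omega

theorem EE.lt (hF : EE K q t ν j F) : Lt (wn K) (j + 1) F := fun _ he =>
  Nat.lt_succ_of_le (hF.mon he).1

theorem cut_cm {i : ℕ} (hF : cut _ q F = F) : cut _ q (cm (wn K) i F) = cm (wn K) i F := by
  have h6 := cm_comm (w := wn K) (w' := wn K) (fun m => m) (fun a b h => h)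
    (cut (Option K) q).toLinearMap (fun f m hf => by
      rw [wn_eq] at hf ⊢
      exact IW_cut_c (κ := (ktw : Option K → Kd)) _ hf) F i
  simp only [AlgHom.toLinearMap_apply] at h6
  rw [← h6, hF]

/-- the components of a member of the complex -/
theorem EE.comp (hF : EE K q t ν j F) (i : ℕ) :
    TT ktw q t (nx ν i) (j - i) (cm (wn K) i F) := by
  refine ⟨cut_cm hF.cu, fun e he => ?_⟩
  rw [coeff_weightedHomogeneousComponent] at he
  split_ifs at he with h
  · have := (hF.mon he).2
    rwa [h] at this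
  · exact absurd rfl he

theorem cm_top_zero {i : ℕ} {r : RR (Option K)} (hr : Lt (wn K) i r) : cm (wn K) i r = 0 := by
  ext e
  rw [coeff_weightedHomogeneousComponent, coeff_zero]
  split_ifs with he
  · by_contra hne
    have := hr e hne
    omega
  · rfl

theorem top_dd {i : ℕ} (hF : Lt (wn K) (i + 1) F) :
    cm (wn K) i (dd kE q F) = dd ktw q (cm (wn K) i F) := by
  rw [dd_split, map_add, cm_top_zero (lf_lt hF), add_zero]
  exact cm_comm (w := wn K) (w' := wn K) (fun m => m) (fun a b h => h)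
    (dd ktw q) (fun f m hf => IW_dd_wn hf) F i

theorem top_dm {i : ℕ} (hF : Lt (wn K) (i + 1) F) :
    cm (wn K) i (dm kE q F) = dm ktw q (cm (wn K) i F) := by
  cases q with
  | zero => simp only [dm, LinearMap.zero_apply, map_zero]
  | succ q => exact top_dd hF

theorem EE_of_TT {i : ℕ} (hi : i ≤ j) (hF : TT ktw q t (nx ν i) (j - i) F) :
    EE K q t ν j F := by
  refine ⟨hF.cu, ?_⟩
  have := hF.iw.coarse (pE K)
  rw [← wE_eq] at this
  have h9 : pE K (t, (nx ν i, j - i)) = (t, (ν, j)) := by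
    refine Prod.ext rfl (Prod.ext rfl ?_)
    simp only [pE, AddMonoidHom.coe_mk, ZeroHom.coe_mk, nx]
    omega
  rwa [h9] at this

/-- removal of the top component -/
theorem strip {i : ℕ} (hi : i ≤ j) (hF : EE K q t ν j F) (hl : Lt (wn K) (i + 1) F)
    {P e : RR (Option K)} (hP : EE K q t ν j P) (he : TT ktw (q - 1) t (nx ν i) (j - i) e)
    (ht : cm (wn K) i F = P + dm ktw q e) :
    ∃ H, EE K q t ν j H ∧ Lt (wn K) i H ∧ dd kE q H = dd kE q F + dd kE q P := by
  have hen : IW (wn K) e i := by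
    have := he.iw.coarse (pn K)
    rw [← wn_eq'] at this
    exact this
  refine ⟨F + dm kE q e + P, (hF.add (EE_of_TT hi he).dm).add hP, ?_, ?_⟩
  · have h1 : ∃ r, dm kE q e = dm ktw q e + r ∧ Lt (wn K) i r := dm_split_lt (Lt.of_IW hen)
    obtain ⟨r, hr1, hr2⟩ := h1
    have h2 : F + dm kE q e + P = (F + cm (wn K) i F) + r := by
      rw [hr1, ht]; ring
    rw [h2]
    refine Lt.add (fun e' he' => ?_) hr2
    rw [coeff_add, coeff_weightedHomogeneousComponent] at he'
    by_cases hc : coeff e' F = 0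
    · rw [hc] at he'
      simp at he'
    · have h7 := hl e' hc
      by_cases h8 : Finsupp.weight (wn K) e' = i
      · rw [if_pos h8] at he'
        exfalso
        apply he'
        have h9 := congrArg (coeff e') (p2_add_self F)
        rwa [coeff_add, coeff_zero] at h9
      · omega
  · rw [map_add, map_add, dd_dm _ he.cu, add_zero]

/-- members without the affine coordinate -/
theorem EE.bot (hF : EE K q t ν j F) (hl : Lt (wn K) 1 F) :
    ∃ f, TT ktw q t ν j f ∧ F = IN K f := by
  have hn : IW (wn K) F 0 := by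
    intro e he
    have := hl e he
    omega
  exact ⟨RE K F, ⟨by rw [← RE_cut, hF.cu], IW_RE hF.iw⟩, (IN_RE hn).symm⟩

theorem IN_inj {f g : RR K} (h : IN K f = IN K g) : f = g := by
  have := congrArg (RE K) h
  rwa [RE_IN, RE_IN] at this

theorem EE.mulS {t' : ℤ} {j' : ℕ} (hF : EE K q t ν j F) (ht : t + 2 = t') (hj : j + 1 = j') :
    EE K q t' ν j' (X (.y none 0) * F) := by
  refine ⟨?_, ?_⟩
  · rw [map_mul, hF.cu]
    congr 1
    exact ev_X _ _
  · have := (isWeightedHomogeneous_X (ZMod 2) (wE K) (Vr.y none 0)).mul hF.iw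
    have h2 : wE K (Vr.y none 0) + (t, (ν, j)) = (t', (ν, j')) := by
      subst ht hj
      refine Prod.ext ?_ (Prod.ext ?_ ?_)
      · simp only [wE, wG, kE, tk, Prod.fst_add]
        ring
      · simp [wE, wG, oE]
      · simp [wE, wG, oE]
        ring
    rwa [h2] at this

/-- the differential of a power of the affine coordinate -/
theorem dd_pow (m : ℕ) {w : RR K} (hw : ev (fc (act ktw) q (q + 1) (uni K)) w = w) :
    dd kE q (X (.y none 0) ^ m * IN K w) = X (.y none 0) ^ m * IN K (dd ktw q w)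
      + ((X (.y none 0) + X (.s q 0)) ^ m + X (.y none 0) ^ m) * IN K w := by
  have hW : ev (fc (act kE) q (q + 1) (uni (Option K))) (IN K w) = IN K w := by
    have h1 := hom_ev (IN K) id (fun y c => y (some c)) IN_co
      (fc (act kE) q (q + 1) (uni (Option K))) w
    rw [h1]
    have h2 := congrArg (IN K) hw
    rw [ev_map] at h2
    rw [← h2]
    congr 2
    rw [fc_last _ (by omega), fc_last _ (by omega)]
    refine Prod.ext ?_ ?_
    · funext a
      exact (mT_IN a).symm
    · funext c n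
      simp only [mp, mP, mY, act, act1, kE, ktw, id]
      rw [map_op, map_fr]
      congr 1
      · congr 1
        exact (congrArg Tg.g (mT_IN q)).symm
      · funext k
        exact (IN_y c k).symm
  have hy : ev (fc (act kE) q (q + 1) (uni (Option K))) (X (.y none 0))
      = X (.y none 0) + X (.s q 0) := by
    rw [ev_X, fc_last _ (by omega)]
    simp only [co, act, act1, kE, Pi.add_apply]
    rw [op_zero_coord]
    congr 1
    rw [fr, ((uni (Option K)).1 q).h, one_pow, one_mul]
    rfl
  have hyj : ∀ j, j ≤ q → ev (fc (act kE) q j (uni (Option K))) (X (.y none 0))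
      = X (.y none 0) := by
    intro j hj
    rw [ev_X]
    cases j with
    | zero => rw [fc_zero]; rfl
    | succ j => rw [fc_mid _ (by omega)]; rfl
  have hIN := IN_dd (K := K) kE_some q w
  rw [hIN, dd_apply, dd_apply, sum_range_succ, sum_range_succ (n := q + 1)]
  have h3 : ∑ x ∈ range (q + 1), ev (fc (act kE) q x (uni (Option K)))
      (X (.y none 0) ^ m * IN K w) = X (.y none 0) ^ m *
        ∑ x ∈ range (q + 1), ev (fc (act kE) q x (uni (Option K))) (IN K w) := by
    rw [mul_sum]
    refine sum_congr rfl fun j hj => ?_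
    rw [mem_range] at hj
    rw [map_mul, map_pow, hyj j (by omega)]
  rw [h3, map_mul, map_pow, hW, hy]
  have h4 := p2_add_self (X (.y none 0) ^ m * IN K w)
  linear_combination (-1 : RR (Option K)) * h4

end E

end Pool.Agent.Q171.ND3
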