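import Pool.Agent.Q171.ND3.C
import Pool.Agent.W624.NDbasic

/-!
The complexes of positive tangent degree in borderline degrees.
-/

set_option autoImplicit false
set_option linter.unusedSectionVars false

namespace Pool.Agent.Q171.ND3

open Finset MvPolynomial Pool.Agent.W624.Stz

section faces

variable {K : Type}

theorem lf_JJ (κ : K → Kd) (q : ℕ) (g : RR Empty) :
    ev (fc (act κ) q (q + 1) (uni K)) (JJ K g) = JJ K g := by
  have : (ev (fc (act κ) q (q + 1) (uni K))).comp (JJ K) = JJ K := by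
    apply algHom_ext
    intro v
    rw [AlgHom.comp_apply, fc_last _ (by omega)]
    cases v with
    | x a n => rw [JJ_x, ev_X]; rfl
    | s a n => rw [JJ_s, ev_X]; rfl
    | y c n => exact c.elim
  exact DFunLike.congr_fun this g

theorem IN_JJ (g : RR Empty) : IN K (JJ K g) = JJ (Option K) g := by
  have : (IN K).comp (JJ K) = JJ (Option K) := by
    apply algHom_ext
    intro v
    rw [AlgHom.comp_apply]
    cases v with
    | x a n => rw [JJ_x, IN_x, JJ_x]
    | s a n => rw [JJ_s, IN_s, JJ_s]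
    | y c n => exact c.elim
  exact DFunLike.congr_fun this g

variable [Fintype K]

theorem lf_W {κ : K → Kd} (hκ : Naf κ) (q : ℕ) (ν : K → ℕ) (g : RR Empty) :
    ev (fc (act κ) q (q + 1) (uni K)) (YY ν * JJ K g) = YY ν * JJ K g := by
  rw [map_mul, ev_YY hκ, lf_JJ]

theorem YY_nx (ν : K → ℕ) (i : ℕ) (g : RR Empty) :
    YY (nx ν i) * JJ (Option K) g = X (.y none 0) ^ i * IN K (YY ν * JJ K g) := by
  have h : YY (nx ν i) = X (.y none 0) ^ i * IN K (YY ν) := by
    rw [YY, Fintype.prod_option, YY, map_prod]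
    congr 1
    exact prod_congr rfl fun c _ => by rw [map_pow, IN_y]; rfl
  rw [h, map_mul, IN_JJ, mul_assoc]

theorem dd_W {κ : K → Kd} (hκ : Naf κ) (q : ℕ) (ν : K → ℕ) (g : RR Empty) :
    dd κ q (YY ν * JJ K g) = YY ν * JJ K (dd kun q g) := by
  rw [dd_YY hκ, JJ_dd kun κ]

theorem IW_YY (ν : K → ℕ) : IW (wF (ktw : K → Kd)) (YY ν)
    (2 * (∑ c, ν c : ℕ), (ν, 0)) := by
  have h1 : IW (wF (ktw : K → Kd)) (YY ν) (∑ c, ν c • wF (ktw : K → Kd) (.y c 0)) :=
    IsWeightedHomogeneous.prod _ _ _ fun c _ =>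
      (isWeightedHomogeneous_X (ZMod 2) (wF (ktw : K → Kd)) (Vr.y c 0)).pow (ν c)
  have h2 : ∑ c, ν c • wF (ktw : K → Kd) (.y c 0) = ((2 * (∑ c, ν c : ℕ) : ℤ), (ν, 0)) := by
    refine Prod.ext ?_ (Prod.ext ?_ ?_)
    · rw [Prod.fst_sum, Nat.cast_sum, mul_sum]
      refine sum_congr rfl fun c _ => ?_
      rw [Prod.smul_fst]
      simp only [wF, wG, ktw, tk, nsmul_eq_mul]
      ring
    · rw [Prod.snd_sum, Prod.fst_sum]
      simp only [wF, wG, Prod.smul_snd, Prod.smul_fst]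
      funext c
      rw [Finset.sum_apply, Finset.sum_eq_single c]
      · simp [ee_self]
      · intro b _ hb
        simp [ee_ne (Ne.symm hb)]
      · intro h; exact absurd (mem_univ c) h
    · rw [Prod.snd_sum, Prod.snd_sum]
      simp [wF, wG]
  rwa [h2] at h1

theorem TT_YY {ν : K → ℕ} {n : ℕ} (hν : ∑ c, ν c = n) {q : ℕ} {t : ℤ} {j : ℕ} {g : RR Empty}
    (hg : TT ktw q t 0 j g) : TT ktw q (t + 2 * n) ν j (YY ν * JJ K g) := by
  have h1 := TT_JJ (K := K) (κ := ktw) hg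
  refine ⟨?_, ?_⟩
  · rw [map_mul, h1.cu]
    congr 1
    rw [YY, map_prod]
    refine prod_congr rfl fun c _ => ?_
    rw [map_pow]
    congr 1
    exact ev_X _ _
  · have h2 := (IW_YY ν).mul h1.iw
    have h3 : ((2 * (∑ c, ν c : ℕ), (ν, 0)) : ℤ × ((K → ℕ) × ℕ)) + (t, (0, j))
        = (t + 2 * n, (ν, j)) := by
      rw [hν]
      refine Prod.ext ?_ (Prod.ext ?_ ?_)
      · simp only [Prod.fst_add]; ring
      · simp
      · simp
    rwa [h3] at h2

theorem TT_PHI {q : ℕ} {N : ℤ} {g : RR Empty} (hg : TT kun q N 0 0 g) :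
    TT ktw q (2 * N) 0 0 (PHI Empty g) := by
  refine ⟨by rw [← PHI_cut, hg.cu], ?_⟩
  have h5 := IW_PHI hg.iw
  have h6 : dbl (Empty → ℕ) (N, (0, 0)) = (2 * N, (0, 0)) := rfl
  rwa [h6] at h5

theorem TT_W {ν : K → ℕ} {n : ℕ} (hν : ∑ c, ν c = n) {q : ℕ} {N : ℤ} {g : RR Empty}
    (hg : TT kun q N 0 0 g) : TT ktw q (2 * N + 2 * n) ν 0 (YY ν * JJ K (PHI Empty g)) :=
  TT_YY hν (TT_PHI hg)

theorem dd_WP {q : ℕ} (ν : K → ℕ) {g : RR Empty} (hg : dd kun q g = 0) :
    dd ktw q (YY ν * JJ K (PHI Empty g)) = 0 := by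
  have h : dd kun q (PHI Empty g) = 0 := by
    have := PHI_dd q g
    rw [hg, map_zero, kk] at this
    exact this.symm
  rw [dd_W naf_tw, h, map_zero, mul_zero]

omit [Fintype K] in
theorem TT_mulx {κ : K → Kd} {ν : K → ℕ} {q : ℕ} {t t' : ℤ} {j : ℕ} {g : RR K}
    (hg : TT κ q t ν j g) (ht : t + 1 = t') : TT κ (q + 1) t' ν j (X (.x q 0) * g) := by
  refine ⟨?_, ?_⟩
  · rw [map_mul, cut_le (Nat.le_succ q) hg.cu]
    congr 1
    refine (ev_X _ _).trans ?_
    simp only [co, cpt]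
    rw [if_pos (Nat.lt_succ_self q)]
    rfl
  · have := (isWeightedHomogeneous_X (ZMod 2) (wF κ) (Vr.x q 0)).mul hg.iw
    have h2 : wF κ (Vr.x q 0) + (t, (ν, j)) = (t', (ν, j)) := by
      subst ht
      refine Prod.ext ?_ (Prod.ext ?_ ?_)
      · simp only [wF, wG, Prod.fst_add]
        ring
      · simp [wF, wG]
      · simp [wF, wG]
    rwa [h2] at this

omit [Fintype K] in
theorem TT_muls {κ : K → Kd} {ν : K → ℕ} {q : ℕ} {t t' : ℤ} {j : ℕ} {g : RR K}
    (hg : TT κ q t ν j g) (ht : t + 2 = t') :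
    TT κ (q + 1) t' ν (j + 1) (X (.s q 0) * g) := by
  refine ⟨?_, ?_⟩
  · rw [map_mul, cut_le (Nat.le_succ q) hg.cu]
    congr 1
    refine (ev_X _ _).trans ?_
    simp only [co, cpt]
    rw [if_pos (Nat.lt_succ_self q)]
    rfl
  · have := (isWeightedHomogeneous_X (ZMod 2) (wF κ) (Vr.s q 0)).mul hg.iw
    have h2 : wF κ (Vr.s q 0) + (t, (ν, j)) = (t', (ν, j + 1)) := by
      subst ht
      refine Prod.ext ?_ (Prod.ext ?_ ?_)
      · simp only [wF, wG, Prod.fst_add]
        ring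
      · simp [wF, wG]
      · simp [wF, wG]
        ring
    rwa [h2] at this

end faces

section mul

/-- multiplication by a function of the last slot -/
theorem dd_mulA (s : ℕ) {A A' B f : RR Empty} (hf : cut Empty s f = f)
    (hA : ∀ j, j ≤ s → ev (fc (act kun) (s + 1) j (uni Empty)) A = A')
    (hB : ev (fc (act kun) (s + 1) (s + 1) (uni Empty)) A = B)
    (hC : ev (fc (act kun) (s + 1) (s + 2) (uni Empty)) A = A) :
    dd kun (s + 1) (A * f) = A' * dd kun s f + (B + A' + A) * f := by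
  have hB' : ∀ j, j ≤ s → ev (fc (act kun) (s + 1) j (uni Empty)) f
      = ev (fc (act kun) s j (uni Empty)) f := by
    intro j hj
    apply dep_of_cut hf
    cases j with
    | zero => rw [fc_zero, fc_zero]; exact ⟨fun _ _ => rfl, rfl⟩
    | succ k => rw [fc_mid _ (by omega), fc_mid _ (by omega)]; exact ⟨fun _ _ => rfl, rfl⟩
  have hC2 : ev (fc (act kun) (s + 1) (s + 1) (uni Empty)) f = f := by
    have h := dep_of_cut hf (fc (act kun) (s + 1) (s + 1) (uni Empty)) (uni Empty) (by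
      rw [fc_mid _ (by omega)]
      exact ⟨fun a ha => mrg_lt ha _, rfl⟩)
    simp only at h
    rw [h, ev_uni]
  have hD2 : ev (fc (act kun) (s + 1) (s + 2) (uni Empty)) f = f := by
    have h0 := Pool.Agent.W624.ND.agr_last (s + 1) (uni Empty) (s + 2) (by omega)
    have h := dep_of_cut hf (fc (act kun) (s + 1) (s + 2) (uni Empty)) (uni Empty)
      ⟨fun a ha => h0.1 a (by omega), h0.2⟩
    simp only at h
    rw [h, ev_uni]
  have hE : ev (fc (act kun) s (s + 1) (uni Empty)) f = f := by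
    have h := dep_of_cut hf _ _ (Pool.Agent.W624.ND.agr_last s (uni Empty) (s + 1) (by omega))
    simp only at h
    rw [h, ev_uni]
  rw [dd_apply, dd_apply, sum_range_succ, sum_range_succ, sum_range_succ (n := s + 1)]
  rw [map_mul, map_mul, hB, hC2, hC, hD2, hE]
  have hS : ∑ x ∈ range (s + 1), ev (fc (act kun) (s + 1) x (uni Empty)) (A * f)
      = A' * ∑ x ∈ range (s + 1), ev (fc (act kun) s x (uni Empty)) f := by
    rw [mul_sum]
    refine sum_congr rfl fun j hj => ?_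
    rw [mem_range] at hj
    rw [map_mul, hA j (by omega), hB' j (by omega)]
  rw [hS]
  have h2 := p2_add_self (A' * f)
  linear_combination (-1 : RR Empty) * h2

theorem fx_lo (s j : ℕ) (hj : j ≤ s) :
    ev (fc (act kun) (s + 1) j (uni Empty)) (X (.x s 0)) = X (.x (s + 1) 0) := by
  rw [ev_X]
  cases j with
  | zero => rw [fc_zero]; rfl
  | succ k =>
    rw [fc_mid _ (by omega)]
    simp only [co]
    rw [mrg_gt (by omega)]
    rfl

theorem fs_lo (s j : ℕ) (hj : j ≤ s) :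
    ev (fc (act kun) (s + 1) j (uni Empty)) (X (.s s 0)) = X (.s (s + 1) 0) := by
  rw [ev_X]
  cases j with
  | zero => rw [fc_zero]; rfl
  | succ k =>
    rw [fc_mid _ (by omega)]
    simp only [co]
    rw [mrg_gt (by omega)]
    rfl

theorem fx_mid (s : ℕ) : ev (fc (act kun) (s + 1) (s + 1) (uni Empty)) (X (.x s 0))
    = X (.x s 0) + X (.x (s + 1) 0) := by
  rw [ev_X, fc_mid _ (by omega)]
  simp only [co]
  rw [mrg_eq, mul_g, op]
  simp [Finset.Nat.antidiagonal_succ, uni, ug, add_comm]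

theorem fs_mid (s : ℕ) : ev (fc (act kun) (s + 1) (s + 1) (uni Empty)) (X (.s s 0))
    = X (.s s 0) + X (.s (s + 1) 0) := by
  rw [ev_X, fc_mid _ (by omega)]
  simp only [co]
  rw [mrg_eq, mul_s, Pi.add_apply, op_zero_coord, fr, ((uni Empty).1 s).h, one_pow, one_mul]
  simp only [uni]
  ring

theorem fx_hi (s : ℕ) : ev (fc (act kun) (s + 1) (s + 2) (uni Empty)) (X (.x s 0))
    = X (.x s 0) := by
  rw [ev_X, fc_last _ (by omega)]
  rfl

theorem fs_hi (s : ℕ) : ev (fc (act kun) (s + 1) (s + 2) (uni Empty)) (X (.s s 0))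
    = X (.s s 0) := by
  rw [ev_X, fc_last _ (by omega)]
  rfl

theorem p2c {σ : Type*} (a b : P2 σ) : a + b + b + a = 0 := by
  have h1 := p2_add_self a
  have h2 := p2_add_self b
  linear_combination h1 + h2

theorem dd_x (s : ℕ) {f : RR Empty} (hf : cut Empty s f = f) :
    dd kun (s + 1) (X (.x s 0) * f) = X (.x (s + 1) 0) * dd kun s f := by
  rw [dd_mulA s hf (fx_lo s) (fx_mid s) (fx_hi s)]
  have := p2c (X (.x s 0) : RR Empty) (X (.x (s + 1) 0))
  linear_combination f * this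

theorem dd_s (s : ℕ) {f : RR Empty} (hf : cut Empty s f = f) :
    dd kun (s + 1) (X (.s s 0) * f) = X (.s (s + 1) 0) * dd kun s f := by
  rw [dd_mulA s hf (fs_lo s) (fs_mid s) (fs_hi s)]
  have := p2c (X (.s s 0) : RR Empty) (X (.s (s + 1) 0))
  linear_combination f * this

theorem dd_xs (s : ℕ) {f : RR Empty} (hf : cut Empty s f = f) :
    dd kun (s + 1) (X (.x s 0) * X (.s s 0) * f)
      = X (.x (s + 1) 0) * X (.s (s + 1) 0) * dd kun s f
        + (X (.x s 0) * X (.s (s + 1) 0) + X (.x (s + 1) 0) * X (.s s 0)) * f := by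
  rw [dd_mulA s hf (A' := X (.x (s + 1) 0) * X (.s (s + 1) 0))
    (B := (X (.x s 0) + X (.x (s + 1) 0)) * (X (.s s 0) + X (.s (s + 1) 0)))
    (fun j hj => by rw [map_mul, fx_lo s j hj, fs_lo s j hj])
    (by rw [map_mul, fx_mid, fs_mid]) (by rw [map_mul, fx_hi, fs_hi])]
  have h1 := p2_add_self (X (.x s 0) * X (.s s 0) * f)
  have h2 := p2_add_self (X (.x (s + 1) 0) * X (.s (s + 1) 0) * f)
  linear_combination h1 + h2

end mul

end Pool.Agent.Q171.ND3
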