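import Mathlib

/-!
# The cohomology of the mod 2 Steenrod algebra and its Steenrod operations: definitions

The cobar complex of the dual Steenrod algebra `𝔽₂[ξ₁, ξ₂, …]`: cochains of degree `s` are
polynomials in the generators of the slots `0, …, s - 1`.
-/

set_option autoImplicit false

namespace Pool.Agent.Q171.ND3.St

open Finset MvPolynomial

/-- The polynomial ring over `𝔽₂` in the variables `(a, n)`; the variable `(a, n)` stands for
`ξ_{n+1}` in the slot `a`. -/
abbrev P : Type := MvPolynomial (ℕ × ℕ) (ZMod 2)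

/-- `ξ_n` in the slot `a`, where `ξ₀ = 1`. -/
noncomputable def ξ (a : ℕ) : ℕ → P
  | 0 => 1
  | n + 1 => X (a, n)

/-- The coface `δ^j`: the coproduct `ξ_n ↦ ∑ᵢ ξ_{n-i} ^ (2 ^ i) ⊗ ξᵢ` is applied in the slot
`j - 1`, and for `j = 0` a unit is inserted at the left. (On cochains of degree `s` the coface
`δ^{s+1}` inserts a unit at the right.) -/
noncomputable def face (j : ℕ) : P →ₐ[ZMod 2] P :=
  aeval fun p : ℕ × ℕ =>
    if p.1 + 1 < j then ξ p.1 (p.2 + 1)
    else if j ≤ p.1 then ξ (p.1 + 1) (p.2 + 1)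
    else ∑ i ∈ range (p.2 + 2), ξ p.1 (p.2 + 1 - i) ^ (2 ^ i) * ξ (p.1 + 1) i

/-- Cobar cochains of degree `s`: polynomials in the variables of the slots `0, …, s - 1`. -/
noncomputable def C (s : ℕ) : Submodule (ZMod 2) P :=
  Subalgebra.toSubmodule (supported (ZMod 2) {p : ℕ × ℕ | p.1 < s})

/-- The differential of the cobar complex, on cochains of degree `s`. -/
noncomputable def d (s : ℕ) : P →ₗ[ZMod 2] P := ∑ j ∈ range (s + 2), (face j).toLinearMap

/-- Cocycles of degree `s`. -/
noncomputable def Z (s : ℕ) : Submodule (ZMod 2) P := C s ⊓ LinearMap.ker (d s)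

/-- Coboundaries of degree `s`. -/
noncomputable def B : ℕ → Submodule (ZMod 2) P
  | 0 => ⊥
  | s + 1 => (C s).map (d s)

/-- The `s`-line `Ext^s = ⨁ₜ Ext^{s,t}`: cocycles modulo coboundaries. -/
def Ext (s : ℕ) : Type := Z s ⧸ (B s).submoduleOf (Z s)

noncomputable instance (s : ℕ) : AddCommGroup (Ext s) :=
  Submodule.Quotient.addCommGroup ((B s).submoduleOf (Z s))

noncomputable instance (s : ℕ) : Module (ZMod 2) (Ext s) :=
  Submodule.Quotient.module ((B s).submoduleOf (Z s))

/-- The class of a cocycle. -/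
noncomputable def cl {s : ℕ} : Z s →ₗ[ZMod 2] Ext s := ((B s).submoduleOf (Z s)).mkQ

/-- `x` is homogeneous of internal degree `t`; the internal degree of `ξ_n` is `2 ^ n - 1`. -/
def IsHom (t : ℕ) (x : P) : Prop :=
  IsWeightedHomogeneous (fun p : ℕ × ℕ => 2 ^ (p.2 + 1) - 1) x t

/-- `Ext^{s,t}`: the classes of the homogeneous cocycles of internal degree `t`. -/
def Deg (s t : ℕ) : Set (Ext s) := {y | ∃ x : Z s, IsHom t x.1 ∧ cl x = y}

/-- `δ^{a_k} ⋯ δ^{a_1} x`, where `a_1 < … < a_k` are the elements of `A`. -/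
noncomputable def faces (A : Finset ℕ) (x : P) : P :=
  (A.sort (· ≥ ·)).foldr (fun j y => face j y) x

/-- The elements `u_j` of `U = {u_1 < u_2 < …}` for which `u_j + j - 1` is even. -/
def ev0 (U : Finset ℕ) : Finset ℕ := U.filter fun u => Even (u + (U.filter (· < u)).card)

/-- The elements `u_j` of `U = {u_1 < u_2 < …}` for which `u_j + j - 1` is odd. -/
def ev1 (U : Finset ℕ) : Finset ℕ := U.filter fun u => ¬ Even (u + (U.filter (· < u)).card)

/-- The cup-`(s-k)` square of a cochain of degree `s`, which represents `Sq^k`: the sum of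
`(δ^{U⁰} x) (δ^{U¹} x)` over the subsets `U` of `{0, …, s + k}` with `|U⁰| = |U¹| = k`. -/
noncomputable def sqC (k s : ℕ) (x : P) : P :=
  ∑ U ∈ (range (s + k + 1)).powerset with (ev0 U).card = k ∧ (ev1 U).card = k,
    faces (ev0 U) x * faces (ev1 U) x

end Pool.Agent.Q171.ND3.St
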