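import Pool.Agent.Q171.ND3.Op

/-!
The Adams `s`-line with its operations, and the properties of the second and the third differential of
the Adams spectral sequence which are used.
-/

set_option autoImplicit false

namespace Pool.Agent.Q171.ND3.St

/-- A cocycle of degree `s` of the cobar complex. -/
structure Cocycle (s : ℕ) where
  val : P
  mem : val ∈ C s
  closed : d s val = 0

/-- A cocycle as an element of the submodule of cocycles. -/
def Cocycle.toZ {s : ℕ} (x : Cocycle s) : Z s := ⟨x.val, x.mem, x.closed⟩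

/-- The class of a cocycle. -/
noncomputable def Cocycle.cls {s : ℕ} (x : Cocycle s) : Ext s := cl x.toZ

/-- `Sq^k` on cocycles: the cup-`(s-k)` square, a cocycle of degree `s + k`. -/
noncomputable def Cocycle.Sq {s : ℕ} (x : Cocycle s) (k : ℕ) : Cocycle (s + k) :=
  ⟨sqC k s x.val, C_sqC x.mem, d_sqC k s x.closed⟩

/-- `y` is in `Ext^{s,t}`, that is, it is the class of a homogeneous cocycle of internal degree `t`. -/
def IsDeg (s t : ℕ) (y : Ext s) : Prop := ∃ x : Cocycle s, IsHom t x.val ∧ x.cls = y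

/-- `Sq⁰`, which maps the class of `x` to the class of `x²`. -/
noncomputable def sq0 (s : ℕ) (y : Ext s) : Ext s := Sq0 s y

/-- The `j`-th member `(Sq⁰)^j y` of the `Sq⁰`-family of `y`. -/
noncomputable def fam (s j : ℕ) (y : Ext s) : Ext s := (sq0 s)^[j] y

/-- Multiplication by `h_i`, which maps the class of `[a₁|…|aₛ]` to the class of
`[a₁|…|aₛ|ξ₁ ^ (2 ^ i)]`. -/
noncomputable def hmul (i s : ℕ) (y : Ext s) : Ext (s + 1) := h i s y

/-- Maps with some properties of the differentials `d₂` and `d₃` of the Adams spectral sequence of the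
sphere. -/
structure Diffs where
  /-- the differential `d₂ : Ext^s → Ext^(s+2)` -/
  d₂ : (s : ℕ) → Ext s → Ext (s + 2)
  /-- `d₂` is additive -/
  add : ∀ (s : ℕ) (y z : Ext s), d₂ s (y + z) = d₂ s y + d₂ s z
  /-- `d₂` maps `Ext^{s,t}` to `Ext^{s+2,t+1}` -/
  deg : ∀ (s t : ℕ) (y : Ext s), IsDeg s t y → IsDeg (s + 2) (t + 1) (d₂ s y)
  /-- `d₂ d₂ = 0` -/
  sq_zero : ∀ (s : ℕ) (y : Ext s), d₂ (s + 2) (d₂ s y) = 0
  /-- `d₂ (h₀ y) = h₀ d₂ y` -/
  mul_h0 : ∀ (s : ℕ) (y : Ext s), d₂ (s + 1) (hmul 0 s y) = hmul 0 (s + 2) (d₂ s y)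
  /-- Bruner's formula `d₂ (Sq⁰ x) = h₀ Sq¹ x` for classes `x` of even internal degree -/
  bruner₂ : ∀ (s t : ℕ) (x : Cocycle s), Even t → IsHom t x.val →
    d₂ s (sq0 s x.cls) = hmul 0 (s + 1) (x.Sq 1).cls
  /-- a representative in `Ext^(s+3)` of `d₃ y`, for the classes `y` with `d₂ y = 0` (the values on the
  other classes are irrelevant); `d₃ y` is an element of `Ext^(s+3)` modulo the image of `d₂` -/
  d₃ : (s : ℕ) → Ext s → Ext (s + 3)
  /-- Bruner's formula `d₃ (Sq⁰ Sq¹ x) = d₃ (Sq¹ Sq⁰ x) = Sq² (d₂ (Sq⁰ x)) = Sq² (h₀ Sq¹ x) =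
  h₁ Sq² Sq¹ x` modulo the image of `d₂`, for classes `x` of even internal degree,
  if `d₂ (Sq⁰ Sq¹ x) = 0` -/
  bruner₃ : ∀ (s t : ℕ) (x : Cocycle s), Even t → IsHom t x.val →
    d₂ (s + 1) (sq0 (s + 1) (x.Sq 1).cls) = 0 →
      ∃ w : Ext (s + 2), d₃ (s + 1) (sq0 (s + 1) (x.Sq 1).cls) =
        hmul 1 (s + 3) ((x.Sq 1).Sq 2).cls + d₂ (s + 2) w

/-- `y` survives to the `E₄`-page: `d₂ y = 0`, and `d₃ y = 0` modulo the image of `d₂`. -/
def Diffs.Survives₄ (D : Diffs) (s : ℕ) (y : Ext s) : Prop :=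
  D.d₂ s y = 0 ∧ ∃ w : Ext (s + 1), D.d₃ s y = D.d₂ (s + 1) w

end Pool.Agent.Q171.ND3.St
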