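import Pool.Agent.Q171.ND3.D

/-!
Cocycles of tangent degree one and two in borderline degrees.
-/

set_option autoImplicit false
set_option linter.unusedSectionVars false

namespace Pool.Agent.Q171.ND3

open Finset MvPolynomial Pool.Agent.W624.Stz

/-- the basic cocycle with coefficients -/
noncomputable def WW (K : Type) [Fintype K] (ν : K → ℕ) (u : RR Empty) : RR K :=
  YY ν * JJ K (PHI Empty u)

section basics

variable {K : Type} [Fintype K]

theorem WW_nx (ν : K → ℕ) (i : ℕ) (u : RR Empty) :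
    WW (Option K) (nx ν i) u = X (.y none 0) ^ i * IN K (WW K ν u) := YY_nx ν i _

theorem TT_WW {ν : K → ℕ} {n : ℕ} (hν : ∑ c, ν c = n) {q : ℕ} {N : ℤ} {u : RR Empty}
    (hu : TT kun q N 0 0 u) : TT ktw q (2 * N + 2 * n) ν 0 (WW K ν u) := TT_W hν hu

theorem dd_WW {q : ℕ} (ν : K → ℕ) {u : RR Empty} (hu : dd kun q u = 0) :
    dd ktw q (WW K ν u) = 0 := dd_WP ν hu

theorem DX_WW (ν : K → ℕ) (u : RR Empty) : DX K (WW K ν u) = 0 := by
  have : WW K ν u = PHI K (YY ν * JJ K u) := by rw [map_mul, PHI_YY, WW, JJ_PHI]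
  rw [this, DX_PHI]

theorem lf_WW (q : ℕ) (ν : K → ℕ) (u : RR Empty) :
    ev (fc (act ktw) q (q + 1) (uni K)) (WW K ν u) = WW K ν u := lf_W naf_tw q ν _

theorem WW_zero (ν : K → ℕ) : WW K ν 0 = 0 := by rw [WW, map_zero, map_zero, mul_zero]

theorem WW_eq_zero {ν : K → ℕ} {u : RR Empty} (h : WW K ν u = 0) : u = 0 := by
  have h1 : JJ K (PHI Empty u) = 0 := (mul_eq_zero.mp h).resolve_left (YY_ne ν)
  exact PHI_inj (JJ_inj (K := K) (by rw [h1, map_zero]))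

/-- the differential of the affine coordinate times a cocycle -/
theorem dd_y1 {q : ℕ} {w : RR K} (hw : ev (fc (act ktw) q (q + 1) (uni K)) w = w)
    (hdw : dd ktw q w = 0) :
    dd kE q (X (.y none 0) ^ 1 * IN K w) = IN K (X (.s q 0) * w) := by
  rw [dd_pow 1 hw, hdw, map_zero, mul_zero, zero_add, pow_one, pow_one, map_mul, IN_s]
  have := p2_add_self (X (.y none 0) : RR (Option K))
  linear_combination (IN K w) * this

theorem dd_y2 {q : ℕ} {w : RR K} (hw : ev (fc (act ktw) q (q + 1) (uni K)) w = w)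
    (hdw : dd ktw q w = 0) :
    dd kE q (X (.y none 0) ^ 2 * IN K w) = IN K (X (.s q 0) ^ 2 * w) := by
  rw [dd_pow 2 hw, hdw, map_zero, mul_zero, zero_add, map_mul, map_pow, IN_s, p2_add_sq]
  have := p2_add_self ((X (.y none 0) : RR (Option K)) ^ 2)
  linear_combination (IN K w) * this

theorem lf_s {q : ℕ} {w : RR K} (a : ℕ) (hw : ev (fc (act ktw) q (q + 1) (uni K)) w = w) :
    ev (fc (act ktw) q (q + 1) (uni K)) (X (.s a 0) * w) = X (.s a 0) * w := by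
  rw [map_mul, hw, ev_X, fc_last _ (by omega)]
  rfl

theorem lf_x {q : ℕ} {w : RR K} (a : ℕ) (hw : ev (fc (act ktw) q (q + 1) (uni K)) w = w) :
    ev (fc (act ktw) q (q + 1) (uni K)) (X (.x a 0) * w) = X (.x a 0) * w := by
  rw [map_mul, hw, ev_X, fc_last _ (by omega)]
  rfl

theorem mul_WW (A g : RR Empty) (ν : K → ℕ) : JJ K A * (YY ν * JJ K g) = YY ν * JJ K (A * g) := by
  rw [map_mul]; ring

theorem dd_xWW {q : ℕ} (ν : K → ℕ) {N : ℤ} {u : RR Empty} (hu : TT kun q N 0 0 u)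
    (hdu : dd kun q u = 0) : dd ktw (q + 1) (X (.x q 0) * WW K ν u) = 0 := by
  have h : X (.x q 0) * WW K ν u = YY ν * JJ K (X (.x q 0) * PHI Empty u) := by
    rw [← mul_WW, JJ_x]; rfl
  have h2 : dd kun q (PHI Empty u) = 0 := by
    have := PHI_dd q u
    rw [hdu, map_zero, kk] at this
    exact this.symm
  rw [h, dd_W naf_tw, dd_x q (TT_PHI hu).cu, h2, mul_zero, map_zero, mul_zero]

theorem dd_sWW {q : ℕ} (ν : K → ℕ) {N : ℤ} {u : RR Empty} (hu : TT kun q N 0 0 u)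
    (hdu : dd kun q u = 0) : dd ktw (q + 1) (X (.s q 0) * WW K ν u) = 0 := by
  have h : X (.s q 0) * WW K ν u = YY ν * JJ K (X (.s q 0) * PHI Empty u) := by
    rw [← mul_WW, JJ_s]; rfl
  have h2 : dd kun q (PHI Empty u) = 0 := by
    have := PHI_dd q u
    rw [hdu, map_zero, kk] at this
    exact this.symm
  rw [h, dd_W naf_tw, dd_s q (TT_PHI hu).cu, h2, mul_zero, map_zero, mul_zero]

/-- the components of a cochain without affine coordinate -/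
theorem cm_IN {i : ℕ} (hi : i ≠ 0) (f : RR K) : cm (wn K) i (IN K f) = 0 :=
  cm_ne (IW_wn_IN f) hi

theorem IN_eq {a b f h : RR K} (e : IN K a = IN K f + IN K b) (hh : a = h) : f = b + h := by
  have h1 : a = f + b := IN_inj (by rw [e, map_add])
  have h2 := p2_add_self b
  rw [← hh, h1]
  linear_combination (-1 : RR K) * h2

end basics

/-- cocycles of tangent degree one -/
theorem j1Surj (q n : ℕ) : ∀ᶠ N in HD, ∀ (K : Type) [Fintype K] (ν : K → ℕ), ∑ c, ν c = n →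
    ∀ f : RR K, TT ktw (q + 1) (2 * N + 2 * (n + 1 : ℕ)) ν 1 f → dd ktw (q + 1) f = 0 →
    ∃ u : RR Empty, TT kun q N 0 0 u ∧ dd kun q u = 0 ∧
      ∃ h, TT ktw q (2 * N + 2 * (n + 1 : ℕ)) ν 1 h ∧
        f = X (.s q 0) * WW K ν u + dd ktw q h := by
  filter_upwards [evHA q (n + 1), evHL q (n + 1) 0 (2 * (n + 1 : ℕ)) (by push_cast; linarith)]
    with N hA hL
  intro K _ ν hν f hf hdf
  obtain ⟨H, hH, hdH⟩ := E_exact (EE_IN hf) le_rfl (by
    rw [← IN_dd kE_some, hdf, map_zero])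
  have hdH' : dd kE q H = IN K f := hdH
  have hHq : EE K q (2 * N + 2 * (n + 1 : ℕ)) ν 1 H := hH
  have hc := hHq.comp 1
  obtain ⟨u, hu, hdu, e, he, hce⟩ := twSurj hA hL (ν := nx ν 1) (by rw [sum_nx, hν]) hc (by
    rw [← top_dd hHq.lt, hdH', cm_IN one_ne_zero])
  have hP : EE K q (2 * N + 2 * (n + 1 : ℕ)) ν 1 (X (.y none 0) ^ 1 * IN K (WW K ν u)) := by
    rw [pow_one]
    exact (EE_IN (TT_WW hν hu)).mulS (by push_cast; ring) rfl
  have hce' : cm (wn K) 1 H = X (.y none 0) ^ 1 * IN K (WW K ν u) + dm ktw q e := by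
    rw [hce, ← WW_nx]; rfl
  obtain ⟨H', hH', hl, hdH2⟩ := strip le_rfl hHq hHq.lt hP he hce'
  obtain ⟨h, hh, hhe⟩ := hH'.bot hl
  refine ⟨u, hu, hdu, h, hh, ?_⟩
  rw [hhe, hdH', dd_y1 (lf_WW q ν u) (dd_WW ν hdu), ← IN_dd kE_some] at hdH2
  exact IN_eq hdH2 rfl

theorem j1Inj (q n : ℕ) : ∀ᶠ N in HD, ∀ (K : Type) [Fintype K] (ν : K → ℕ), ∑ c, ν c = n →
    ∀ u : RR Empty, TT kun q N 0 0 u → dd kun q u = 0 →
    ∀ h : RR K, TT ktw q (2 * N + 2 * (n + 1 : ℕ)) ν 1 h →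
      dd ktw q h = X (.s q 0) * WW K ν u →
      ∃ u', TT kun (q - 1) N 0 0 u' ∧ dm kun q u' = u := by
  filter_upwards [evHA (q - 1) (n + 1),
    evHL (q - 1) (n + 1) 0 (2 * (n + 1 : ℕ)) (by push_cast; linarith)] with N hA hL
  intro K _ ν hν u hu hdu h hh hdh
  have hP : EE K q (2 * N + 2 * (n + 1 : ℕ)) ν 1 (X (.y none 0) ^ 1 * IN K (WW K ν u)) := by
    rw [pow_one]
    exact (EE_IN (TT_WW hν hu)).mulS (by push_cast; ring) rfl
  obtain ⟨H, hH, hdH⟩ := E_exact (hP.add (EE_IN hh)) le_rfl (by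
    rw [map_add, dd_y1 (lf_WW q ν u) (dd_WW ν hdu), ← IN_dd kE_some, hdh, p2_add_self])
  have h1 := congrArg (cm (wn K) 1) hdH
  have hP1 : IW (wn K) (X (.y none 0) ^ 1 * IN K (WW K ν u)) 1 := by
    have := ((isWeightedHomogeneous_X (ZMod 2) (wn K) (Vr.y none 0)).pow 1).mul
      (IW_wn_IN (WW K ν u))
    exact this
  rw [top_dm hH.lt, map_add, cm_IN one_ne_zero, add_zero, cm_same hP1, ← WW_nx] at h1
  have hc := hH.comp 1
  cases q with
  | zero =>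
    refine ⟨0, TT.zero, ?_⟩
    rw [map_zero]
    exact (WW_eq_zero h1.symm).symm
  | succ q => exact twInj hA hL (ν := nx ν 1) (by rw [sum_nx, hν]) hc h1

/-- cocycles of odd degree one above the borderline -/
theorem oddSurj (q n : ℕ) : ∀ᶠ N in HD, ∀ (K : Type) [Fintype K] (ν : K → ℕ), ∑ c, ν c = n →
    ∀ f : RR K, TT ktw (q + 1) (2 * N + (2 * n + 1)) ν 0 f → dd ktw (q + 1) f = 0 →
    ∃ u : RR Empty, TT kun q N 0 0 u ∧ dd kun q u = 0 ∧
      ∃ h, TT ktw q (2 * N + (2 * n + 1)) ν 0 h ∧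
        f = X (.x q 0) * WW K ν u + dd ktw q h := by
  filter_upwards [j1Surj q n, evHL q n (0 + 1) (2 * n + 1 + 1) (by push_cast; linarith)]
    with N h1 hL
  intro K _ ν hν f hf hdf
  have hDf := hf.DX
  have ht : 2 * N + (2 * (n : ℤ) + 1) + 1 = 2 * N + 2 * (n + 1 : ℕ) := by push_cast; ring
  rw [ht] at hDf
  have hD0 : dd ktw (q + 1) (DX K f) = 0 := by
    have h : DX K (dd ktw (q + 1) f) = dd ktw (q + 1) (DX K f) := DX_dd (q + 1) f
    rw [← h, hdf, map_zero]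
  obtain ⟨u, hu, hdu, h, hh, he⟩ := h1 K ν hν _ hDf hD0
  have hxT : TT ktw (q + 1) (2 * N + (2 * n + 1)) ν 0 (X (.x q 0) * WW K ν u) :=
    TT_mulx (TT_WW hν hu) (by ring)
  have hh' : TT ktw q (2 * N + (2 * (n : ℤ) + 1 + 1)) ν (0 + 1) h := by
    have : 2 * N + (2 * (n : ℤ) + 1 + 1) = 2 * N + 2 * (n + 1 : ℕ) := by push_cast; ring
    rw [this]; exact hh
  obtain ⟨h3, hh3, hT, hD3⟩ := lift_cob q n 0 (2 * n + 1) N hL hν (hf.add hxT) hh' (by
    rw [map_add, Derivation.leibniz, DX_WW, smul_zero, zero_add, DX_x, smul_eq_mul, he]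
    have := p2_add_self (X (.s q 0) * WW K ν u)
    linear_combination this)
  refine ⟨u, hu, hdu, h3, hh3, ?_⟩
  rcases PHI_root hT hD3 with h0 | ⟨t', ht', _⟩
  · have := p2_add_self (X (.x q 0) * WW K ν u)
    linear_combination h0 - this
  · omega

/-- cocycles of tangent degree one and odd degree -/
theorem j1odd (q n : ℕ) : ∀ᶠ N in HD, ∀ (K : Type) [Fintype K] (ν : K → ℕ), ∑ c, ν c = n →
    ∀ f : RR K, TT ktw (q + 2) (2 * N + (2 * (n + 1 : ℕ) + 1)) ν 1 f → dd ktw (q + 2) f = 0 →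
    ∃ u : RR Empty, TT kun q N 0 0 u ∧ dd kun q u = 0 ∧
      ∃ h, TT ktw (q + 1) (2 * N + (2 * (n + 1 : ℕ) + 1)) ν 1 h ∧
        f = X (.s (q + 1) 0) * (X (.x q 0) * WW K ν u) + dd ktw (q + 1) h := by
  filter_upwards [oddSurj q (n + 1)] with N h1
  intro K _ ν hν f hf hdf
  obtain ⟨H, hH, hdH⟩ := E_exact (EE_IN hf) le_rfl (by
    rw [← IN_dd kE_some, hdf, map_zero])
  have hdH' : dd kE (q + 1) H = IN K f := hdH
  have hHq : EE K (q + 1) (2 * N + (2 * (n + 1 : ℕ) + 1)) ν 1 H := hH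
  have hc := hHq.comp 1
  obtain ⟨u, hu, hdu, e, he, hce⟩ := h1 (Option K) (nx ν 1) (by rw [sum_nx, hν]) _ hc (by
    rw [← top_dd hHq.lt, hdH', cm_IN one_ne_zero])
  have hw : TT ktw (q + 1) (2 * N + 2 * n + 1) ν 0 (X (.x q 0) * WW K ν u) :=
    TT_mulx (TT_WW hν hu) (by ring)
  have hP : EE K (q + 1) (2 * N + (2 * (n + 1 : ℕ) + 1)) ν 1
      (X (.y none 0) ^ 1 * IN K (X (.x q 0) * WW K ν u)) := by
    rw [pow_one]
    exact (EE_IN hw).mulS (by push_cast; ring) rfl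
  have hce' : cm (wn K) 1 H = X (.y none 0) ^ 1 * IN K (X (.x q 0) * WW K ν u)
      + dm ktw (q + 1) e := by
    rw [hce, WW_nx, map_mul, IN_x]
    change _ + dd ktw q e = _ + dd ktw q e
    ring
  obtain ⟨H', hH', hl, hdH2⟩ := strip le_rfl hHq hHq.lt hP he hce'
  obtain ⟨h, hh, hhe⟩ := hH'.bot hl
  refine ⟨u, hu, hdu, h, hh, ?_⟩
  rw [hhe, hdH', dd_y1 (lf_x _ (lf_WW (q + 1) ν u)) (dd_xWW ν hu hdu), ← IN_dd kE_some] at hdH2
  exact IN_eq hdH2 rfl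

/-- cocycles of tangent degree two -/
theorem j2Surj (q n : ℕ) : ∀ᶠ N in HD, ∀ (K : Type) [Fintype K] (ν : K → ℕ), ∑ c, ν c = n →
    ∀ f : RR K, TT ktw (q + 2) (2 * N + 2 * (n + 2 : ℕ)) ν 2 f → dd ktw (q + 2) f = 0 →
    ∃ v : RR Empty, TT kun (q + 1) N 0 0 v ∧ dd kun (q + 1) v = 0 ∧
    ∃ u : RR Empty, TT kun q N 0 0 u ∧ dd kun q u = 0 ∧
      ∃ h, TT ktw (q + 1) (2 * N + 2 * (n + 2 : ℕ)) ν 2 h ∧
        f = X (.s (q + 1) 0) ^ 2 * WW K ν v + X (.s (q + 1) 0) * (X (.s q 0) * WW K ν u)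
          + dd ktw (q + 1) h := by
  filter_upwards [evHA (q + 1) (n + 2), j1Surj q (n + 1),
    evHL (q + 1) (n + 2) 0 (2 * (n + 2 : ℕ)) (by push_cast; linarith)] with N hA h1 hL
  intro K _ ν hν f hf hdf
  obtain ⟨H, hH, hdH⟩ := E_exact (EE_IN hf) (by norm_num) (by
    rw [← IN_dd kE_some, hdf, map_zero])
  have hdH' : dd kE (q + 1) H = IN K f := hdH
  have hHq : EE K (q + 1) (2 * N + 2 * (n + 2 : ℕ)) ν 2 H := hH
  have hc := hHq.comp 2
  obtain ⟨v, hv, hdv, e, he, hce⟩ := twSurj hA hL (ν := nx ν 2) (by rw [sum_nx, hν]) hc (by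
    rw [← top_dd hHq.lt, hdH', cm_IN two_ne_zero])
  have hw := TT_WW hν hv
  have hP : EE K (q + 1) (2 * N + 2 * (n + 2 : ℕ)) ν 2 (X (.y none 0) ^ 2 * IN K (WW K ν v)) := by
    rw [pow_two, mul_assoc]
    exact ((EE_IN hw).mulS rfl rfl).mulS (by push_cast; ring) rfl
  have hce' : cm (wn K) 2 H = X (.y none 0) ^ 2 * IN K (WW K ν v) + dm ktw (q + 1) e := by
    rw [hce, ← WW_nx]; rfl
  obtain ⟨H', hH', hl, hdH2⟩ := strip le_rfl hHq hHq.lt hP he hce'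
  rw [hdH', dd_y2 (lf_WW (q + 1) ν v) (dd_WW ν hdv)] at hdH2
  have hc' := hH'.comp 1
  obtain ⟨u, hu, hdu, e', he', hce2⟩ := h1 (Option K) (nx ν 1) (by rw [sum_nx, hν]) _ hc' (by
    rw [← top_dd hl, hdH2, map_add, cm_IN one_ne_zero, cm_IN one_ne_zero, add_zero])
  have hw2 : TT ktw (q + 1) (2 * N + 2 * n + 2) ν 1 (X (.s q 0) * WW K ν u) :=
    TT_muls (TT_WW hν hu) rfl
  have hP2 : EE K (q + 1) (2 * N + 2 * (n + 2 : ℕ)) ν 2
      (X (.y none 0) ^ 1 * IN K (X (.s q 0) * WW K ν u)) := by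
    rw [pow_one]
    exact (EE_IN hw2).mulS (by push_cast; ring) rfl
  have hce3 : cm (wn K) 1 H' = X (.y none 0) ^ 1 * IN K (X (.s q 0) * WW K ν u)
      + dm ktw (q + 1) e' := by
    rw [hce2, WW_nx, map_mul, IN_s]
    change _ + dd ktw q e' = _ + dd ktw q e'
    ring
  obtain ⟨H2, hH2, hl2, hdH3⟩ := strip (by norm_num) hH' hl hP2 he' hce3
  obtain ⟨h, hh, hhe⟩ := hH2.bot hl2
  refine ⟨v, hv, hdv, u, hu, hdu, h, hh, ?_⟩
  rw [hhe, hdH2, dd_y1 (lf_s _ (lf_WW (q + 1) ν u)) (dd_sWW ν hu hdu), ← IN_dd kE_some,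
    ← map_add, ← map_add] at hdH3
  have h4 := IN_inj hdH3
  rw [h4]
  have h5 := p2_add_self (X (.s (q + 1) 0) ^ 2 * WW K ν v)
  have h6 := p2_add_self (X (.s (q + 1) 0) * (X (.s q 0) * WW K ν u))
  linear_combination (-1 : RR K) * h5 - h6

/-- the square of a tangent coordinate times a cocycle is a coboundary only trivially -/
theorem j2InjV (q n : ℕ) : ∀ᶠ N in HD, ∀ (K : Type) [Fintype K] (ν : K → ℕ), ∑ c, ν c = n →
    ∀ v u : RR Empty, TT kun (q + 1) N 0 0 v → dd kun (q + 1) v = 0 → TT kun q N 0 0 u →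
      dd kun q u = 0 → ∀ h : RR K, TT ktw (q + 1) (2 * N + 2 * (n + 2 : ℕ)) ν 2 h →
      dd ktw (q + 1) h = X (.s (q + 1) 0) ^ 2 * WW K ν v
        + X (.s (q + 1) 0) * (X (.s q 0) * WW K ν u) →
      ∃ v', TT kun q N 0 0 v' ∧ dd kun q v' = v := by
  filter_upwards [evHA q (n + 2),
    evHL q (n + 2) 0 (2 * (n + 2 : ℕ)) (by push_cast; linarith)] with N hA hL
  intro K _ ν hν v u hv hdv hu hdu h hh hdh
  have hP : EE K (q + 1) (2 * N + 2 * (n + 2 : ℕ)) ν 2 (X (.y none 0) ^ 2 * IN K (WW K ν v)) := by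
    rw [pow_two, mul_assoc]
    exact ((EE_IN (TT_WW hν hv)).mulS rfl rfl).mulS (by push_cast; ring) rfl
  have hw2 : TT ktw (q + 1) (2 * N + 2 * n + 2) ν 1 (X (.s q 0) * WW K ν u) :=
    TT_muls (TT_WW hν hu) rfl
  have hP2 : EE K (q + 1) (2 * N + 2 * (n + 2 : ℕ)) ν 2
      (X (.y none 0) ^ 1 * IN K (X (.s q 0) * WW K ν u)) := by
    rw [pow_one]
    exact (EE_IN hw2).mulS (by push_cast; ring) rfl
  obtain ⟨H, hH, hdH⟩ := E_exact ((hP.add hP2).add (EE_IN hh)) (by norm_num) (by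
    rw [map_add, map_add, dd_y2 (lf_WW (q + 1) ν v) (dd_WW ν hdv),
      dd_y1 (lf_s _ (lf_WW (q + 1) ν u)) (dd_sWW ν hu hdu), ← IN_dd kE_some, hdh, map_add,
      p2_add_self])
  have h1 := congrArg (cm (wn K) 2) hdH
  have hP1 : IW (wn K) (X (.y none 0) ^ 2 * IN K (WW K ν v)) 2 := by
    have := ((isWeightedHomogeneous_X (ZMod 2) (wn K) (Vr.y none 0)).pow 2).mul
      (IW_wn_IN (WW K ν v))
    exact this
  have hP3 : IW (wn K) (X (.y none 0) ^ 1 * IN K (X (.s q 0) * WW K ν u)) 1 := by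
    have := ((isWeightedHomogeneous_X (ZMod 2) (wn K) (Vr.y none 0)).pow 1).mul
      (IW_wn_IN (X (.s q 0) * WW K ν u))
    exact this
  rw [top_dm hH.lt, map_add, map_add, cm_IN two_ne_zero, add_zero, cm_same hP1,
    cm_ne hP3 (by norm_num), add_zero, ← WW_nx] at h1
  exact twInj hA hL (ν := nx ν 2) (by rw [sum_nx, hν]) (hH.comp 2) h1

/-- the product of two tangent coordinates times a cocycle is a coboundary only trivially -/
theorem j2InjU (q n : ℕ) : ∀ᶠ N in HD, ∀ (K : Type) [Fintype K] (ν : K → ℕ), ∑ c, ν c = n →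
    ∀ u : RR Empty, TT kun q N 0 0 u →
      dd kun q u = 0 → ∀ h : RR K, TT ktw (q + 1) (2 * N + 2 * (n + 2 : ℕ)) ν 2 h →
      dd ktw (q + 1) h = X (.s (q + 1) 0) * (X (.s q 0) * WW K ν u) →
      ∃ u', TT kun (q - 1) N 0 0 u' ∧ dm kun q u' = u := by
  filter_upwards [evHA q (n + 2), j1Inj q (n + 1),
    evHL q (n + 2) 0 (2 * (n + 2 : ℕ)) (by push_cast; linarith)] with N hA h1 hL
  intro K _ ν hν u hu hdu h hh hdh
  have hw2 : TT ktw (q + 1) (2 * N + 2 * n + 2) ν 1 (X (.s q 0) * WW K ν u) :=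
    TT_muls (TT_WW hν hu) rfl
  have hP2 : EE K (q + 1) (2 * N + 2 * (n + 2 : ℕ)) ν 2
      (X (.y none 0) ^ 1 * IN K (X (.s q 0) * WW K ν u)) := by
    rw [pow_one]
    exact (EE_IN hw2).mulS (by push_cast; ring) rfl
  obtain ⟨H, hH, hdH⟩ := E_exact (hP2.add (EE_IN hh)) (by norm_num) (by
    rw [map_add, dd_y1 (lf_s _ (lf_WW (q + 1) ν u)) (dd_sWW ν hu hdu), ← IN_dd kE_some, hdh,
      p2_add_self])
  have hdH' : dd kE q H = X (.y none 0) ^ 1 * IN K (X (.s q 0) * WW K ν u) + IN K h := hdH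
  have hHq : EE K q (2 * N + 2 * (n + 2 : ℕ)) ν 2 H := hH
  have hP3 : IW (wn K) (X (.y none 0) ^ 1 * IN K (X (.s q 0) * WW K ν u)) 1 := by
    have := ((isWeightedHomogeneous_X (ZMod 2) (wn K) (Vr.y none 0)).pow 1).mul
      (IW_wn_IN (X (.s q 0) * WW K ν u))
    exact this
  obtain ⟨v, hv, hdv, e, he, hce⟩ := twSurj hA hL (ν := nx ν 2) (by rw [sum_nx, hν])
    (hHq.comp 2) (by
      rw [← top_dd hHq.lt, hdH', map_add, cm_IN two_ne_zero, cm_ne hP3 (by norm_num), add_zero])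
  have hP : EE K q (2 * N + 2 * (n + 2 : ℕ)) ν 2 (X (.y none 0) ^ 2 * IN K (WW K ν v)) := by
    rw [pow_two, mul_assoc]
    exact ((EE_IN (TT_WW hν hv)).mulS rfl rfl).mulS (by push_cast; ring) rfl
  have hce' : cm (wn K) 2 H = X (.y none 0) ^ 2 * IN K (WW K ν v) + dm ktw q e := by
    rw [hce, ← WW_nx]; rfl
  obtain ⟨H', hH', hl, hdH2⟩ := strip le_rfl hHq hHq.lt hP he hce'
  rw [hdH', dd_y2 (lf_WW q ν v) (dd_WW ν hdv)] at hdH2
  have h2 := congrArg (cm (wn K) 1) hdH2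
  rw [top_dd hl, map_add, map_add, cm_IN one_ne_zero, cm_IN one_ne_zero, add_zero, add_zero,
    cm_same hP3] at h2
  refine h1 (Option K) (nx ν 1) (by rw [sum_nx, hν]) u hu hdu _ (hH'.comp 1) ?_
  rw [h2, WW_nx, map_mul, IN_s]
  ring

end Pool.Agent.Q171.ND3
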