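import Pool.Agent.Q171.ND3.Hc
import Pool.Agent.Q171.ND3.Df

/-!
The criterion for the third differential.
-/

set_option autoImplicit false
set_option linter.unusedSectionVars false

namespace Pool.Agent.Q171.ND3.St

open Finset MvPolynomial

/-- the properties of the differentials, with linear maps -/
structure DiffsL where
  d₂ : (s : ℕ) → Ext s →ₗ[ZMod 2] Ext (s + 2)
  deg : ∀ (s t : ℕ) (y : Ext s), y ∈ Deg s t → d₂ s y ∈ Deg (s + 2) (t + 1)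
  sq_zero : ∀ (s : ℕ) (y : Ext s), d₂ (s + 2) (d₂ s y) = 0
  mul_h0 : ∀ (s : ℕ) (y : Ext s), d₂ (s + 1) (h 0 s y) = h 0 (s + 2) (d₂ s y)
  bruner₂ : ∀ (s t : ℕ) (x : Z s), Even t → IsHom t x.1 →
    d₂ s (Sq0 s (cl x)) = h 0 (s + 1) (cl (Sq 1 x))
  d₃ : (s : ℕ) → Ext s → Ext (s + 3)
  bruner₃ : ∀ (s t : ℕ) (x : Z s), Even t → IsHom t x.1 →
    d₂ (s + 1) (Sq0 (s + 1) (cl (Sq 1 x))) = 0 →
      ∃ w : Ext (s + 2), d₃ (s + 1) (Sq0 (s + 1) (cl (Sq 1 x))) =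
        h 1 (s + 3) (cl (Sq 2 (Sq 1 x))) + d₂ (s + 2) w

/-- the square of a cocycle -/
noncomputable def fr {s : ℕ} (x : Z s) : Z s := ⟨frob x.1, frob_Z _ x.2⟩

theorem Sq0_fr {s : ℕ} (x : Z s) : Sq0 s (cl x) = cl (fr x) := rfl

theorem Sq0_iter {s : ℕ} (x : Z s) (n : ℕ) : (Sq0 s)^[n] (cl x) = cl (fr^[n] x) := by
  induction n with
  | zero => rfl
  | succ n ih => rw [Function.iterate_succ_apply', Function.iterate_succ_apply', ih, Sq0_fr]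

theorem fr_hom {s t : ℕ} {x : Z s} (hx : IsHom t x.1) (n : ℕ) : IsHom (2 ^ n * t) (fr^[n] x).1 := by
  induction n with
  | zero => simpa using hx
  | succ n ih =>
    rw [Function.iterate_succ_apply', pow_succ', mul_assoc]
    exact ih.pow 2

theorem faces_sq (A : Finset ℕ) (x : P) : faces A (x ^ 2) = faces A x ^ 2 := by
  have h1 : ∀ l : List ℕ, l.foldr (fun j y => face j y) (x ^ 2)
      = (l.foldr (fun j y => face j y) x) ^ 2 := by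
    intro l
    induction l with
    | nil => rfl
    | cons a l ih => rw [List.foldr_cons, List.foldr_cons, ih, map_pow]
  exact h1 _

theorem sqC_sq (k s : ℕ) (x : P) : sqC k s (x ^ 2) = sqC k s x ^ 2 := by
  have h1 : sqC k s x ^ 2 = frob (sqC k s x) := rfl
  rw [h1, sqC, sqC, map_sum]
  refine sum_congr rfl fun U _ => ?_
  rw [faces_sq, faces_sq, frob_apply, mul_pow]

theorem Sq_fr (k : ℕ) {s : ℕ} (x : Z s) : Sq k (fr x) = fr (Sq k x) :=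
  Subtype.ext (sqC_sq k s x.1)

theorem Sq_iter (k : ℕ) {s : ℕ} (x : Z s) (n : ℕ) : Sq k (fr^[n] x) = fr^[n] (Sq k x) := by
  induction n with
  | zero => rfl
  | succ n ih => rw [Function.iterate_succ_apply', Function.iterate_succ_apply', Sq_fr, ih]

theorem Sq_hom {k s t : ℕ} {x : Z s} (hx : IsHom t x.1) : IsHom (2 * t) (Sq k x).1 :=
  IsHom.sqC hx

theorem iter_zero {s : ℕ} (n : ℕ) : (Sq0 s)^[n] 0 = 0 := by
  induction n with
  | zero => rfl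
  | succ n ih => rw [Function.iterate_succ_apply', ih, map_zero]

theorem iter_up {s : ℕ} {y : Ext s} {a b : ℕ} (hab : a ≤ b) (hy : (Sq0 s)^[a] y = 0) :
    (Sq0 s)^[b] y = 0 := by
  obtain ⟨c, rfl⟩ := Nat.exists_eq_add_of_le hab
  rw [add_comm a c, Function.iterate_add_apply, hy, iter_zero]

/-- the criterion -/
theorem third_lin (s : ℕ) : ∃ J : ℕ, ∀ (D : DiffsL) (t : ℕ) (x : Z s), IsHom t x.1 →
    ∀ j, J ≤ j → D.d₂ (s + 1) ((Sq0 (s + 1))^[j] (cl (Sq 1 x))) = 0 ∧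
      ((∃ w, D.d₃ (s + 1) ((Sq0 (s + 1))^[j] (cl (Sq 1 x))) = D.d₂ (s + 2) w) ↔
        (Sq0 (s + 3))^[J] (cl (Sq 2 (Sq 1 x))) = 0) := by
  obtain ⟨r, hr⟩ := star_cl s
  obtain ⟨r', hr'⟩ := odd_cl (s + 1)
  refine ⟨r + r' + 3, fun D t x hx j hj => ?_⟩
  obtain ⟨m, rfl⟩ : ∃ m, j = m + 2 := ⟨j - 2, by omega⟩
  have hev : ∀ n, 1 ≤ n → Even (2 ^ n * t) := by
    intro n hn
    obtain ⟨n', rfl⟩ : ∃ n', n = n' + 1 := ⟨n - 1, by omega⟩
    rw [pow_succ', mul_assoc]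
    exact even_two_mul _
  -- `Sq¹ Sq¹` vanishes
  have h11 : cl (Sq 1 (Sq 1 (fr^[m + 1] x))) = 0 := by
    have hh := fr_hom hx (m + 1)
    have h1 := D.bruner₂ s _ (fr^[m + 2] x) (hev (m + 2) (by omega)) (fr_hom hx (m + 2))
    have h2 := congrArg (D.d₂ (s + 2)) h1
    rw [D.sq_zero, D.mul_h0, Function.iterate_succ_apply', Sq_fr, ← Sq0_fr,
      D.bruner₂ (s + 1) _ (Sq 1 (fr^[m + 1] x)) (even_two_mul _) (Sq_hom hh)] at h2
    refine (hr (2 * (2 ^ (m + 1) * t)) ?_ 0 (Sq 1 (Sq 1 (fr^[m + 1] x))) ?_ (Sq_hom (Sq_hom hh))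
      ?_).2
    · exact Dvd.dvd.mul_left (Dvd.dvd.mul_right (pow_dvd_pow 2 (by omega)) _) _
    · exact isWeightedHomogeneous_zero _ _ _
    · rw [map_zero, map_zero, map_zero]
      exact h2
  have hy : (Sq0 (s + 1))^[m + 2] (cl (Sq 1 x)) = Sq0 (s + 1) (cl (Sq 1 (fr^[m + 1] x))) := by
    rw [Function.iterate_succ_apply', Sq0_iter, Sq_iter]
  have hker : D.d₂ (s + 1) (Sq0 (s + 1) (cl (Sq 1 (fr^[m + 1] x)))) = 0 := by
    rw [D.bruner₂ (s + 1) _ (Sq 1 (fr^[m + 1] x)) (even_two_mul _)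
      (Sq_hom (fr_hom hx (m + 1))), h11, map_zero]
  rw [hy]
  refine ⟨hker, ?_⟩
  obtain ⟨w0, hw0⟩ := D.bruner₃ s _ (fr^[m + 1] x) (hev (m + 1) (by omega)) (fr_hom hx (m + 1)) hker
  have hz : cl (Sq 2 (Sq 1 (fr^[m + 1] x))) = (Sq0 (s + 3))^[m + 1] (cl (Sq 2 (Sq 1 x))) := by
    rw [Sq_iter, Sq_iter, Sq0_iter]
  rw [hz] at hw0
  have hz0 : IsHom (2 * (2 * t)) (Sq 2 (Sq 1 x)).1 := Sq_hom (Sq_hom hx)
  have hdesc : ∀ n, r ≤ n → (Sq0 (s + 3))^[n] (cl (Sq 2 (Sq 1 x))) = 0 →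
      (Sq0 (s + 3))^[r] (cl (Sq 2 (Sq 1 x))) = 0 := by
    intro n hn
    induction n, hn using Nat.le_induction with
    | base => exact id
    | succ n hn ih =>
      intro h1
      apply ih
      rw [Function.iterate_succ_apply', Sq0_iter] at h1
      rw [Sq0_iter]
      refine (hr (2 ^ n * (2 * (2 * t))) (Dvd.dvd.mul_right (pow_dvd_pow 2 hn) _)
        (fr^[n] (Sq 2 (Sq 1 x))) 0 (fr_hom hz0 n) (isWeightedHomogeneous_zero _ _ _) ?_).1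
      rw [h1, map_zero, map_zero, map_zero, map_zero]
  rw [hw0]
  constructor
  · rintro ⟨w1, hw1⟩
    have hw : D.d₂ (s + 2) (w1 - w0) = h 1 (s + 3) ((Sq0 (s + 3))^[m + 1] (cl (Sq 2 (Sq 1 x)))) := by
      rw [map_sub, ← hw1, add_sub_cancel_right]
    set w := w1 - w0
    have hN := fr_hom hz0 m
    rw [Function.iterate_succ_apply', Sq0_iter] at hw
    set N := 2 ^ m * (2 * (2 * t)) with hNd
    have hmem : h 1 (s + 3) (Sq0 (s + 3) (cl (fr^[m] (Sq 2 (Sq 1 x))))) ∈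
        Deg (s + 4) (2 * N + 2) := by
      rw [Sq0_cl, h_cl]
      exact ⟨_, (hN.pow 2).mul ((isHom_x (s + 3)).pow (2 ^ 1)), rfl⟩
    have hw' : D.d₂ (s + 2) (pj (2 * N + 1) (s + 2) w)
        = h 1 (s + 3) (Sq0 (s + 3) (cl (fr^[m] (Sq 2 (Sq 1 x))))) := by
      have h2 := pj_comm (D.d₂ (s + 2)) (D.deg (s + 2)) (2 * N + 1) w
      rw [← h2, hw]
      exact pj_same hmem
    obtain ⟨u, hu, hwu⟩ := hr' N
      (Dvd.dvd.mul_right (pow_dvd_pow 2 (by omega)) _) _ (pj_mem (2 * N + 1) (s + 2) w)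
    have hNe : Even N := by
      rw [hNd, mul_left_comm]
      exact even_two_mul _
    rw [hwu, D.mul_h0, D.bruner₂ (s + 1) N u hNe hu] at hw'
    have h3 := (hr N (Dvd.dvd.mul_right (pow_dvd_pow 2 (by omega)) _)
      (fr^[m] (Sq 2 (Sq 1 x))) (Sq 1 u) hN (Sq_hom hu) hw'.symm).1
    rw [← Sq0_iter] at h3
    exact iter_up (by omega) (hdesc m (by omega) h3)
  · intro h1
    refine ⟨w0, ?_⟩
    have h2 : (Sq0 (s + 3))^[m + 1] (cl (Sq 2 (Sq 1 x))) = 0 :=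
      iter_up (by omega) (hdesc _ (by omega) h1)
    rw [h2, map_zero, zero_add]

/-! ### The statement -/

theorem isDeg_iff {s t : ℕ} {y : Ext s} : IsDeg s t y ↔ y ∈ Deg s t := by
  constructor
  · rintro ⟨x, hx, rfl⟩
    exact ⟨x.toZ, hx, rfl⟩
  · rintro ⟨x, hx, rfl⟩
    exact ⟨⟨x.1, x.2.1, LinearMap.mem_ker.mp x.2.2⟩, hx, rfl⟩

/-- the linear version of the properties -/
noncomputable def Diffs.lin (D : Diffs) : DiffsL where
  d₂ s := AddMonoidHom.toZModLinearMap 2 (AddMonoidHom.mk' (D.d₂ s) (D.add s))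
  deg s t y hy := isDeg_iff.mp (D.deg s t y (isDeg_iff.mpr hy))
  sq_zero := D.sq_zero
  mul_h0 := D.mul_h0
  bruner₂ s t x ht hx := D.bruner₂ s t ⟨x.1, x.2.1, LinearMap.mem_ker.mp x.2.2⟩ ht hx
  d₃ := D.d₃
  bruner₃ s t x ht hx := D.bruner₃ s t ⟨x.1, x.2.1, LinearMap.mem_ker.mp x.2.2⟩ ht hx

theorem third (s : ℕ) : ∃ J : ℕ, ∀ (D : Diffs) (t : ℕ) (x : Cocycle s), IsHom t x.val →
    ∀ j, J ≤ j → D.d₂ (s + 1) (fam (s + 1) j (x.Sq 1).cls) = 0 ∧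
      (D.Survives₄ (s + 1) (fam (s + 1) j (x.Sq 1).cls) ↔
        fam (s + 3) J ((x.Sq 1).Sq 2).cls = 0) := by
  obtain ⟨J, hJ⟩ := third_lin s
  refine ⟨J, fun D t x hx j hj => ?_⟩
  obtain ⟨h1, h2⟩ := hJ D.lin t x.toZ hx j hj
  refine ⟨h1, ?_⟩
  constructor
  · rintro ⟨-, w, hw⟩
    exact h2.mp ⟨w, hw⟩
  · intro h3
    exact ⟨h1, h2.mpr h3⟩

end Pool.Agent.Q171.ND3.St
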