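import Pool.Agent.Q171.ND3.E

/-!
The cohomology of the cobar complex in highly divisible degrees plus one and plus two.
-/

set_option autoImplicit false
set_option linter.unusedSectionVars false

namespace Pool.Agent.Q171.ND3

open Finset MvPolynomial Pool.Agent.W624.Stz

/-- cochains of the cobar complex -/
abbrev CC (q : ℕ) (t : ℤ) (j : ℕ) (f : RR Empty) : Prop := TT (kun : Empty → Kd) q t 0 j f

/-- the differential of the cobar complex -/
noncomputable abbrev dk (q : ℕ) : RR Empty →ₗ[ZMod 2] RR Empty := dd (kun : Empty → Kd) q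

/-- the tangent derivation -/
noncomputable abbrev DD : Derivation (ZMod 2) (RR Empty) (RR Empty) := DX Empty

theorem WWe (ν : Empty → ℕ) (u : RR Empty) : WW Empty ν u = PHI Empty u := by
  have h : JJ Empty = AlgHom.id (ZMod 2) (RR Empty) := by
    apply algHom_ext
    intro v
    rw [AlgHom.id_apply]
    cases v with
    | x a n => exact JJ_x a n
    | s a n => exact JJ_s a n
    | y c n => exact c.elim
  rw [WW, YY, Fintype.prod_empty, one_mul, h, AlgHom.id_apply]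

theorem PHIe_dd (q : ℕ) (f : RR Empty) : PHI Empty (dk q f) = dk q (PHI Empty f) := by
  have := PHI_dd q f
  rwa [kk] at this

theorem DDe_dd (q : ℕ) (f : RR Empty) : DD (dk q f) = dk q (DD f) := by
  have : DX Empty (dd ktw q f) = dd ktw q (DX Empty f) := DX_dd q f
  rwa [kk] at this

theorem CC_PHI {q : ℕ} {N : ℤ} {u : RR Empty} (hu : CC q N 0 u) : CC q (2 * N) 0 (PHI Empty u) := by
  have := TT_PHI hu
  rwa [kk] at this

theorem CC_DX {q : ℕ} {t t' : ℤ} {j : ℕ} {f : RR Empty} (hf : CC q t j f) (h : t + 1 = t') :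
    CC q t' (j + 1) (DD f) := by
  subst h
  exact TT.DX hf

theorem CC.x {q : ℕ} {t t' : ℤ} {j : ℕ} {f : RR Empty} (hf : CC q t j f) (h : t + 1 = t') :
    CC (q + 1) t' j (X (.x q 0) * f) := TT_mulx hf h

theorem CC.s {q : ℕ} {t t' : ℤ} {j : ℕ} {f : RR Empty} (hf : CC q t j f) (h : t + 2 = t') :
    CC (q + 1) t' (j + 1) (X (.s q 0) * f) := TT_muls hf h

/-- every cocycle of highly divisible degree is a square up to a coboundary -/
theorem e_sq (q : ℕ) : ∀ᶠ N in HD, ∀ f, CC (q + 1) (2 * N) 0 f → dk (q + 1) f = 0 →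
    ∃ u, CC (q + 1) N 0 u ∧ dk (q + 1) u = 0 ∧ ∃ h, CC q (2 * N) 0 h ∧
      f = PHI Empty u + dk q h := by
  filter_upwards [evHA (q + 1) 0, evHL (q + 1) 0 0 (2 * (0 : ℕ)) (by norm_num)] with N hA hL
  intro f hf hdf
  obtain ⟨u, hu, hdu, h, hh, he⟩ := twSurj hA hL (K := Empty) (ν := 0) (by simp) (f := f)
    (by rw [kk]; simpa using hf) (by rw [kk]; exact hdf)
  have he2 : f = PHI Empty u + dd ktw q h := by
    have h3 : YY (0 : Empty → ℕ) * JJ Empty (PHI Empty u) = PHI Empty u := WWe 0 u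
    rw [h3] at he
    exact he
  rw [kk] at he2 hh
  exact ⟨u, hu, hdu, h, by simpa using hh, he2⟩

/-- every cocycle of highly divisible degree plus one is a multiple of `h₀` -/
theorem e_odd (q : ℕ) : ∀ᶠ N in HD, ∀ f, CC (q + 1) (2 * N + 1) 0 f → dk (q + 1) f = 0 →
    ∃ u, CC q N 0 u ∧ dk q u = 0 ∧ ∃ h, CC q (2 * N + 1) 0 h ∧
      f = X (.x q 0) * PHI Empty u + dk q h := by
  filter_upwards [oddSurj q 0] with N h1
  intro f hf hdf
  obtain ⟨u, hu, hdu, h, hh, he⟩ := h1 Empty 0 (by simp) f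
    (by rw [kk]; simpa using hf) (by rw [kk]; exact hdf)
  rw [kk] at he hh
  rw [WWe] at he
  exact ⟨u, hu, hdu, h, by simpa using hh, he⟩

theorem e_j1odd (q : ℕ) : ∀ᶠ N in HD, ∀ f, CC (q + 2) (2 * N + 3) 1 f → dk (q + 2) f = 0 →
    ∃ u, CC q N 0 u ∧ dk q u = 0 ∧ ∃ h, CC (q + 1) (2 * N + 3) 1 h ∧
      f = X (.s (q + 1) 0) * (X (.x q 0) * PHI Empty u) + dk (q + 1) h := by
  filter_upwards [j1odd q 0] with N h1
  have hN : 2 * N + (2 * ((0 + 1 : ℕ) : ℤ) + 1) = 2 * N + 3 := by norm_num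
  rw [hN] at h1
  intro f hf hdf
  obtain ⟨u, hu, hdu, h, hh, he⟩ := h1 Empty 0 (by simp) f
    (by rw [kk]; exact hf) (by rw [kk]; exact hdf)
  rw [kk] at he hh
  rw [WWe] at he
  exact ⟨u, hu, hdu, h, hh, he⟩

theorem e_j2Surj (q : ℕ) : ∀ᶠ N in HD, ∀ f, CC (q + 2) (2 * N + 4) 2 f → dk (q + 2) f = 0 →
    ∃ v, CC (q + 1) N 0 v ∧ dk (q + 1) v = 0 ∧ ∃ u, CC q N 0 u ∧ dk q u = 0 ∧
      ∃ h, CC (q + 1) (2 * N + 4) 2 h ∧
      f = X (.s (q + 1) 0) ^ 2 * PHI Empty v + X (.s (q + 1) 0) * (X (.s q 0) * PHI Empty u)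
        + dk (q + 1) h := by
  filter_upwards [j2Surj q 0] with N h1
  have hN : 2 * N + 2 * ((0 + 2 : ℕ) : ℤ) = 2 * N + 4 := by norm_num
  rw [hN] at h1
  intro f hf hdf
  obtain ⟨v, hv, hdv, u, hu, hdu, h, hh, he⟩ := h1 Empty 0 (by simp) f
    (by rw [kk]; exact hf) (by rw [kk]; exact hdf)
  rw [kk] at he hh
  rw [WWe, WWe] at he
  exact ⟨v, hv, hdv, u, hu, hdu, h, hh, he⟩

theorem e_j2InjV (q : ℕ) : ∀ᶠ N in HD, ∀ v u, CC (q + 1) N 0 v → dk (q + 1) v = 0 →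
    CC q N 0 u → dk q u = 0 → ∀ h, CC (q + 1) (2 * N + 4) 2 h →
    dk (q + 1) h = X (.s (q + 1) 0) ^ 2 * PHI Empty v
      + X (.s (q + 1) 0) * (X (.s q 0) * PHI Empty u) →
    ∃ v', CC q N 0 v' ∧ dk q v' = v := by
  filter_upwards [j2InjV q 0] with N h1
  have hN : 2 * N + 2 * ((0 + 2 : ℕ) : ℤ) = 2 * N + 4 := by norm_num
  rw [hN] at h1
  intro v u hv hdv hu hdu h hh hd
  exact h1 Empty 0 (by simp) v u hv hdv hu hdu h (by rw [kk]; exact hh) (by
    rw [kk, WWe, WWe]; exact hd)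

theorem e_j2InjU (q : ℕ) : ∀ᶠ N in HD, ∀ u, CC (q + 1) N 0 u → dk (q + 1) u = 0 →
    ∀ h, CC (q + 2) (2 * N + 4) 2 h →
    dk (q + 2) h = X (.s (q + 2) 0) * (X (.s (q + 1) 0) * PHI Empty u) →
    ∃ u', CC q N 0 u' ∧ dk q u' = u := by
  filter_upwards [j2InjU (q + 1) 0] with N h1
  have hN : 2 * N + 2 * ((0 + 2 : ℕ) : ℤ) = 2 * N + 4 := by norm_num
  rw [hN] at h1
  intro u hu hdu h hh hd
  exact h1 Empty 0 (by simp) u hu hdu h (by rw [kk]; exact hh) (by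
    rw [kk, WWe]; exact hd)

theorem e_h0inj (p : ℕ) : ∀ᶠ N in HD, ∀ z q, CC (p + 1) N 0 z → CC (p + 1) (2 * N + 1) 0 q →
    dk (p + 1) q = X (.x (p + 1) 0) * PHI Empty z → ∃ z', CC p N 0 z' ∧ dk p z' = z := by
  obtain ⟨r, h1, h2⟩ := exists_r0 p
  refine hd_of r fun N hN z q hz hq hd => ?_
  exact h0_inj h1 h2 hN hz hq (by rw [← PHI_sq]; exact hd)

end Pool.Agent.Q171.ND3
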