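import Pool.Agent.Q171.ND3.F

/-!
`h₁ Sq⁰ z = h₀² v` implies `z = 0` and `v = 0` in highly divisible degrees.
-/

set_option autoImplicit false
set_option linter.unusedSectionVars false

namespace Pool.Agent.Q171.ND3

open Finset MvPolynomial Pool.Agent.W624.Stz

theorem dk_PHI {q : ℕ} {u : RR Empty} (hu : dk q u = 0) : dk q (PHI Empty u) = 0 := by
  rw [← PHIe_dd, hu, map_zero]

theorem dk_xx {q : ℕ} {f : RR Empty} {t : ℤ} {j : ℕ} (hf : CC q t j f) :
    dk (q + 2) (X (.x (q + 1) 0) * (X (.x q 0) * f))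
      = X (.x (q + 2) 0) * (X (.x (q + 1) 0) * dk q f) := by
  rw [dd_x (q + 1) (hf.x rfl).cu, dd_x q hf.cu]

theorem dk_sx {q : ℕ} {f : RR Empty} {t : ℤ} {j : ℕ} (hf : CC q t j f) :
    dk (q + 2) (X (.s (q + 1) 0) * (X (.x q 0) * f))
      = X (.s (q + 2) 0) * (X (.x (q + 1) 0) * dk q f) := by
  rw [dd_s (q + 1) (hf.x rfl).cu, dd_x q hf.cu]

theorem dk_xsf {q : ℕ} {f : RR Empty} {t : ℤ} {j : ℕ} (hf : CC q t j f) (hd : dk q f = 0) :
    dk (q + 1) (X (.x q 0) * (X (.s q 0) * f))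
      = X (.x q 0) * (X (.s (q + 1) 0) * f) + X (.x (q + 1) 0) * (X (.s q 0) * f) := by
  have h := dd_xs q hf.cu
  have hd' : dd (kun : Empty → Kd) q f = 0 := hd
  rw [hd', mul_zero, zero_add, mul_assoc] at h
  rw [h]
  ring

theorem DD_PHI (u : RR Empty) : DD (PHI Empty u) = 0 := DX_PHI u

theorem DD_x (a : ℕ) (f : RR Empty) :
    DD (X (.x a 0) * f) = X (.x a 0) * DD f + X (.s a 0) * f := by
  rw [Derivation.leibniz, DX_x, smul_eq_mul, smul_eq_mul]
  ring

theorem DD_s (a : ℕ) (f : RR Empty) : DD (X (.s a 0) * f) = X (.s a 0) * DD f := by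
  rw [Derivation.leibniz, DX_s, smul_zero, add_zero, smul_eq_mul]

/-- the derivation of `h₀² u` -/
theorem DD_xx (q : ℕ) (u : RR Empty) :
    DD (X (.x (q + 1) 0) * (X (.x q 0) * PHI Empty u))
      = X (.x (q + 1) 0) * (X (.s q 0) * PHI Empty u)
        + X (.s (q + 1) 0) * (X (.x q 0) * PHI Empty u) := by
  rw [DD_x, DD_x, DD_PHI, mul_zero, zero_add]

theorem CC.sub' {q : ℕ} {t : ℤ} {j : ℕ} {f g : RR Empty} (hf : CC q t j f) (hg : CC q t j g) :
    CC q t j (f - g) := TT.sub hf hg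

theorem CC.dk {q : ℕ} {t : ℤ} {j : ℕ} {f : RR Empty} (hf : CC q t j f) :
    CC (q + 1) t j (dk q f) := TT.dd naf_un hf

theorem dk_dk {q : ℕ} {t : ℤ} {j : ℕ} {f : RR Empty} (hf : CC q t j f) :
    dk (q + 1) (dk q f) = 0 := dd_dd _ hf.cu

/-- the part of the argument which kills `v` -/
theorem killV (q : ℕ) : ∀ᶠ N in HD, ∀ w v y, CC (q + 2) N 0 v → dk (q + 2) v = 0 →
    CC (q + 3) (2 * N + 2) 0 y →
    dk (q + 3) y = PHI Empty w + X (.x (q + 3) 0) * (X (.x (q + 2) 0) * PHI Empty v) →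
    ∃ v', CC (q + 1) N 0 v' ∧ dk (q + 1) v' = v := by
  filter_upwards [e_j1odd (q + 1), e_j2InjV (q + 1)] with N h1 h2
  intro w v y hv hdv hy hdy
  set a : RR Empty := X (.x (q + 2) 0) * (X (.s (q + 2) 0) * PHI Empty v) with ha
  have hPv := CC_PHI hv
  have haT : CC (q + 3) (2 * N + 3) 1 a := by
    have h3 : CC (q + 3) (2 * N + 3) 1 (X (.x (q + 2) 0) * (X (.s (q + 2) 0) * PHI Empty v)) := by
      have h4 := hPv.s rfl
      have h5 : CC (q + 3) (2 * N + 2) 1 (X (.s (q + 2) 0) * PHI Empty v) := h4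
      refine ⟨?_, ?_⟩
      · rw [map_mul, h5.cu]
        congr 1
        refine (ev_X _ _).trans ?_
        simp only [co, cpt]
        rw [if_pos (by omega)]
        rfl
      · have := (isWeightedHomogeneous_X (ZMod 2) (wF (kun : Empty → Kd))
          (Vr.x (q + 2) 0)).mul h5.iw
        have h2 : wF (kun : Empty → Kd) (Vr.x (q + 2) 0) + (2 * N + 2, (0, 1))
            = (2 * N + 3, (0, 1)) := by
          refine Prod.ext ?_ (Prod.ext ?_ ?_)
          · simp only [wF, wG, Prod.fst_add]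
            ring
          · exact Subsingleton.elim _ _
          · simp [wF, wG]
        rwa [h2] at this
    exact h3
  have hda : dk (q + 3) a = X (.x (q + 2) 0) * (X (.s (q + 3) 0) * PHI Empty v)
      + X (.x (q + 3) 0) * (X (.s (q + 2) 0) * PHI Empty v) := dk_xsf hPv (dk_PHI hdv)
  have hDy : CC (q + 3) (2 * N + 3) 1 (DD y) := CC_DX hy (by ring)
  have hdDy : dk (q + 3) (DD y) = X (.x (q + 3) 0) * (X (.s (q + 2) 0) * PHI Empty v)
        + X (.s (q + 3) 0) * (X (.x (q + 2) 0) * PHI Empty v) := by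
    rw [← DDe_dd, hdy, map_add, DD_PHI, zero_add, DD_xx]
  obtain ⟨u, hu, hdu, e, he, hce⟩ := h1 (DD y + a) (hDy.add haT) (by
    rw [map_add, hda, hdDy]
    have e1 := p2_add_self (X (.x (q + 3) 0) * (X (.s (q + 2) 0) * PHI Empty v))
    have e2 := p2_add_self (X (.s (q + 3) 0) * (X (.x (q + 2) 0) * PHI Empty v))
    linear_combination e1 + e2)
  have hD := congrArg DD hce
  have hDa : DD a = X (.s (q + 2) 0) ^ 2 * PHI Empty v := by
    rw [ha, DD_x, DD_s, DD_PHI]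
    ring
  have hDD : DD (DD y) = 0 := DX_DX y
  rw [map_add, hDD, zero_add, hDa, map_add, DD_s, DD_x, DD_PHI, mul_zero, zero_add, DDe_dd] at hD
  refine h2 v u hv hdv hu hdu (DD e) (CC_DX he (by ring)) ?_
  have e3 := p2_add_self (X (.s (q + 2) 0) * (X (.s (q + 1) 0) * PHI Empty u))
  have e4 := p2_add_self (dk (q + 2) (DD e))
  change dk (q + 2) (DD e) = _
  rw [hD]
  linear_combination (-1 : RR Empty) * e3

end Pool.Agent.Q171.ND3
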