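import Pool.Agent.Q171.ND3.G

/-!
`h₁ Sq⁰ z = h₀² v` implies `z = 0` and `v = 0` in highly divisible degrees.
-/

set_option autoImplicit false
set_option linter.unusedSectionVars false

namespace Pool.Agent.Q171.ND3

open Finset MvPolynomial Pool.Agent.W624.Stz

theorem CC_xs {q : ℕ} {t t' : ℤ} {j : ℕ} {f : RR Empty} (hf : CC q t j f) (ht : t + 3 = t') :
    CC (q + 1) t' (j + 1) (X (.x q 0) * (X (.s q 0) * f)) := by
  have h5 : CC (q + 1) (t + 2) (j + 1) (X (.s q 0) * f) := hf.s rfl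
  refine ⟨?_, ?_⟩
  · rw [map_mul, h5.cu]
    congr 1
    refine (ev_X _ _).trans ?_
    simp only [co, cpt]
    rw [if_pos (by omega)]
    rfl
  · have := (isWeightedHomogeneous_X (ZMod 2) (wF (kun : Empty → Kd)) (Vr.x q 0)).mul h5.iw
    have h2 : wF (kun : Empty → Kd) (Vr.x q 0) + (t + 2, (0, j + 1)) = (t', (0, j + 1)) := by
      subst ht
      refine Prod.ext ?_ (Prod.ext ?_ ?_)
      · simp only [wF, wG, Prod.fst_add]
        ring
      · exact Subsingleton.elim _ _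
      · simp [wF, wG]
    rwa [h2] at this

/-- if `x²` is a coboundary in the degree `2 N + 2`, then `x` is a coboundary -/
theorem killZ (q : ℕ) : ∀ᶠ N in HD, ∀ w y, CC (q + 3) (2 * N + 2) 0 y →
    dk (q + 3) y = PHI Empty w → ∃ y', CC (q + 3) (N + 1) 0 y' ∧ dk (q + 3) y' = w := by
  filter_upwards [e_j1odd (q + 1), e_j2InjU q, e_j2Surj q,
    evHL (q + 1) 0 2 4 (by norm_num)] with N h1 h2 h3 hL
  intro w y hy hdy
  have hDy : CC (q + 3) (2 * N + 3) 1 (DD y) := CC_DX hy (by ring)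
  obtain ⟨u, hu, hdu, e, he, hce⟩ := h1 (DD y) hDy (by
    change dk (q + 3) (DD y) = 0
    rw [← DDe_dd, hdy, DD_PHI])
  have hDD : DD (DD y) = 0 := DX_DX y
  have hD := congrArg DD hce
  rw [hDD, map_add, DD_s, DD_x, DD_PHI, mul_zero, zero_add, DDe_dd] at hD
  obtain ⟨u', hu', hdu'⟩ := h2 u hu hdu (DD e) (CC_DX he (by ring)) (by
    have e3 := p2_add_self (X (.s (q + 2) 0) * (X (.s (q + 1) 0) * PHI Empty u))
    have e4 : X (.s (q + 2) 0) * (X (.s (q + 1) 0) * PHI Empty u) + dk (q + 2) (DD e) = 0 :=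
      hD.symm
    linear_combination e4 - e3)
  -- the first correction
  have hPu' := CC_PHI hu'
  have hsx : dk (q + 2) (X (.s (q + 1) 0) * (X (.x q 0) * PHI Empty u'))
      = X (.s (q + 2) 0) * (X (.x (q + 1) 0) * PHI Empty u) := by
    rw [dk_sx hPu', ← PHIe_dd, hdu']
  set e2 := e + X (.s (q + 1) 0) * (X (.x q 0) * PHI Empty u') with he2
  have he2T : CC (q + 2) (2 * N + 3) 1 e2 := he.add ((hPu'.x rfl).s (by ring))
  have hy2 : DD y = dk (q + 2) e2 := by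
    rw [he2, map_add, hsx, hce]
    ring
  -- the second correction
  have hDe2 : CC (q + 2) (2 * N + 4) 2 (DD e2) := CC_DX he2T (by ring)
  obtain ⟨v2, hv2, hdv2, u2, hu2, hdu2, e3, he3, hce3⟩ := h3 (DD e2) hDe2 (by
    rw [← DDe_dd, ← hy2, hDD])
  have hPv2 := CC_PHI hv2
  have hPu2 := CC_PHI hu2
  set y3 := y + X (.x (q + 2) 0) * (X (.x (q + 1) 0) * PHI Empty v2) with hy3
  have hy3T : CC (q + 3) (2 * N + 2) 0 y3 := hy.add ((hPv2.x rfl).x (by ring))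
  have hdy3 : dk (q + 3) y3 = PHI Empty w := by
    rw [hy3, map_add, hdy, dk_xx hPv2, dk_PHI hdv2, mul_zero, mul_zero, add_zero]
  set e4 := e2 + X (.x (q + 1) 0) * (X (.s (q + 1) 0) * PHI Empty v2)
    + X (.s (q + 1) 0) * (X (.x q 0) * PHI Empty u2) with he4
  have he4T : CC (q + 2) (2 * N + 3) 1 e4 :=
    (he2T.add (CC_xs hPv2 rfl)).add ((hPu2.x rfl).s (by ring))
  have hDy3 : DD y3 = dk (q + 2) e4 := by
    rw [hy3, he4, map_add, map_add, map_add, hy2, DD_xx, dk_xsf hPv2 (dk_PHI hdv2), dk_sx hPu2,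
      dk_PHI hdu2, mul_zero, mul_zero, add_zero]
    ring
  have hDe4 : DD e4 = dk (q + 1) e3 := by
    rw [he4, map_add, map_add, hce3, DD_x, DD_s, DD_s, DD_x, DD_PHI, DD_PHI]
    have f1 := p2_add_self (X (.s (q + 1) 0) ^ 2 * PHI Empty v2)
    have f2 := p2_add_self (X (.s (q + 1) 0) * (X (.s q 0) * PHI Empty u2))
    linear_combination f1 + f2
  -- lifting
  obtain ⟨h5, hh5, hT5, hD5⟩ := lift_cob (K := Empty) (q + 1) 0 1 3 N hL (ν := 0) (by simp)
    (f := e4) (h1 := e3) (by rw [kk]; exact he4T) (by rw [kk]; exact he3) (by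
      rw [kk]; exact hDe4)
  rw [kk] at hh5 hT5 hD5
  have hT5' : TT ktw (q + 2) (2 * N + 2 + 1) 0 (0 + 1) (e4 - dk (q + 1) h5) := by
    rw [kk]
    have : 2 * N + 2 + 1 = 2 * N + 3 := by ring
    rw [this]; exact hT5
  obtain ⟨h6, hh6, hD6⟩ := DX_exact hT5' hD5
  rw [kk] at hh6
  have hh6' : CC (q + 2) (2 * N + 2) 0 h6 := hh6
  have hy4T : CC (q + 3) (2 * N + 2) 0 (y3 - dk (q + 2) h6) := hy3T.sub' hh6'.dk
  have hdy4 : dk (q + 3) (y3 - dk (q + 2) h6) = PHI Empty w := by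
    have h7 : dk (q + 3) (dk (q + 2) h6) = 0 := dk_dk hh6'
    rw [map_sub, hdy3, h7, sub_zero]
  have hDy4 : DD (y3 - dk (q + 2) h6) = 0 := by
    have h7 : dk (q + 2) (dk (q + 1) h5) = 0 := dk_dk (show CC (q + 1) (2 * N + 3) 1 h5 from hh5)
    rw [map_sub, hDy3, DDe_dd, hD6, map_sub, h7, sub_zero, sub_self]
  rcases PHI_root (K := Empty) (q := q + 3) (t := 2 * N + 2) (ν := 0) (by rw [kk]; exact hy4T)
    hDy4 with h0 | ⟨t', ht', z, hz, hzg⟩
  · rw [h0, map_zero] at hdy4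
    exact ⟨0, TT.zero, by rw [map_zero, PHI_inj hdy4.symm]⟩
  · have ht2 : t' = N + 1 := by linarith
    rw [ht2] at hz
    refine ⟨z, hz, ?_⟩
    have h1 : PHI _ (dk (q + 3) z + w) = 0 := by
      rw [map_add, PHIe_dd, hzg, hdy4, p2_add_self]
    exact p2_eq_of_add (PHI_inj h1)

/-- `h₁ Sq⁰ z = h₀² v` implies that `z` and `v` are coboundaries -/
theorem star (q : ℕ) : ∀ᶠ N in HD, ∀ z v y, CC (q + 3) N 0 z → dk (q + 3) z = 0 →
    CC (q + 2) (2 * N) 0 v → dk (q + 2) v = 0 → CC (q + 3) (2 * N + 2) 0 y →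
    dk (q + 3) y = X (.x (q + 3) 0) ^ 2 * PHI Empty z
      + X (.x (q + 3) 0) * (X (.x (q + 2) 0) * v) →
    (∃ z', CC (q + 2) N 0 z' ∧ dk (q + 2) z' = z) ∧
      ∃ v', CC (q + 1) (2 * N) 0 v' ∧ dk (q + 1) v' = v := by
  filter_upwards [e_sq (q + 1), killV q, killZ q, hd_half (e_sq (q + 2)),
    hd_half (e_h0inj (q + 2))] with N h1 h2 h3 h4 h5
  intro z v y hz hdz hv hdv hy hdy
  obtain ⟨v1, hv1, hdv1, e0, he0, hve⟩ := h1 v hv hdv
  have hxz : PHI Empty (X (.x (q + 3) 0) * z) = X (.x (q + 3) 0) ^ 2 * PHI Empty z := by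
    rw [map_mul, PHI_x]
  have hxx := dk_xx he0
  have hy1T : CC (q + 3) (2 * N + 2) 0 (y + X (.x (q + 2) 0) * (X (.x (q + 1) 0) * e0)) :=
    hy.add ((he0.x rfl).x (by ring))
  have hdy1 : dk (q + 3) (y + X (.x (q + 2) 0) * (X (.x (q + 1) 0) * e0))
      = PHI Empty (X (.x (q + 3) 0) * z)
        + X (.x (q + 3) 0) * (X (.x (q + 2) 0) * PHI Empty v1) := by
    have hxx' : dk (q + 3) (X (.x (q + 2) 0) * (X (.x (q + 1) 0) * e0))
      = X (.x (q + 3) 0) * (X (.x (q + 2) 0) * dk (q + 1) e0) := hxx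
    rw [map_add, hdy, hxx', hve, hxz]
    have f1 := p2_add_self (X (.x (q + 3) 0) * (X (.x (q + 2) 0) * dk (q + 1) e0))
    linear_combination f1
  obtain ⟨v0, hv0, hdv0⟩ := h2 _ v1 _ hv1 hdv1 hy1T hdy1
  have hPv0 := CC_PHI hv0
  have hy2T : CC (q + 3) (2 * N + 2) 0 (y + X (.x (q + 2) 0) * (X (.x (q + 1) 0) * e0)
      + X (.x (q + 2) 0) * (X (.x (q + 1) 0) * PHI Empty v0)) :=
    hy1T.add ((hPv0.x rfl).x (by ring))
  have hdy2 : dk (q + 3) (y + X (.x (q + 2) 0) * (X (.x (q + 1) 0) * e0)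
      + X (.x (q + 2) 0) * (X (.x (q + 1) 0) * PHI Empty v0))
      = PHI Empty (X (.x (q + 3) 0) * z) := by
    have hxx' : dk (q + 3) (X (.x (q + 2) 0) * (X (.x (q + 1) 0) * PHI Empty v0))
      = X (.x (q + 3) 0) * (X (.x (q + 2) 0) * dk (q + 1) (PHI Empty v0)) := dk_xx hPv0
    rw [map_add, hdy1, hxx', ← PHIe_dd, hdv0]
    have f1 := p2_add_self (X (.x (q + 3) 0) * (X (.x (q + 2) 0) * PHI Empty v1))
    linear_combination f1
  obtain ⟨y', hy', hdy'⟩ := h3 _ _ hy2T hdy2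
  refine ⟨?_, PHI Empty v0 + e0, hPv0.add he0, ?_⟩
  · obtain ⟨M, hM, h4⟩ := h4
    obtain ⟨M', hM', h5⟩ := h5
    have : M' = M := by linarith
    subst this
    rw [hM] at hz
    obtain ⟨z6, hz6, hdz6, e6, he6, hze⟩ := h4 z hz hdz
    have hq : CC (q + 3) (2 * M' + 1) 0 (y' + X (.x (q + 2) 0) * e6) := by
      rw [hM] at hy'
      exact hy'.add (he6.x rfl)
    obtain ⟨z7, hz7, hdz7⟩ := h5 z6 (y' + X (.x (q + 2) 0) * e6) hz6 hq (by
      have h6 : dk (q + 3) (X (.x (q + 2) 0) * e6) = X (.x (q + 3) 0) * dk (q + 2) e6 :=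
        dd_x (q + 2) he6.cu
      change dk (q + 3) _ = _
      rw [map_add, hdy', h6, hze]
      have f1 := p2_add_self (X (.x (q + 3) 0) * dk (q + 2) e6)
      change _ = X (.x (q + 3) 0) * PHI Empty z6
      linear_combination f1)
    refine ⟨PHI Empty z7 + e6, ?_, ?_⟩
    · rw [hM]
      exact (CC_PHI hz7).add he6
    · rw [map_add, ← PHIe_dd, hdz7, hze]
  · rw [map_add, ← PHIe_dd, hdv0, hve]

end Pool.Agent.Q171.ND3
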