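import Pool.Agent.Q171.ND3.Op

/-!
Homogeneous components, and the results of the library on classes.
-/

set_option autoImplicit false
set_option linter.unusedSectionVars false

namespace Pool.Agent.Q171.ND3.St

open Finset MvPolynomial Pool.Agent.W624.Stz

/-! ### Homogeneous components -/

/-- the homogeneous component of degree `t` -/
noncomputable def cmp (t : ℕ) : P →ₗ[ZMod 2] P :=
  weightedHomogeneousComponent (fun p : ℕ × ℕ => 2 ^ (p.2 + 1) - 1) t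

theorem cmp_same {t : ℕ} {x : P} (hx : IsHom t x) : cmp t x = x :=
  IsWeightedHomogeneous.weightedHomogeneousComponent_same hx

theorem cmp_ne {t u : ℕ} {x : P} (hx : IsHom t x) (h : u ≠ t) : cmp u x = 0 :=
  IsWeightedHomogeneous.weightedHomogeneousComponent_ne u hx h

theorem cmp_hom (t : ℕ) (x : P) : IsHom t (cmp t x) :=
  weightedHomogeneousComponent_isWeightedHomogeneous t x

theorem exists_sum (x : P) : ∃ S : Finset ℕ, x = ∑ t ∈ S, cmp t x := by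
  have h1 := sum_weightedHomogeneousComponent (fun p : ℕ × ℕ => 2 ^ (p.2 + 1) - 1) x
  have h2 := weightedHomogeneousComponent_finsupp (w := fun p : ℕ × ℕ => 2 ^ (p.2 + 1) - 1) x
  refine ⟨h2.toFinset, ?_⟩
  conv_lhs => rw [← h1]
  exact finsum_eq_sum _ h2

/-- graded maps commute with the components -/
theorem cmp_comm {k : ℕ} (L : P →ₗ[ZMod 2] P) (hL : ∀ t x, IsHom t x → IsHom (t + k) (L x))
    (t : ℕ) (x : P) : cmp (t + k) (L x) = L (cmp t x) := by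
  obtain ⟨S, hS⟩ := exists_sum x
  have h1 : cmp (t + k) (L x) = ∑ u ∈ S, cmp (t + k) (L (cmp u x)) := by
    conv_lhs => rw [hS, map_sum, map_sum]
  have h2 : cmp t x = ∑ u ∈ S, cmp t (cmp u x) := by
    conv_lhs => rw [hS, map_sum]
  rw [h1, h2, map_sum]
  refine sum_congr rfl fun u _ => ?_
  by_cases h : u = t
  · subst h
    rw [cmp_same (hL _ _ (cmp_hom _ _)), cmp_same (cmp_hom _ _)]
  · rw [cmp_ne (hL _ _ (cmp_hom u x)) (by omega), cmp_ne (cmp_hom u x) (Ne.symm h), map_zero]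

theorem cmp_C {s t : ℕ} {x : P} (hx : x ∈ C s) : cmp t x ∈ C s := by
  have hx' : ↑x.vars ⊆ {p : ℕ × ℕ | p.1 < s} := mem_supported.mp hx
  refine mem_supported.mpr ?_
  intro p hp
  rw [mem_coe, mem_vars_iff_mem_support] at hp
  obtain ⟨e, he, hpe⟩ := hp
  refine hx' (mem_coe.mpr ((mem_vars_iff_mem_support _).mpr ⟨e, ?_, hpe⟩))
  rw [mem_support_iff] at he ⊢
  rw [cmp, coeff_weightedHomogeneousComponent] at he
  intro h
  rw [h, ite_self] at he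
  exact he rfl

theorem IsHom.d {t : ℕ} {x : P} (hx : IsHom t x) (s : ℕ) : IsHom t (St.d s x) := by
  rw [St.d, LinearMap.sum_apply]
  exact IsWeightedHomogeneous.sum _ _ _ fun j _ => hx.face j

theorem cmp_d (s t : ℕ) (x : P) : cmp t (d s x) = d s (cmp t x) :=
  cmp_comm (k := 0) (d s) (fun _ _ h => h.d s) t x

theorem cmp_Z {s t : ℕ} (x : P) (hx : x ∈ Z s) : cmp t x ∈ Z s :=
  ⟨cmp_C hx.1, LinearMap.mem_ker.mpr (by rw [← cmp_d, LinearMap.mem_ker.mp hx.2, map_zero])⟩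

theorem cmp_B {s t : ℕ} (x : P) (hx : x ∈ B s) : cmp t x ∈ B s := by
  cases s with
  | zero =>
    rw [B, Submodule.mem_bot] at hx ⊢
    rw [hx, map_zero]
  | succ s =>
    obtain ⟨y, hy, rfl⟩ := hx
    exact ⟨cmp t y, cmp_C hy, (cmp_d s t y).symm⟩

/-- the projection to the homogeneous part -/
noncomputable def pj (t s : ℕ) : Ext s →ₗ[ZMod 2] Ext s := induced (cmp t) cmp_Z cmp_B

theorem pj_mem (t s : ℕ) (y : Ext s) : pj t s y ∈ Deg s t := by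
  obtain ⟨x, rfl⟩ := Submodule.mkQ_surjective _ y
  exact ⟨⟨cmp t x.1, cmp_Z _ x.2⟩, cmp_hom _ _, rfl⟩

theorem pj_same {t s : ℕ} {y : Ext s} (hy : y ∈ Deg s t) : pj t s y = y := by
  obtain ⟨x, hx, rfl⟩ := hy
  rw [pj, induced_cl]
  congr 1
  exact Subtype.ext (cmp_same hx)

theorem pj_ne {t u s : ℕ} {y : Ext s} (hy : y ∈ Deg s t) (h : u ≠ t) : pj u s y = 0 := by
  obtain ⟨x, hx, rfl⟩ := hy
  rw [pj, induced_cl]
  have : (⟨cmp u x.1, cmp_Z _ x.2⟩ : Z s) = 0 := Subtype.ext (cmp_ne hx h)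
  rw [this, map_zero]

theorem pj_sum {s : ℕ} (y : Ext s) : ∃ S : Finset ℕ, y = ∑ t ∈ S, pj t s y := by
  obtain ⟨x, rfl⟩ := Submodule.mkQ_surjective _ y
  obtain ⟨S, hS⟩ := exists_sum x.1
  refine ⟨S, ?_⟩
  have h1 : x = ∑ t ∈ S, (⟨cmp t x.1, cmp_Z _ x.2⟩ : Z s) := by
    refine Subtype.ext ?_
    rw [AddSubmonoidClass.coe_finsetSum]
    exact hS
  have h2 : cl x = ∑ t ∈ S, cl (⟨cmp t x.1, cmp_Z _ x.2⟩ : Z s) := by
    conv_lhs => rw [h1, map_sum]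
  exact h2

/-- graded maps of the cohomology commute with the projections -/
theorem pj_comm {s s' k : ℕ} (L : Ext s →ₗ[ZMod 2] Ext s')
    (hL : ∀ t y, y ∈ Deg s t → L y ∈ Deg s' (t + k)) (t : ℕ) (y : Ext s) :
    pj (t + k) s' (L y) = L (pj t s y) := by
  obtain ⟨S, hS⟩ := pj_sum y
  have h1 : pj (t + k) s' (L y) = ∑ u ∈ S, pj (t + k) s' (L (pj u s y)) := by
    conv_lhs => rw [hS, map_sum, map_sum]
  have h2 : pj t s y = ∑ u ∈ S, pj t s (pj u s y) := by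
    conv_lhs => rw [hS, map_sum]
  rw [h1, h2, map_sum]
  refine sum_congr rfl fun u _ => ?_
  by_cases h : u = t
  · subst h
    rw [pj_same (hL _ _ (pj_mem _ _ _)), pj_same (pj_mem _ _ _)]
  · rw [pj_ne (hL _ _ (pj_mem u s y)) (by omega), pj_ne (pj_mem u s y) (Ne.symm h), map_zero]

/-! ### Classes and the library -/

theorem Sq0_cl {s : ℕ} (x : Z s) : Sq0 s (cl x) = cl ⟨frob x.1, frob_Z _ x.2⟩ := rfl

theorem h_cl (i : ℕ) {s : ℕ} (x : Z s) : h i s (cl x) = cl ⟨mulh i s x.1, mulh_Z _ x.2⟩ := rfl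

theorem cl_eq_zero {s : ℕ} {x : Z s} : cl x = 0 ↔ x.1 ∈ B s :=
  Submodule.Quotient.mk_eq_zero ((B s).submoduleOf (Z s))

theorem po_dk {s : ℕ} {t : ℤ} {f : RR Empty} (hf : CC s t 0 f) : po (dk s f) = d s (po f) := by
  have h1 := jo_d (C_po hf.cu)
  rw [jo_po hf] at h1
  rw [← h1, po_jo]

theorem IsHom.mul {t u : ℕ} {x y : P} (hx : IsHom t x) (hy : IsHom u y) : IsHom (t + u) (x * y) :=
  IsWeightedHomogeneous.mul hx hy

theorem IsHom.pow {t : ℕ} {x : P} (hx : IsHom t x) (n : ℕ) : IsHom (n * t) (x ^ n) := by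
  have := IsWeightedHomogeneous.pow hx n
  rwa [smul_eq_mul] at this

theorem isHom_x (a : ℕ) : IsHom 1 (X (a, 0) : P) := by
  have h := isWeightedHomogeneous_X (ZMod 2) (fun p : ℕ × ℕ => 2 ^ (p.2 + 1) - 1) ((a, 0) : ℕ × ℕ)
  exact h

theorem jo_sq (x : P) : jo (x ^ 2) = PHI Empty (jo x) := by rw [PHI_sq, map_pow]

theorem hd_nat {P : ℤ → Prop} (h : ∀ᶠ N in HD, P N) :
    ∃ r : ℕ, ∀ N : ℕ, 2 ^ r ∣ N → P (N : ℤ) := by
  obtain ⟨r, hr⟩ := of_hd h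
  refine ⟨r, fun N hN => hr N ?_⟩
  have := Int.natCast_dvd_natCast.mpr hN
  rwa [Nat.cast_pow] at this

/-- classes of highly divisible degree plus one are multiples of `h₀` -/
theorem odd_cl (q : ℕ) : ∃ r : ℕ, ∀ N : ℕ, 2 ^ r ∣ N → ∀ w ∈ Deg (q + 1) (2 * N + 1),
    ∃ u : Z q, IsHom N u.1 ∧ w = h 0 q (Sq0 q (cl u)) := by
  obtain ⟨r, hr⟩ := hd_nat (e_odd q)
  refine ⟨r, fun N hN w hw => ?_⟩
  obtain ⟨x, hx, rfl⟩ := hw
  have hxT := CC_jo x.2.1 hx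
  have hdx : dk (q + 1) (jo x.1) = 0 := by
    rw [← jo_d x.2.1, LinearMap.mem_ker.mp x.2.2, map_zero]
  push_cast at hxT
  obtain ⟨u, hu, hdu, g, hg, he⟩ := hr N hN (jo x.1) hxT hdx
  have hpu : po u ∈ C q := C_po hu.cu
  have hdu' : d q (po u) = 0 := by rw [← po_dk hu, hdu, map_zero]
  refine ⟨⟨po u, hpu, LinearMap.mem_ker.mpr hdu'⟩, IsHom_po hu, ?_⟩
  rw [Sq0_cl, h_cl, ← sub_eq_zero, ← map_sub, cl_eq_zero]
  refine ⟨po g, C_po hg.cu, ?_⟩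
  rw [← po_dk hg]
  have h2 := congrArg po he
  rw [po_jo, map_add, map_mul, po_x, PHI_sq, map_pow] at h2
  change po (dk q g) = x.1 - (po u) ^ 2 * X (q, 0) ^ 2 ^ 0
  rw [h2, pow_zero, pow_one]
  ring

/-- `h₁ Sq⁰ z = h₀² v` implies that `z` and `v` vanish -/
theorem star_cl (q : ℕ) : ∃ r : ℕ, ∀ N : ℕ, 2 ^ r ∣ N → ∀ (z : Z (q + 3)) (v : Z (q + 2)),
    IsHom N z.1 → IsHom (2 * N) v.1 →
    h 1 (q + 3) (Sq0 (q + 3) (cl z)) = h 0 (q + 3) (h 0 (q + 2) (cl v)) →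
    cl z = 0 ∧ cl v = 0 := by
  obtain ⟨r, hr⟩ := hd_nat (star q)
  refine ⟨r, fun N hN z v hz hv he => ?_⟩
  have hzT := CC_jo z.2.1 hz
  have hvT := CC_jo v.2.1 hv
  have hdz : dk (q + 3) (jo z.1) = 0 := by
    rw [← jo_d z.2.1, LinearMap.mem_ker.mp z.2.2, map_zero]
  have hdv : dk (q + 2) (jo v.1) = 0 := by
    rw [← jo_d v.2.1, LinearMap.mem_ker.mp v.2.2, map_zero]
  rw [Sq0_cl, h_cl, h_cl, h_cl, ← sub_eq_zero, ← map_sub, cl_eq_zero] at he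
  obtain ⟨y, hy, hdy⟩ := he
  have hdy' : d (q + 3) y = z.1 ^ 2 * X (q + 3, 0) ^ 2 ^ 1
      - v.1 * X (q + 2, 0) ^ 2 ^ 0 * X (q + 3, 0) ^ 2 ^ 0 := hdy
  have hh1 : IsHom (2 * N + 2) (z.1 ^ 2 * X (q + 3, 0) ^ 2 ^ 1 : P) := by
    have h1 := (hz.pow 2).mul ((isHom_x (q + 3)).pow (2 ^ 1))
    exact h1
  have hh2 : IsHom (2 * N + 2) (v.1 * X (q + 2, 0) ^ 2 ^ 0 * X (q + 3, 0) ^ 2 ^ 0 : P) := by
    have h1 := (hv.mul ((isHom_x (q + 2)).pow (2 ^ 0))).mul ((isHom_x (q + 3)).pow (2 ^ 0))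
    exact h1
  have hdy2 : d (q + 3) (cmp (2 * N + 2) y) = z.1 ^ 2 * X (q + 3, 0) ^ 2
      - v.1 * X (q + 2, 0) * X (q + 3, 0) := by
    rw [← cmp_d, hdy', map_sub, cmp_same hh1, cmp_same hh2]
    simp only [pow_zero, pow_one]
  have hyT := CC_jo (cmp_C (t := 2 * N + 2) hy) (cmp_hom _ _)
  push_cast at hvT hyT
  have hdyj : dk (q + 3) (jo (cmp (2 * N + 2) y)) = X (.x (q + 3) 0) ^ 2 * PHI Empty (jo z.1)
      + X (.x (q + 3) 0) * (X (.x (q + 2) 0) * jo v.1) := by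
    rw [← jo_d (cmp_C hy), hdy2, map_sub, map_mul, map_mul, map_mul, jo_sq, map_pow, jo_X, jo_X]
    have e1 := p2_add_self (X (.x (q + 3) 0) * (X (.x (q + 2) 0) * jo v.1))
    linear_combination (-1 : RR Empty) * e1
  obtain ⟨⟨z', hz', hdz'⟩, v', hv', hdv'⟩ := hr N hN (jo z.1) (jo v.1) _ hzT hdz hvT hdv hyT hdyj
  constructor
  · rw [cl_eq_zero]
    refine ⟨po z', C_po hz'.cu, ?_⟩
    rw [← po_dk hz', hdz', po_jo]
  · rw [cl_eq_zero]
    refine ⟨po v', C_po hv'.cu, ?_⟩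
    rw [← po_dk hv', hdv', po_jo]

end Pool.Agent.Q171.ND3.St
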