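import Pool.Agent.Q171.ND3.Re

/-!
Closure properties of the cobar complex.
-/

set_option autoImplicit false
set_option linter.unusedSectionVars false

namespace Pool.Agent.Q171.ND3.St

open Finset MvPolynomial Pool.Agent.W624.Stz

theorem mem_C {s : ℕ} {x : P} : x ∈ C s ↔ x ∈ supported (ZMod 2) {p : ℕ × ℕ | p.1 < s} :=
  Iff.rfl

theorem C_mul {s : ℕ} {x y : P} (hx : x ∈ C s) (hy : y ∈ C s) : x * y ∈ C s :=
  Subalgebra.mul_mem _ hx hy

theorem C_pow {s : ℕ} {x : P} (hx : x ∈ C s) (n : ℕ) : x ^ n ∈ C s :=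
  Subalgebra.pow_mem _ hx n

theorem C_X {s a : ℕ} (n : ℕ) (h : a < s) : (X (a, n) : P) ∈ C s := X_mem_supported.mpr h

theorem C_ξ {s a : ℕ} (n : ℕ) (h : a < s) : ξ a n ∈ C s := by
  cases n with
  | zero => exact Subalgebra.one_mem _
  | succ n => exact C_X n h

theorem C_mono {s s' : ℕ} (h : s ≤ s') {x : P} (hx : x ∈ C s) : x ∈ C s' := by
  have h1 : {p : ℕ × ℕ | p.1 < s} ⊆ {p : ℕ × ℕ | p.1 < s'} :=
    fun p hp => lt_of_lt_of_le (show p.1 < s from hp) h
  exact supported_mono h1 hx

/-- a ring homomorphism maps cochains to cochains if it does so with the variables -/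
theorem C_hom {s s' : ℕ} (f : P →ₐ[ZMod 2] P) (h : ∀ a n, a < s → f (X (a, n)) ∈ C s') {x : P}
    (hx : x ∈ C s) : f x ∈ C s' := by
  have h1 : (supported (ZMod 2) {p : ℕ × ℕ | p.1 < s}).map f
      ≤ supported (ZMod 2) {p : ℕ × ℕ | p.1 < s'} := by
    rw [supported, AlgHom.map_adjoin]
    refine Algebra.adjoin_le ?_
    rintro _ ⟨_, ⟨p, hp, rfl⟩, rfl⟩
    exact h p.1 p.2 hp
  exact h1 (Subalgebra.mem_map.mpr ⟨x, hx, rfl⟩)

theorem C_face {s : ℕ} (j : ℕ) {x : P} (hx : x ∈ C s) : face j x ∈ C (s + 1) := by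
  refine C_hom (face j) (fun a n ha => ?_) hx
  rw [face, aeval_X]
  simp only
  split_ifs with h1 h2
  · exact C_ξ _ (by omega)
  · exact C_ξ _ (by omega)
  · exact Submodule.sum_mem _ fun i _ =>
      C_mul (C_pow (C_ξ _ (by omega)) _) (C_ξ _ (by omega))

theorem C_faces {s : ℕ} (A : Finset ℕ) {x : P} (hx : x ∈ C s) : faces A x ∈ C (s + A.card) := by
  have h : ∀ l : List ℕ, l.foldr (fun j y => face j y) x ∈ C (s + l.length) := by
    intro l
    induction l with
    | nil => simpa using hx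
    | cons a l ih =>
      rw [List.foldr_cons, List.length_cons, ← add_assoc]
      exact C_face a ih
  have := h (A.sort (· ≥ ·))
  rwa [Finset.length_sort] at this

theorem C_sqC {k s : ℕ} {x : P} (hx : x ∈ C s) : sqC k s x ∈ C (s + k) := by
  refine Submodule.sum_mem _ fun U hU => ?_
  rw [mem_filter] at hU
  have h0 := C_faces (ev0 U) hx
  have h1 := C_faces (ev1 U) hx
  rw [hU.2.1] at h0
  rw [hU.2.2] at h1
  exact C_mul h0 h1

theorem C_d {s : ℕ} {x : P} (hx : x ∈ C s) : d s x ∈ C (s + 1) := by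
  rw [d, LinearMap.sum_apply]
  exact Submodule.sum_mem _ fun j _ => C_face j hx

/-! ### Comparison with the library -/

theorem cut_jo {s : ℕ} {x : P} (hx : x ∈ C s) : cut Empty s (jo x) = jo x := by
  have h1 : supported (ZMod 2) {p : ℕ × ℕ | p.1 < s} ≤
      AlgHom.equalizer ((cut Empty s).comp jo) jo := by
    rw [supported]
    refine Algebra.adjoin_le ?_
    rintro _ ⟨p, hp, rfl⟩
    change cut Empty s (jo (X (p.1, p.2))) = jo (X (p.1, p.2))
    rw [jo_X]
    refine (ev_X _ _).trans ?_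
    simp only [co, cpt]
    rw [if_pos (show p.1 < s from hp)]
    rfl
  exact h1 hx

theorem C_po {q : ℕ} {f : RR Empty} (hf : cut Empty q f = f) : po f ∈ C q := by
  rw [← hf]
  have h1 : ∀ g : RR Empty, po (cut Empty q g) ∈ C q := by
    intro g
    have h2 : (⊤ : Subalgebra (ZMod 2) (RR Empty)) ≤ (supported (ZMod 2)
        {p : ℕ × ℕ | p.1 < q}).comap (po.comp (cut Empty q)) := by
      rw [← adjoin_range_X]
      refine Algebra.adjoin_le ?_
      rintro _ ⟨v, rfl⟩
      change po (cut Empty q (X v)) ∈ C q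
      have h3 : cut Empty q (X v) = co (cpt q (uni Empty)) v := ev_X _ v
      rw [h3]
      cases v with
      | x a n =>
        simp only [co, cpt]
        split_ifs with h
        · change po (X (.x a n)) ∈ C q
          rw [po_x]
          exact C_X n h
        · rw [one_g, e1, if_neg (by omega), map_zero]
          exact zero_mem _
      | s a n =>
        simp only [co, cpt]
        split_ifs with h
        · change po (X (.s a n)) ∈ C q
          have : po (X (.s a n)) = 0 := aeval_X _ _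
          rw [this]
          exact zero_mem _
        · rw [one_s]
          change po 0 ∈ C q
          rw [map_zero]
          exact zero_mem _
      | y c n => exact c.elim
    exact h2 (Algebra.mem_top (x := g))
  exact h1 f

/-- the faces of the library -/
theorem ev_fc {s j : ℕ} (hj : j ≤ s) (f : RR Empty) :
    ev (fc (act kun) s j (uni Empty)) f = FF (om j) f := by
  rw [FF]
  congr 2
  refine Prod.ext ?_ (funext fun c => c.elim)
  funext a
  cases j with
  | zero =>
    rw [fc_zero]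
    simp only [zz, om]
    rw [if_neg (by omega), if_neg (by omega), Nat.add_sub_cancel_left, pr_one]
  | succ k =>
    rw [fc_mid _ (by omega)]
    simp only [zz, om]
    rcases lt_trichotomy a k with h | h | h
    · rw [mrg_lt h, if_pos (by omega), if_pos (by omega), Nat.add_sub_cancel_left, pr_one]
    · subst h
      rw [mrg_eq, if_pos (by omega), if_neg (by omega), show a + 1 + 1 - a = 2 by omega, pr_two]
    · rw [mrg_gt h, if_neg (by omega), if_neg (by omega), Nat.add_sub_cancel_left, pr_one]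

theorem jo_d {s : ℕ} {x : P} (hx : x ∈ C s) : jo (d s x) = dk s (jo x) := by
  have hc := cut_jo hx
  rw [d, LinearMap.sum_apply, map_sum, dk, dd_apply, sum_range_succ, sum_range_succ (n := s + 1)]
  congr 1
  · refine sum_congr rfl fun j hj => ?_
    rw [mem_range] at hj
    rw [ev_fc (by omega)]
    exact jo_face j x
  · have h1 : ev (fc (act kun) s (s + 1) (uni Empty)) (jo x) = jo x := by
      have h := dep_of_cut hc _ _ (Pool.Agent.W624.ND.agr_last s (uni Empty) (s + 1) (by omega))
      simp only at h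
      rw [h, ev_uni]
    rw [h1]
    have h2 : FF (om (s + 1)) (jo x) = jo x := by
      have h := dep_of_cut hc (zz (om (s + 1))) (uni Empty) ⟨fun a ha => by
        simp only [zz, om]
        rw [if_pos (by omega), if_pos (by omega), Nat.add_sub_cancel_left, pr_one], rfl⟩
      simp only at h
      rw [FF, h, ev_uni]
    exact (jo_face (s + 1) x).trans h2

theorem IsHom.face {t : ℕ} {x : P} (hx : IsHom t x) (j : ℕ) : IsHom t (St.face j x) := by
  refine IW.aeval' (AddMonoidHom.id ℕ) (St.face j) (w := fun p : ℕ × ℕ => 2 ^ (p.2 + 1) - 1)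
    (w' := fun p : ℕ × ℕ => 2 ^ (p.2 + 1) - 1) ?_ hx
  rintro ⟨a, n⟩
  have hξ : ∀ b m, IW (fun p : ℕ × ℕ => 2 ^ (p.2 + 1) - 1) (ξ b m) (2 ^ m - 1) := by
    intro b m
    cases m with
    | zero => exact IW.one' _
    | succ m => exact isWeightedHomogeneous_X _ _ _
  rw [St.face, aeval_X]
  simp only [AddMonoidHom.id_apply]
  split_ifs
  · exact hξ _ _
  · exact hξ _ _
  · refine IsWeightedHomogeneous.sum _ _ _ fun i hi => ?_
    rw [mem_range] at hi
    have h1 := ((hξ a (n + 1 - i)).pow (2 ^ i)).mul (hξ (a + 1) i)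
    have h2 : 2 ^ i • (2 ^ (n + 1 - i) - 1) + (2 ^ i - 1) = 2 ^ (n + 1) - 1 := by
      rw [smul_eq_mul, Nat.mul_sub, mul_one, ← pow_add, show i + (n + 1 - i) = n + 1 by omega]
      have h3 : 2 ^ i ≤ 2 ^ (n + 1) := Nat.pow_le_pow_right (by norm_num) (by omega)
      have h4 : 1 ≤ 2 ^ i := Nat.one_le_two_pow
      omega
    rwa [h2] at h1

theorem IsHom.faces {t : ℕ} {x : P} (hx : IsHom t x) (A : Finset ℕ) :
    IsHom t (St.faces A x) := by
  have h : ∀ l : List ℕ, IsHom t (l.foldr (fun j y => St.face j y) x) := by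
    intro l
    induction l with
    | nil => exact hx
    | cons a l ih => exact IsHom.face ih a
  exact h _

theorem IsHom.sqC {t k s : ℕ} {x : P} (hx : IsHom t x) : IsHom (2 * t) (St.sqC k s x) := by
  refine IsWeightedHomogeneous.sum _ _ _ fun U _ => ?_
  rw [two_mul]
  exact (hx.faces _).mul (hx.faces _)

/-- homogeneous cochains as members of the complex of the library -/
theorem CC_jo {s t : ℕ} {x : P} (hx : x ∈ C s) (hh : IsHom t x) : CC s (t : ℤ) 0 (jo x) := by
  refine ⟨cut_jo hx, ?_⟩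
  let h : ℕ →+ ℤ × ((Empty → ℕ) × ℕ) :=
    { toFun := fun n => ((n : ℤ), (0, 0))
      map_zero' := rfl
      map_add' := fun a b => by
        refine Prod.ext ?_ (Prod.ext ?_ rfl)
        · push_cast; rfl
        · simp }
  have h1 : IW (wF (kun : Empty → Kd)) (jo x) (h t) := by
    refine IW.aeval' h jo (w := fun p : ℕ × ℕ => 2 ^ (p.2 + 1) - 1) (w' := wF kun) ?_ hh
    rintro ⟨a, n⟩
    rw [jo_X]
    have h2 := isWeightedHomogeneous_X (ZMod 2) (wF (kun : Empty → Kd)) (Vr.x a n)
    have h3 : wF (kun : Empty → Kd) (Vr.x a n) = h (2 ^ (n + 1) - 1) := by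
      refine Prod.ext ?_ rfl
      change (2 : ℤ) ^ (n + 1) - 1 = ((2 ^ (n + 1) - 1 : ℕ) : ℤ)
      rw [Nat.cast_sub Nat.one_le_two_pow]
      push_cast
      ring
    rwa [h3] at h2
  exact h1

theorem IsHom_po {s t : ℕ} {f : RR Empty} (hf : CC s (t : ℤ) 0 f) : IsHom t (po f) := by
  have h1 : IW (wF (kun : Empty → Kd)) (jo (po f)) ((t : ℤ), (0, 0)) := by
    rw [jo_po hf]; exact hf.iw
  intro e he
  have hinj : Function.Injective (fun p : ℕ × ℕ => (Vr.x p.1 p.2 : Vr Empty)) := by
    rintro ⟨a, n⟩ ⟨b, m⟩ h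
    simp only [Vr.x.injEq] at h
    exact Prod.ext h.1 h.2
  have hjo : jo (po f) = rename (fun p : ℕ × ℕ => (Vr.x p.1 p.2 : Vr Empty)) (po f) := by
    rw [rename_eq_aeval]
    rfl
  rw [hjo] at h1
  have h2 := h1 (d := Finsupp.mapDomain (fun p : ℕ × ℕ => (Vr.x p.1 p.2 : Vr Empty)) e) (by
    rw [coeff_rename_mapDomain _ hinj]; exact he)
  have h3 := congrArg Prod.fst h2
  rw [Finsupp.weight_apply, Finsupp.sum_mapDomain_index_inj hinj] at h3
  rw [Finsupp.weight_apply]
  have h4 : ((e.sum fun i c => c • (2 ^ (i.2 + 1) - 1) : ℕ) : ℤ) = t := by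
    refine Eq.trans ?_ h3
    rw [Finsupp.sum, Finsupp.sum, Prod.fst_sum, Nat.cast_sum]
    refine sum_congr rfl fun p _ => ?_
    rw [Prod.smul_fst, smul_eq_mul, Nat.cast_mul, nsmul_eq_mul, Nat.cast_sub Nat.one_le_two_pow]
    simp only [wF, wG]
    push_cast
    ring
  exact_mod_cast h4

end Pool.Agent.Q171.ND3.St
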