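import Pool.Agent.Q171.ND3.Ol

/-!
The operations on the cohomology of the cobar complex: `Sq^k`, multiplication by `h_i`.
-/

set_option autoImplicit false
set_option linter.unusedSectionVars false

namespace Pool.Agent.Q171.ND3.St

open Finset MvPolynomial

/-- `Sq^k` on cocycles: the cup-`(s-k)` square, a cocycle of degree `s + k`. -/
noncomputable def Sq (k : ℕ) {s : ℕ} (x : Z s) : Z (s + k) :=
  ⟨sqC k s x.1, C_sqC x.2.1, LinearMap.mem_ker.mpr (d_sqC k s (LinearMap.mem_ker.mp x.2.2))⟩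

/-- The map of the cohomology induced by a linear map of cochains which maps cocycles to cocycles
and coboundaries to coboundaries. -/
noncomputable def induced {s s' : ℕ} (f : P →ₗ[ZMod 2] P) (hZ : ∀ x ∈ Z s, f x ∈ Z s')
    (hB : ∀ x ∈ B s, f x ∈ B s') : Ext s →ₗ[ZMod 2] Ext s' :=
  Submodule.mapQ _ _ (f.restrict hZ) fun x hx => hB x.1 hx

theorem induced_cl {s s' : ℕ} {f : P →ₗ[ZMod 2] P} (hZ : ∀ x ∈ Z s, f x ∈ Z s')
    (hB : ∀ x ∈ B s, f x ∈ B s') (x : Z s) : induced f hZ hB (cl x) = cl ⟨f x.1, hZ _ x.2⟩ := rfl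

/-! ### The Frobenius -/

/-- Squaring of cochains, `[a₁|…|aₛ] ↦ [a₁²|…|aₛ²]`. -/
noncomputable def frob : P →ₗ[ZMod 2] P where
  toFun x := x ^ 2
  map_add' x y := by rw [add_pow_char]
  map_smul' c x := by
    have hc : c ^ 2 = c := by revert c; decide
    rw [smul_pow, hc, RingHom.id_apply]

theorem frob_apply (x : P) : frob x = x ^ 2 := rfl

theorem d_frob (s : ℕ) (x : P) : d s (frob x) = frob (d s x) := by
  rw [d, LinearMap.sum_apply, LinearMap.sum_apply, map_sum]
  refine sum_congr rfl fun j _ => ?_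
  simp only [AlgHom.toLinearMap_apply, frob_apply, map_pow]

theorem frob_Z {s : ℕ} (x : P) (hx : x ∈ Z s) : frob x ∈ Z s :=
  ⟨C_pow hx.1 2, LinearMap.mem_ker.mpr (by rw [d_frob, LinearMap.mem_ker.mp hx.2, map_zero])⟩

theorem frob_B {s : ℕ} (x : P) (hx : x ∈ B s) : frob x ∈ B s := by
  cases s with
  | zero =>
    rw [B, Submodule.mem_bot] at hx ⊢
    rw [hx, map_zero]
  | succ s =>
    obtain ⟨y, hy, rfl⟩ := hx
    exact ⟨frob y, C_pow hy 2, d_frob s y⟩

/-- `Sq⁰`, which maps the class of `x` to the class of `x²`. -/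
noncomputable def Sq0 (s : ℕ) : Ext s →ₗ[ZMod 2] Ext s := induced frob frob_Z frob_B

/-! ### Multiplication by `h_i` -/

/-- Multiplication with `ξ₁ ^ (2 ^ i)` in the slot `s`: right multiplication of cochains of degree
`s` by `[ξ₁ ^ (2 ^ i)]`. -/
noncomputable def mulh (i s : ℕ) : P →ₗ[ZMod 2] P :=
  LinearMap.mulRight (ZMod 2) (X (s, 0) ^ 2 ^ i)

theorem mulh_apply (i s : ℕ) (x : P) : mulh i s x = x * X (s, 0) ^ 2 ^ i := rfl

theorem face_of_C {s j : ℕ} {x : P} (hx : x ∈ C s) (hj : s < j) : face j x = x := by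
  have h1 : supported (ZMod 2) {p : ℕ × ℕ | p.1 < s} ≤
      AlgHom.equalizer (face j) (AlgHom.id (ZMod 2) P) := by
    rw [supported]
    refine Algebra.adjoin_le ?_
    rintro _ ⟨p, hp, rfl⟩
    have hp' : p.1 < s := hp
    change face j (X p) = X p
    rw [face, aeval_X, if_pos (by omega)]
    rfl
  exact h1 hx

theorem d_mulh {i s : ℕ} {x : P} (hx : x ∈ C s) :
    d (s + 1) (mulh i s x) = mulh i (s + 1) (d s x) := by
  have h2 : ∀ a : P, a + a = 0 := fun a => CharTwo.add_self_eq_zero a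
  have hlo : ∀ j, j ≤ s → face j (X (s, 0)) = (X (s + 1, 0) : P) := by
    intro j hj
    rw [face, aeval_X]
    simp only
    rw [if_neg (by omega), if_pos hj]
    rfl
  have hmid : face (s + 1) (X (s, 0)) = (X (s, 0) + X (s + 1, 0) : P) := by
    rw [face, aeval_X]
    simp only
    rw [if_neg (by omega), if_neg (by omega), zero_add, sum_range_succ, sum_range_one]
    simp [ξ]
  have hhi : face (s + 1 + 1) (X (s, 0)) = (X (s, 0) : P) := by
    rw [face, aeval_X]
    simp only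
    rw [if_pos (by omega)]
    rfl
  have e1 : d (s + 1) (mulh i s x) = ∑ j ∈ range (s + 1), face j (mulh i s x)
      + face (s + 1) (mulh i s x) + face (s + 1 + 1) (mulh i s x) := by
    rw [d, LinearMap.sum_apply, sum_range_succ, sum_range_succ]
    rfl
  have e2 : d s x = ∑ j ∈ range (s + 1), face j x + face (s + 1) x := by
    rw [d, LinearMap.sum_apply, sum_range_succ]
    rfl
  have e3 : ∑ j ∈ range (s + 1), face j (mulh i s x)
      = (∑ j ∈ range (s + 1), face j x) * X (s + 1, 0) ^ 2 ^ i := by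
    rw [sum_mul]
    refine sum_congr rfl fun j hj => ?_
    rw [mem_range] at hj
    rw [mulh_apply, map_mul, map_pow, hlo j (by omega)]
  rw [e1, e2, e3]
  simp only [mulh_apply, map_mul, map_pow]
  rw [hmid, hhi, face_of_C hx (show s < s + 1 by omega),
    face_of_C hx (show s < s + 1 + 1 by omega), add_pow_char_pow]
  linear_combination h2 (x * X (s, 0) ^ 2 ^ i)

theorem mulh_C {i s : ℕ} {x : P} (hx : x ∈ C s) : mulh i s x ∈ C (s + 1) :=
  C_mul (C_mono (Nat.le_succ s) hx) (C_pow (C_X 0 (Nat.lt_succ_self s)) _)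

theorem mulh_Z {i s : ℕ} (x : P) (hx : x ∈ Z s) : mulh i s x ∈ Z (s + 1) :=
  ⟨mulh_C hx.1, LinearMap.mem_ker.mpr (by rw [d_mulh hx.1, LinearMap.mem_ker.mp hx.2, map_zero])⟩

theorem mulh_B {i s : ℕ} (x : P) (hx : x ∈ B s) : mulh i s x ∈ B (s + 1) := by
  cases s with
  | zero =>
    rw [B, Submodule.mem_bot] at hx
    rw [hx, map_zero]
    exact Submodule.zero_mem _
  | succ s =>
    obtain ⟨y, hy, rfl⟩ := hx
    exact ⟨mulh i s y, mulh_C hy, d_mulh hy⟩

/-- Multiplication by `h_i`, which maps the class of `[a₁|…|aₛ]` to the class of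
`[a₁|…|aₛ|ξ₁ ^ (2 ^ i)]`. -/
noncomputable def h (i s : ℕ) : Ext s →ₗ[ZMod 2] Ext (s + 1) :=
  induced (mulh i s) mulh_Z mulh_B

end Pool.Agent.Q171.ND3.St
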