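import Pool.Agent.Q171.ND3.Df

/-!
Permanent cycles and survivors: the properties which are used.
-/

set_option autoImplicit false

namespace Pool.Agent.Q171.ND3.St

/-- Sets of classes with some properties of the permanent cycles and of the surviving classes of the
Adams spectral sequence of the sphere. -/
structure Survivors where
  /-- the permanent cycles on the `s`-line of the `E₂`-page -/
  perm : (s : ℕ) → Set (Ext s)
  /-- the classes on the `s`-line of the `E₂`-page which survive to `E_∞` -/
  surv : (s : ℕ) → Set (Ext s)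
  /-- surviving classes are nonzero permanent cycles -/
  of_surv : ∀ (s : ℕ) (y : Ext s), y ∈ surv s → y ∈ perm s ∧ y ≠ 0
  /-- a nonzero permanent cycle in `Ext^{s,t}` which does not survive is hit by a differential
  `d_r`, `r ≥ 2`, so that `Ext^{s-r,t-r+1}` is not zero -/
  hit : ∀ (s t : ℕ) (y : Ext s), IsDeg s t y → y ∈ perm s → y ≠ 0 → y ∉ surv s →
    ∃ r s' t' : ℕ, 2 ≤ r ∧ s' + r = s ∧ t' + r = t + 1 ∧ ∃ z : Ext s', IsDeg s' t' z ∧ z ≠ 0

end Pool.Agent.Q171.ND3.St
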