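import Pool.Agent.Q171.ND3.En
import Pool.Agent.Q171.ND3.Pf

/-!
The groups `Ext^{s,2^j t}` for large `j`.
-/

set_option autoImplicit false
set_option linter.unusedSectionVars false

namespace Pool.Agent.Q171.ND3.St

open Finset MvPolynomial Pool.Agent.W624.Stz

/-! ### Finiteness -/

theorem fin_exp (s t : ℕ) : {e : ℕ × ℕ →₀ ℕ | (∀ p ∈ e.support, p.1 < s) ∧
    Finsupp.weight (fun p : ℕ × ℕ => 2 ^ (p.2 + 1) - 1) e = t}.Finite := by
  refine (Set.finite_Iic (∑ p ∈ range s ×ˢ range t, Finsupp.single p t)).subset ?_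
  rintro e ⟨h1, h2⟩
  rw [Set.mem_Iic, Finsupp.le_iff]
  intro p hp
  have h3 : e p * (2 ^ (p.2 + 1) - 1) ≤ t := by
    rw [← h2, Finsupp.weight_apply, Finsupp.sum]
    exact single_le_sum (f := fun p : ℕ × ℕ => e p • (2 ^ (p.2 + 1) - 1))
      (fun _ _ => Nat.zero_le _) hp
  have h4 : 1 ≤ e p := Nat.one_le_iff_ne_zero.mpr (Finsupp.mem_support_iff.mp hp)
  have h5 : p.2 + 1 ≤ 2 ^ (p.2 + 1) - 1 := by
    have := Nat.lt_two_pow_self (n := p.2 + 1)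
    omega
  have h6 : p.2 + 1 ≤ t := h5.trans ((Nat.le_mul_of_pos_left _ h4).trans h3)
  have h7 : e p ≤ t := (Nat.le_mul_of_pos_right _ (by omega)).trans h3
  rw [Finsupp.finset_sum_apply]
  refine h7.trans ?_
  have h8 : p ∈ range s ×ˢ range t := by
    rw [mem_product, mem_range, mem_range]
    exact ⟨h1 p hp, by omega⟩
  calc t = (Finsupp.single p t) p := by rw [Finsupp.single_eq_same]
    _ ≤ ∑ q ∈ range s ×ˢ range t, (Finsupp.single q t) p :=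
      single_le_sum (f := fun q : ℕ × ℕ => (Finsupp.single q t) p) (fun _ _ => Nat.zero_le _) h8

theorem fin_hom (s t : ℕ) : {x : P | x ∈ C s ∧ IsHom t x}.Finite := by
  have hF := fin_exp s t
  have := hF.to_subtype
  refine Set.Finite.of_injOn (f := fun (x : P) (e : {e : ℕ × ℕ →₀ ℕ | (∀ p ∈ e.support, p.1 < s) ∧
    Finsupp.weight (fun p : ℕ × ℕ => 2 ^ (p.2 + 1) - 1) e = t}) => coeff e.1 x)
    (fun _ _ => Set.mem_univ _) ?_ Set.finite_univ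
  rintro x ⟨hx, hx'⟩ y ⟨hy, hy'⟩ h
  ext e
  by_cases he : (∀ p ∈ e.support, p.1 < s) ∧
      Finsupp.weight (fun p : ℕ × ℕ => 2 ^ (p.2 + 1) - 1) e = t
  · exact congrFun h ⟨e, he⟩
  · have key : ∀ z : P, z ∈ C s → IsHom t z → coeff e z = 0 := by
      intro z hz hz'
      by_contra h0
      apply he
      refine ⟨fun p hp => ?_, hz' h0⟩
      have hz2 : ↑z.vars ⊆ {p : ℕ × ℕ | p.1 < s} := mem_supported.mp hz
      exact hz2 (mem_coe.mpr ((mem_vars_iff_mem_support p).mpr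
        ⟨e, mem_support_iff.mpr h0, hp⟩))
    rw [key x hx hx', key y hy hy']

theorem fin_deg (s t : ℕ) : {y : Ext s | IsDeg s t y}.Finite := by
  classical
  have h1 := fin_hom s t
  refine (h1.image fun x : P => if hx : x ∈ Z s then cl ⟨x, hx⟩ else 0).subset ?_
  rintro y ⟨x, hx, rfl⟩
  refine ⟨x.val, ⟨x.mem, hx⟩, ?_⟩
  have h2 : x.val ∈ Z s := x.toZ.2
  simp only
  rw [dif_pos h2]
  rfl

/-! ### Vanishing -/

theorem van_cl (s m : ℕ) (hm : 1 ≤ m) : ∀ᶠ N in HD, ∀ t' : ℕ, (t' : ℤ) = N - m →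
    ∀ z ∈ Deg s t', z = 0 := by
  filter_upwards [evQ1 s 0 0 (-(m : ℤ)) (by push_cast; omega)] with N h1
  intro t' ht' z hz
  obtain ⟨x, hx, rfl⟩ := hz
  have hxT := CC_jo x.2.1 hx
  have hdx : dk s (jo x.1) = 0 := by
    rw [← jo_d x.2.1, LinearMap.mem_ker.mp x.2.2, map_zero]
  have h2 := h1 Empty 0 (by simp)
  rw [kk] at h2
  have e1 : N + -(m : ℤ) = t' := by rw [ht']; ring
  rw [e1] at h2
  obtain ⟨g, hg, hge⟩ := h2 (jo x.1) hxT hdx
  rw [cl_eq_zero]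
  cases s with
  | zero =>
    have h3 : jo x.1 = 0 := hge.symm
    have h4 : x.1 = 0 := jo_inj (by rw [h3, map_zero])
    rw [h4]
    exact Submodule.zero_mem _
  | succ s =>
    have hg' : CC s (t' : ℤ) 0 g := hg
    refine ⟨po g, C_po hg'.cu, ?_⟩
    have h3 : dk s g = jo x.1 := hge
    rw [← po_dk hg', h3, po_jo]

/-- no differential hits the classes of highly divisible degree -/
theorem nohit (s : ℕ) : ∃ R : ℕ, ∀ N : ℕ, 2 ^ R ∣ N → ∀ r s' t' : ℕ, 2 ≤ r → s' + r = s →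
    t' + r = N + 1 → ∀ z : Ext s', IsDeg s' t' z → z = 0 := by
  have h1 : ∀ᶠ N in HD, ∀ s' ∈ range (s + 1), ∀ m ∈ range (s + 1), 1 ≤ m →
      ∀ t' : ℕ, (t' : ℤ) = N - m → ∀ z ∈ Deg s' t', z = 0 := by
    rw [Filter.eventually_all_finset]
    intro s' _
    rw [Filter.eventually_all_finset]
    intro m _
    by_cases hm : 1 ≤ m
    · exact (van_cl s' m hm).mono fun N h _ => h
    · exact Filter.Eventually.of_forall fun N h => absurd h hm
  obtain ⟨R, hR⟩ := hd_nat h1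
  refine ⟨R, fun N hN r s' t' hr hs ht z hz => ?_⟩
  refine hR N hN s' (mem_range.mpr (by omega)) (r - 1) (mem_range.mpr (by omega)) (by omega) t' ?_ z
    (isDeg_iff.mp hz)
  have : (t' : ℤ) + r = N + 1 := by exact_mod_cast ht
  have h2 : ((r - 1 : ℕ) : ℤ) = r - 1 := by
    rw [Nat.cast_sub (by omega)]
    simp
  rw [h2]
  linarith

/-! ### Surjectivity -/

theorem surj_cl (q : ℕ) : ∃ R : ℕ, ∀ N : ℕ, 2 ^ R ∣ N → ∀ w ∈ Deg (q + 1) (2 * N),
    ∃ u ∈ Deg (q + 1) N, w = Sq0 (q + 1) u := by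
  obtain ⟨R, hR⟩ := hd_nat (e_sq q)
  refine ⟨R, fun N hN w hw => ?_⟩
  obtain ⟨x, hx, rfl⟩ := hw
  have hxT := CC_jo x.2.1 hx
  have hdx : dk (q + 1) (jo x.1) = 0 := by
    rw [← jo_d x.2.1, LinearMap.mem_ker.mp x.2.2, map_zero]
  push_cast at hxT
  obtain ⟨u, hu, hdu, g, hg, he⟩ := hR N hN (jo x.1) hxT hdx
  have hpu : po u ∈ C (q + 1) := C_po hu.cu
  have hdu' : d (q + 1) (po u) = 0 := by rw [← po_dk hu, hdu, map_zero]
  refine ⟨cl ⟨po u, hpu, LinearMap.mem_ker.mpr hdu'⟩, ⟨_, IsHom_po hu, rfl⟩, ?_⟩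
  rw [Sq0_cl, ← sub_eq_zero, ← map_sub, cl_eq_zero]
  refine ⟨po g, C_po hg.cu, ?_⟩
  rw [← po_dk hg]
  have h2 := congrArg po he
  rw [po_jo, map_add, PHI_sq, map_pow] at h2
  change po (dk q g) = x.1 - (po u) ^ 2
  rw [h2]
  ring

theorem surj_iter (q : ℕ) : ∃ R : ℕ, ∀ N : ℕ, 2 ^ R ∣ N → ∀ i : ℕ, ∀ w ∈ Deg (q + 1) (2 ^ i * N),
    ∃ u ∈ Deg (q + 1) N, w = (Sq0 (q + 1))^[i] u := by
  obtain ⟨R, hR⟩ := surj_cl q
  refine ⟨R, fun N hN i => ?_⟩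
  induction i with
  | zero => intro w hw; exact ⟨w, by simpa using hw, rfl⟩
  | succ i ih =>
    intro w hw
    rw [pow_succ', mul_assoc] at hw
    obtain ⟨v, hv, rfl⟩ := hR (2 ^ i * N) (Dvd.dvd.mul_left hN _) w hw
    obtain ⟨u, hu, rfl⟩ := ih v hv
    exact ⟨u, hu, (Function.iterate_succ_apply' _ _ _).symm⟩

theorem fam_deg {s t : ℕ} {y : Ext s} (hy : IsDeg s t y) (j : ℕ) :
    IsDeg s (2 ^ j * t) (fam s j y) := by
  rw [isDeg_iff] at hy ⊢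
  obtain ⟨x, hx, rfl⟩ := hy
  have : fam s j (cl x) = cl (fr^[j] x) := Sq0_iter x j
  rw [this]
  exact ⟨_, fr_hom hx j, rfl⟩

/-- the equivalence -/
theorem doom (s : ℕ) (hs : 1 ≤ s) : ∃ J : ℕ, ∀ (A : Survivors) (t : ℕ), 1 ≤ t →
    ((∀ x : Ext s, IsDeg s (2 ^ J * t) x → {j | fam s j x ∈ A.surv s}.Finite) ↔
      {j | ∃ y : Ext s, IsDeg s (2 ^ j * t) y ∧ y ≠ 0 ∧ y ∈ A.perm s}.Finite) := by
  obtain ⟨q, rfl⟩ : ∃ q, s = q + 1 := ⟨s - 1, by omega⟩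
  obtain ⟨R1, h1⟩ := nohit (q + 1)
  obtain ⟨R2, h2⟩ := surj_iter q
  refine ⟨R1 + R2, fun A t _ => ⟨fun h => ?_, fun h x hx => ?_⟩⟩
  · set J := R1 + R2 with hJ
    have hW := fin_deg (q + 1) (2 ^ J * t)
    have hU : (⋃ w ∈ {w : Ext (q + 1) | IsDeg (q + 1) (2 ^ J * t) w},
        (fun i => i + J) '' {i | fam (q + 1) i w ∈ A.surv (q + 1)}).Finite :=
      Set.Finite.biUnion hW fun w hw => (h w hw).image _
    refine ((Set.finite_Iio J).union hU).subset ?_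
    rintro j ⟨y, hy, hy0, hyp⟩
    rcases Nat.lt_or_ge j J with hj | hj
    · exact Or.inl hj
    · right
      have hys : y ∈ A.surv (q + 1) := by
        by_contra hns
        obtain ⟨r, s', t', hr, hss, htt, z, hz, hz0⟩ := A.hit _ _ y hy hyp hy0 hns
        exact hz0 (h1 _ (Dvd.dvd.mul_right (pow_dvd_pow 2 (by omega)) _) r s' t' hr hss htt z hz)
      obtain ⟨i, rfl⟩ := Nat.exists_eq_add_of_le hj
      have hy' : y ∈ Deg (q + 1) (2 ^ i * (2 ^ J * t)) := by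
        have := isDeg_iff.mp hy
        rwa [show 2 ^ (J + i) * t = 2 ^ i * (2 ^ J * t) by rw [pow_add]; ring] at this
      obtain ⟨u, hu, hyu⟩ := h2 (2 ^ J * t) (Dvd.dvd.mul_right (pow_dvd_pow 2 (by omega)) _) i y hy'
      refine Set.mem_biUnion (x := u) (isDeg_iff.mpr hu) ⟨i, ?_, add_comm i J⟩
      have h3 : fam (q + 1) i u = y := hyu.symm
      rw [Set.mem_setOf_eq, h3]
      exact hys
  · have h3 : {j | fam (q + 1) j x ∈ A.surv (q + 1)} ⊆ (fun j => j + (R1 + R2)) ⁻¹'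
        {j | ∃ y : Ext (q + 1), IsDeg (q + 1) (2 ^ j * t) y ∧ y ≠ 0 ∧ y ∈ A.perm (q + 1)} := by
      intro j hj
      have h4 := fam_deg hx j
      obtain ⟨h5, h6⟩ := A.of_surv _ _ hj
      refine ⟨fam (q + 1) j x, ?_, h6, h5⟩
      rwa [show 2 ^ (j + (R1 + R2)) * t = 2 ^ j * (2 ^ (R1 + R2) * t) by rw [pow_add]; ring]
    exact (h.preimage (fun a _ b _ e => by simpa using e)).subset h3

end Pool.Agent.Q171.ND3.St
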