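import Pool.Agent.Q171.ND3.Br

/-!
The cup squares of cocycles are cocycles.
-/

set_option autoImplicit false
set_option linter.unusedSectionVars false

namespace Pool.Agent.Q171.ND3.St

open Finset MvPolynomial Pool.Agent.W624.Stz

/-- the inverse of the shift -/
def dn (w a : ℕ) : ℕ := if a < w then a else a - 1

theorem dn_om (w a : ℕ) : dn w (om w a) = a := by
  simp only [dn, om]; split_ifs <;> omega

theorem om_dn {w a : ℕ} (h : a ≠ w) : om w (dn w a) = a := by
  simp only [dn, om]; split_ifs <;> omega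

/-- the set before the shift -/
def pull (w : ℕ) (W : Finset ℕ) : Finset ℕ := (W.erase w).image (dn w)

theorem sh_pull (w : ℕ) (W : Finset ℕ) : sh w (pull w W) = W.erase w := by
  ext a
  rw [sh, pull, image_image, mem_image]
  constructor
  · rintro ⟨b, hb, rfl⟩
    rw [Function.comp, om_dn (mem_erase.mp hb).1]
    exact hb
  · intro ha
    exact ⟨a, ha, om_dn (mem_erase.mp ha).1⟩

theorem pull_sh (w : ℕ) (U : Finset ℕ) : pull w (insert w (sh w U)) = U := by
  rw [pull, erase_insert (notMem_sh w U), sh, image_image]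
  ext a
  rw [mem_image]
  constructor
  · rintro ⟨b, hb, rfl⟩
    rwa [Function.comp, dn_om]
  · intro ha
    exact ⟨a, ha, dn_om w a⟩

theorem par_sh (w : ℕ) (U : Finset ℕ) (u : ℕ) :
    Even (par (insert w (sh w U)) (om w u)) ↔ Even (par U u) := by
  have h1 : (sh w U).filter (· < om w u) = (U.filter (· < u)).image (om w) := by
    ext a
    rw [mem_filter, sh, mem_image, mem_image]
    constructor
    · rintro ⟨⟨b, hb, rfl⟩, h⟩
      exact ⟨b, mem_filter.mpr ⟨hb, (om_mono w).lt_iff_lt.mp h⟩, rfl⟩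
    · rintro ⟨b, hb, rfl⟩
      rw [mem_filter] at hb
      exact ⟨⟨b, hb.1, rfl⟩, (om_mono w).lt_iff_lt.mpr hb.2⟩
  have hc : ((U.filter (· < u)).image (om w)).card = (U.filter (· < u)).card :=
    card_image_of_injective _ (om_mono w).injective
  rw [par, par, filter_insert, h1]
  by_cases h : u < w
  · have h2 : om w u = u := by simp only [om]; rw [if_pos h]
    rw [h2, if_neg (by omega), hc]
  · have h2 : om w u = u + 1 := by simp only [om]; rw [if_neg h]
    rw [h2, if_pos (by omega), card_insert_of_notMem, hc]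
    · rw [show u + 1 + ((U.filter (· < u)).card + 1) = u + (U.filter (· < u)).card + 2 by omega,
        Nat.even_add]
      simp
    · intro h3
      obtain ⟨a, _, ha⟩ := mem_image.mp h3
      exact om_ne w a ha

theorem ev0_sh (w : ℕ) (U : Finset ℕ) : (ev0 (insert w (sh w U))).erase w = sh w (ev0 U) := by
  ext a
  rw [mem_erase, mem_ev0, mem_insert]
  constructor
  · rintro ⟨h1, h2 | h2, h3⟩
    · exact absurd h2 h1
    · obtain ⟨b, rfl⟩ := om_surj h1
      rw [par_sh] at h3
      rw [om_mem_sh] at h2 ⊢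
      exact mem_ev0.mpr ⟨h2, h3⟩
  · intro h
    have h1 : a ≠ w := fun e => notMem_sh w _ (e ▸ h)
    obtain ⟨b, rfl⟩ := om_surj h1
    rw [om_mem_sh] at h
    rw [om_mem_sh, par_sh]
    exact ⟨h1, Or.inr (mem_ev0.mp h).1, (mem_ev0.mp h).2⟩

theorem ev1_sh (w : ℕ) (U : Finset ℕ) : (ev1 (insert w (sh w U))).erase w = sh w (ev1 U) := by
  ext a
  rw [mem_erase, mem_ev1, mem_insert]
  constructor
  · rintro ⟨h1, h2 | h2, h3⟩
    · exact absurd h2 h1
    · obtain ⟨b, rfl⟩ := om_surj h1
      rw [par_sh] at h3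
      rw [om_mem_sh] at h2 ⊢
      exact mem_ev1.mpr ⟨h2, h3⟩
  · intro h
    have h1 : a ≠ w := fun e => notMem_sh w _ (e ▸ h)
    obtain ⟨b, rfl⟩ := om_surj h1
    rw [om_mem_sh] at h
    rw [om_mem_sh, par_sh]
    exact ⟨h1, Or.inr (mem_ev1.mp h).1, (mem_ev1.mp h).2⟩

theorem insert_erase_eq (w : ℕ) (A : Finset ℕ) : insert w (A.erase w) = insert w A := by
  ext a
  rw [mem_insert, mem_insert, mem_erase]
  tauto

theorem insert_ev0_sh (w : ℕ) (U : Finset ℕ) :
    insert w (sh w (ev0 U)) = insert w (ev0 (insert w (sh w U))) := by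
  rw [← ev0_sh, insert_erase_eq]

theorem insert_ev1_sh (w : ℕ) (U : Finset ℕ) :
    insert w (sh w (ev1 U)) = insert w (ev1 (insert w (sh w U))) := by
  rw [← ev1_sh, insert_erase_eq]

theorem card_sh (w : ℕ) (U : Finset ℕ) : (sh w U).card = U.card :=
  card_image_of_injective _ (om_mono w).injective

/-- the reindexing of the differential of a cup square -/
theorem reidx {R : Type*} [CommRing R] (f : Finset ℕ → Finset ℕ → R) (k M : ℕ) :
    ∑ w ∈ range (M + 1), ∑ U ∈ (range M).powerset with (ev0 U).card = k ∧ (ev1 U).card = k,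
      f (insert w (sh w (ev0 U))) (insert w (sh w (ev1 U)))
    = ∑ W ∈ (range (M + 1)).powerset, ∑ w ∈ W,
      (if ((ev0 W).erase w).card = k ∧ ((ev1 W).erase w).card = k then
        f (insert w (ev0 W)) (insert w (ev1 W)) else 0) := by
  simp only [← sum_filter]
  rw [sum_sigma', sum_sigma']
  refine sum_nbij' (fun x => ⟨insert x.1 (sh x.1 x.2), x.1⟩) (fun x => ⟨x.2, pull x.2 x.1⟩)
    ?_ ?_ ?_ ?_ ?_
  · rintro ⟨w, U⟩ h
    simp only [mem_sigma, mem_powerset, mem_filter, mem_range] at h ⊢
    obtain ⟨hw, hU, h0, h1⟩ := h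
    refine ⟨?_, mem_insert_self _ _, ?_, ?_⟩
    · intro a ha
      rcases mem_insert.mp ha with rfl | ha
      · exact mem_range.mpr hw
      · obtain ⟨b, hb, rfl⟩ := mem_image.mp ha
        have := mem_range.mp (hU hb)
        rw [mem_range, om]
        split_ifs <;> omega
    · rw [ev0_sh, card_sh, h0]
    · rw [ev1_sh, card_sh, h1]
  · rintro ⟨W, w⟩ h
    simp only [mem_sigma, mem_powerset, mem_filter, mem_range] at h ⊢
    obtain ⟨hW, hw, h0, h1⟩ := h
    have h2 : insert w (sh w (pull w W)) = W := by rw [sh_pull, insert_erase hw]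
    refine ⟨mem_range.mp (hW hw), ?_, ?_, ?_⟩
    · intro a ha
      obtain ⟨b, hb, rfl⟩ := mem_image.mp ha
      have h3 := mem_range.mp (hW (mem_of_mem_erase hb))
      have h4 := mem_range.mp (hW hw)
      have h5 := (mem_erase.mp hb).1
      rw [mem_range, dn]
      split_ifs <;> omega
    · rw [← h2, ev0_sh, card_sh] at h0
      exact h0
    · rw [← h2, ev1_sh, card_sh] at h1
      exact h1
  · rintro ⟨w, U⟩ _
    simp only
    rw [pull_sh]
  · rintro ⟨W, w⟩ h
    simp only [mem_sigma, mem_filter] at h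
    simp only
    rw [sh_pull, insert_erase h.2.1]
  · rintro ⟨w, U⟩ _
    simp only
    rw [insert_ev0_sh, insert_ev1_sh]

/-- the cup squares of cocycles are cocycles -/
theorem d_sqC (k s : ℕ) {x : P} (hdx : d s x = 0) : d (s + k) (sqC k s x) = 0 := by
  have h2 : ∀ a : P, a + a = 0 := fun a => p2_add_self a
  rw [d, LinearMap.sum_apply]
  have h1 : ∀ w ∈ range (s + k + 2), (face w).toLinearMap (sqC k s x)
      = ∑ U ∈ (range (s + k + 1)).powerset with (ev0 U).card = k ∧ (ev1 U).card = k,
        faces (insert w (sh w (ev0 U))) x * faces (insert w (sh w (ev1 U))) x := by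
    intro w _
    rw [sqC, AlgHom.toLinearMap_apply, map_sum]
    exact sum_congr rfl fun U _ => by rw [map_mul, face_faces, face_faces]
  rw [sum_congr rfl h1, reidx (fun A B => faces A x * faces B x)]
  exact cmb h2 (fun A => faces A x) k (s + k + 1 + 1) fun B hB hk => sum_faces hdx hB hk

end Pool.Agent.Q171.ND3.St
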